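import Pool.Agent.N748.GC.ASMcore

set_option autoImplicit false

/-!
# Second moment argument on windows with an arbitrary measure (after `Pool.Agent.N748.GC.ASMcore`)
-/

namespace Run7.h772.KH

open Filter MeasureTheory Topology
open Pool.Agent.N748.GC.ASM (LB intprod)

theorem fin_of_mass {μ : Measure ℝ} (h : μ Set.univ ≤ 1) : IsFiniteMeasure μ :=
  ⟨h.trans_lt ENNReal.one_lt_top⟩

theorem diag_null (μ : Measure ℝ) [IsFiniteMeasure μ] (hna : ∀ x, μ {x} = 0) : ∀ᵐ p ∂(μ.prod μ), p.1 ≠ p.2 := by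
  rw [ae_iff]
  simp only [ne_eq, not_not]
  have hm : MeasurableSet {p : ℝ × ℝ | p.1 = p.2} := measurableSet_eq_fun measurable_fst measurable_snd
  rw [Measure.measure_prod_null hm]
  filter_upwards with x
  have : Prod.mk x ⁻¹' {p : ℝ × ℝ | p.1 = p.2} = {x} := by
    ext y
    simp [eq_comm]
  rw [this]
  exact hna x

/-- locally bounded functions are integrable -/
theorem LB_int (μ : Measure ℝ) [IsFiniteMeasure μ] (hμs : ∀ᵐ x ∂μ, x ∈ Set.Icc (0:ℝ) 1) {u : ℝ → ℝ} (hu : LB u) :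
    Integrable u μ := by
  obtain ⟨B, h0, hB⟩ := hu.b 1
  refine Integrable.of_bound hu.m.aestronglyMeasurable B ?_
  filter_upwards [hμs] with x hx
  rw [Real.norm_eq_abs]
  exact hB x (abs_le.mpr ⟨by linarith [hx.1], hx.2⟩)

theorem core (μ : Measure ℝ) (hμ1 : μ Set.univ ≤ 1) (hμs : ∀ᵐ x ∂μ, x ∈ Set.Icc (0:ℝ) 1) (hna : ∀ x, μ {x} = 0)
    {T1 T2 : ℝ} (hT : T1 ≤ T2) {f m mc W g Dt : ℝ → ℝ} {B : ℝ × ℝ → ℝ}
    {a b c d ε : ℝ} (hf : Measurable f) (hf0 : ∀ x, 0 ≤ f x) (hf1 : ∀ x, f x ≤ 1)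
    (hm : Continuous m) (hmc : Continuous mc) (h0 : ∀ x, 0 ≤ mc x) (hle : ∀ x, mc x ≤ m x)
    (hW : Continuous W) (hW0 : ∀ x, 0 ≤ W x) (hg : Measurable g) (hg0 : ∀ x, 0 ≤ g x)
    (hg1 : ∀ x, g x ≤ 1) (hD : Continuous Dt) (hε : 0 < ε) (hDε : ∀ t, ε ≤ Dt t) (ha : 0 ≤ a) (hb : 0 ≤ b)
    (h1 : ∀ x ∈ Set.Icc (0:ℝ) 1, ∫ t in T1..T2, mc (t + x) * (W (t + x) * (1 - g (t + x))) ≤ a)
    (h2 : ∀ x ∈ Set.Icc (0:ℝ) 1, ∫ t in T1..T2, (m (t + x) - mc (t + x)) * (W (t + x) + 1) ≤ b)
    (hB : Integrable B (μ.prod μ)) (hB0 : ∀ p, 0 ≤ B p) (hBc : ∫ p, B p ∂(μ.prod μ) ≤ c)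
    (h3 : ∀ x ∈ Set.Icc (0:ℝ) 1, ∀ y ∈ Set.Icc (0:ℝ) 1, x ≠ y →
      ∫ t in T1..T2, mc (t + x) * mc (t + y) / Dt t *
        ((W (t + x) * g (t + x) - 1) * (W (t + y) * g (t + y) - 1)) ≤ B (x, y))
    (h4 : ∫ t in T1..T2, Dt t ≤ d) :
    ∫ t in T1..T2, |∫ x, f x * (m (t + x) * (W (t + x) - 1)) ∂μ| ≤
      a + b + (c + d) / 2 := by
  have hfin : IsFiniteMeasure μ := fin_of_mass hμ1
  have hreal : μ.real Set.univ ≤ 1 := ENNReal.toReal_le_of_le_ofReal zero_le_one (by rw [ENNReal.ofReal_one]; exact hμ1)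
  set μt : Measure ℝ := volume.restrict (Set.Ioc T1 T2) with hμt
  have : IsFiniteMeasure μt := by
    rw [hμt, isFiniteMeasure_restrict]; simp
  have hmt : ∀ᵐ t ∂μt, t ∈ Set.Ioc T1 T2 := ae_restrict_mem measurableSet_Ioc
  -- locally bounded functions
  have Lm := LB.cont hm
  have Lmc := LB.cont hmc
  have LW := LB.cont hW
  have Lg : LB g := LB.bdd (B := 1) hg (fun s => abs_le.mpr ⟨by linarith [hg0 s], hg1 s⟩)
  have Lf : LB f := LB.bdd (B := 1) hf (fun s => abs_le.mpr ⟨by linarith [hf0 s], hf1 s⟩)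
  set u1 : ℝ → ℝ := fun s => mc s * (W s * (1 - g s)) with hu1
  set u2 : ℝ → ℝ := fun s => (m s - mc s) * (W s + 1) with hu2
  set u3 : ℝ → ℝ := fun s => mc s * (W s * g s - 1) with hu3
  set u4 : ℝ → ℝ := fun s => m s * (W s - 1) with hu4
  have L1 : LB u1 := Lmc.mul (LW.mul ((LB.const 1).sub Lg))
  have L2 : LB u2 := (Lm.sub Lmc).mul (LW.add (LB.const 1))
  have L3 : LB u3 := Lmc.mul ((LW.mul Lg).sub (LB.const 1))
  have L4 : LB u4 := Lm.mul (LW.sub (LB.const 1))
  -- bound of the argument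
  set R : ℝ := |T1| + |T2| + 1 with hR
  have hRb : ∀ t ∈ Set.Ioc T1 T2, ∀ x ∈ Set.Icc (0:ℝ) 1, |t + x| ≤ R := by
    intro t ht x hx
    rw [abs_le]
    constructor
    · have := neg_abs_le T1
      have := abs_nonneg T2
      linarith [ht.1, hx.1]
    · have := le_abs_self T2
      have := abs_nonneg T1
      linarith [ht.2, hx.2]
  -- integrability on the product
  have hprod : ∀ u : ℝ → ℝ, LB u → Integrable (fun p : ℝ × ℝ => f p.2 * u (p.1 + p.2)) (μt.prod μ) := by
    intro u hu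
    obtain ⟨Bu, hBu0, hBu⟩ := hu.b R
    refine intprod hmt hμs (B := Bu) ?_ ?_
    · exact (hf.comp measurable_snd).mul (hu.m.comp (measurable_fst.add measurable_snd))
    · intro t x ht hx
      simp only
      rw [abs_mul]
      have k1 := hBu _ (hRb t ht x hx)
      have k2 : |f x| ≤ 1 := abs_le.mpr ⟨by linarith [hf0 x], hf1 x⟩
      calc |f x| * |u (t + x)| ≤ 1 * Bu := mul_le_mul k2 k1 (abs_nonneg _) (by norm_num)
        _ = Bu := one_mul _
  have hprod' : ∀ u : ℝ → ℝ, LB u → Integrable (fun p : ℝ × ℝ => u (p.1 + p.2)) (μt.prod μ) := by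
    intro u hu
    obtain ⟨Bu, hBu0, hBu⟩ := hu.b R
    refine intprod hmt hμs (B := Bu) ?_ ?_
    · exact (hu.m.comp (measurable_fst.add measurable_snd))
    · intro t x ht hx
      exact hBu _ (hRb t ht x hx)
  have hsec : ∀ u : ℝ → ℝ, LB u → ∀ t, Integrable (fun x => f x * u (t + x)) μ := by
    intro u hu t
    have : LB (fun x => f x * u (t + x)) := by
      have := Lf.mul (hu.shift t)
      simpa only [add_comm t] using this
    exact LB_int μ hμs this
  have hsec' : ∀ u : ℝ → ℝ, LB u → ∀ t, Integrable (fun x => u (t + x)) μ := by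
    intro u hu t
    have : LB (fun x => u (t + x)) := by
      have := (hu.shift t)
      simpa only [add_comm t] using this
    exact LB_int μ hμs this
  -- the main term
  set A : ℝ → ℝ := fun t => ∫ x, f x * u3 (t + x) ∂μ with hA
  have hAint : Integrable A μt := (hprod u3 L3).integral_prod_left
  obtain ⟨B3, hB30, hB3⟩ := L3.b R
  have hAb : ∀ᵐ t ∂μt, |A t| ≤ B3 := by
    filter_upwards [hmt] with t ht
    have : ‖∫ x, f x * u3 (t + x) ∂μ‖ ≤ B3 * μ.real Set.univ := by
      refine norm_integral_le_of_norm_le_const ?_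
      filter_upwards [hμs] with x hx
      rw [Real.norm_eq_abs, abs_mul]
      have k1 := hB3 _ (hRb t ht x hx)
      have k2 : |f x| ≤ 1 := abs_le.mpr ⟨by linarith [hf0 x], hf1 x⟩
      calc |f x| * |u3 (t + x)| ≤ 1 * B3 := mul_le_mul k2 k1 (abs_nonneg _) (by norm_num)
        _ = B3 := one_mul _
    rw [Real.norm_eq_abs] at this
    exact this.trans (mul_le_of_le_one_right hB30 hreal)
  have hDpos : ∀ t, 0 < Dt t := fun t => hε.trans_le (hDε t)
  have hDint : Integrable Dt μt := by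
    have := (LB.cont hD).ii T1 T2
    exact (intervalIntegrable_iff_integrableOn_Ioc_of_le hT).mp this
  have hA2 : Integrable (fun t => A t ^ 2 / Dt t) μt := by
    refine Integrable.of_bound (C := B3 ^ 2 / ε) ?_ ?_
    · exact ((hAint.1.aemeasurable.pow_const 2).div hD.measurable.aemeasurable).aestronglyMeasurable
    · filter_upwards [hAb] with t ht
      rw [Real.norm_eq_abs, abs_div, abs_pow, abs_of_pos (hDpos t)]
      have := abs_nonneg (A t)
      gcongr
      exact hDε t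
  -- Fubini for the square
  have hsq : ∫ t, A t ^ 2 / Dt t ∂μt ≤ c := by
    set G : ℝ × (ℝ × ℝ) → ℝ := fun q => (f q.2.1 * u3 (q.1 + q.2.1)) * (f q.2.2 * u3 (q.1 + q.2.2))
      / Dt q.1 with hG
    have hGm : Measurable G := by
      have a1 : Measurable (fun q : ℝ × (ℝ × ℝ) => f q.2.1 * u3 (q.1 + q.2.1)) :=
        (hf.comp (measurable_fst.comp measurable_snd)).mul
          (L3.m.comp (measurable_fst.add (measurable_fst.comp measurable_snd)))
      have a2 : Measurable (fun q : ℝ × (ℝ × ℝ) => f q.2.2 * u3 (q.1 + q.2.2)) :=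
        (hf.comp (measurable_snd.comp measurable_snd)).mul
          (L3.m.comp (measurable_fst.add (measurable_snd.comp measurable_snd)))
      exact (a1.mul a2).div (hD.measurable.comp measurable_fst)
    have hm2 : ∀ᵐ p ∂(μ.prod μ), p.1 ∈ Set.Icc (0:ℝ) 1 ∧ p.2 ∈ Set.Icc (0:ℝ) 1 := by
      have k1 : ∀ᵐ p ∂(μ.prod μ), p.1 ∈ Set.Icc (0:ℝ) 1 :=
        Measure.quasiMeasurePreserving_fst.ae hμs
      have k2 : ∀ᵐ p ∂(μ.prod μ), p.2 ∈ Set.Icc (0:ℝ) 1 :=
        Measure.quasiMeasurePreserving_snd.ae hμs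
      filter_upwards [k1, k2] with p h1 h2 using ⟨h1, h2⟩
    have hGi : Integrable G (μt.prod (μ.prod μ)) := by
      refine intprod hmt hm2 (B := B3 * B3 / ε) hGm ?_
      intro t p ht hp
      have q1 : |f p.1 * u3 (t + p.1)| ≤ B3 := by
        rw [abs_mul]
        calc |f p.1| * |u3 (t + p.1)| ≤ 1 * B3 :=
              mul_le_mul (abs_le.mpr ⟨by linarith [hf0 p.1], hf1 p.1⟩) (hB3 _ (hRb t ht _ hp.1))
                (abs_nonneg _) (by norm_num)
          _ = B3 := one_mul _
      have q2 : |f p.2 * u3 (t + p.2)| ≤ B3 := by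
        rw [abs_mul]
        calc |f p.2| * |u3 (t + p.2)| ≤ 1 * B3 :=
              mul_le_mul (abs_le.mpr ⟨by linarith [hf0 p.2], hf1 p.2⟩) (hB3 _ (hRb t ht _ hp.2))
                (abs_nonneg _) (by norm_num)
          _ = B3 := one_mul _
      simp only [hG]
      rw [abs_div, abs_mul, abs_of_pos (hDpos t)]
      have := hDε t
      gcongr
    have e1 : ∀ t, A t ^ 2 / Dt t = ∫ p, G (t, p) ∂(μ.prod μ) := by
      intro t
      simp only [hG]
      rw [integral_div, integral_prod_mul (fun x => f x * u3 (t + x)) (fun x => f x * u3 (t + x))]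
      rw [hA, sq]
    have e2 : ∫ t, A t ^ 2 / Dt t ∂μt = ∫ p, ∫ t, G (t, p) ∂μt ∂(μ.prod μ) := by
      simp only [e1]
      exact integral_integral_swap (f := fun t p => G (t, p)) hGi
    rw [e2]
    refine le_trans (integral_mono_ae hGi.integral_prod_right hB ?_) hBc
    filter_upwards [hm2, diag_null μ hna] with p hp hne
    have k3 := h3 p.1 (hp.1) p.2 (hp.2) hne
    rw [intervalIntegral.integral_of_le hT] at k3
    have e3 : ∫ t, G (t, p) ∂μt = (f p.1 * f p.2) * ∫ t in Set.Ioc T1 T2,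
        mc (t + p.1) * mc (t + p.2) / Dt t *
          ((W (t + p.1) * g (t + p.1) - 1) * (W (t + p.2) * g (t + p.2) - 1)) := by
      rw [← integral_const_mul]
      refine integral_congr_ae (Eventually.of_forall fun t => ?_)
      simp only [hG, hu3]
      ring
    rw [e3]
    have f1 := hf0 p.1
    have f2 := hf0 p.2
    have f3 := hf1 p.1
    have f4 := hf1 p.2
    have f5 : f p.1 * f p.2 ≤ 1 := by nlinarith
    calc (f p.1 * f p.2) * ∫ t in Set.Ioc T1 T2,
        mc (t + p.1) * mc (t + p.2) / Dt t *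
          ((W (t + p.1) * g (t + p.1) - 1) * (W (t + p.2) * g (t + p.2) - 1))
        ≤ (f p.1 * f p.2) * B (p.1, p.2) := by gcongr
      _ ≤ 1 * B (p.1, p.2) := by
          have := hB0 (p.1, p.2)
          gcongr
      _ = B p := by simp
  have hAle : ∫ t, |A t| ∂μt ≤ (c + d) / 2 := by
    have k : ∫ t, |A t| ∂μt ≤ ∫ t, (A t ^ 2 / Dt t + Dt t) / 2 ∂μt := by
      refine integral_mono_ae hAint.abs ((hA2.add hDint).div_const 2) ?_
      filter_upwards with t
      have hp := hDpos t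
      have : 0 ≤ (|A t| - Dt t) ^ 2 / Dt t := by positivity
      have e : (|A t| - Dt t) ^ 2 / Dt t = A t ^ 2 / Dt t - 2 * |A t| + Dt t := by
        field_simp
        rw [← sq_abs (A t)]
        ring
      show |A t| ≤ (A t ^ 2 / Dt t + Dt t) / 2
      linarith
    refine k.trans ?_
    rw [integral_div, integral_add hA2 hDint]
    rw [intervalIntegral.integral_of_le hT] at h4
    linarith
  -- the error terms
  have hE : ∫ t, ∫ x, (u1 (t + x) + u2 (t + x)) ∂μ ∂μt ≤ a + b := by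
    have hi := hprod' _ (L1.add L2)
    have e := integral_integral_swap (f := fun t x => u1 (t + x) + u2 (t + x)) hi
    rw [e]
    calc ∫ x, ∫ t, (u1 (t + x) + u2 (t + x)) ∂μt ∂μ ≤ ∫ x, (a + b) ∂μ := by
          refine integral_mono_ae hi.integral_prod_right (integrable_const _) ?_
          filter_upwards [hμs] with x hx
          have k1 := h1 x (hx)
          have k2 := h2 x (hx)
          have i1 := (L1.shift x).ii T1 T2
          have i2 := (L2.shift x).ii T1 T2
          have e3 : ∫ t, (u1 (t + x) + u2 (t + x)) ∂μt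
              = (∫ t in T1..T2, u1 (t + x)) + ∫ t in T1..T2, u2 (t + x) := by
            rw [← intervalIntegral.integral_add i1 i2, intervalIntegral.integral_of_le hT]
          rw [e3]
          exact add_le_add k1 k2
      _ ≤ a + b := by
          rw [integral_const, smul_eq_mul]
          exact mul_le_of_le_one_left (add_nonneg ha hb) hreal
  -- conclusion
  rw [intervalIntegral.integral_of_le hT]
  have hin : ∀ t, |∫ x, f x * (m (t + x) * (W (t + x) - 1)) ∂μ| ≤
      |A t| + ∫ x, (u1 (t + x) + u2 (t + x)) ∂μ := by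
    intro t
    have i3 := hsec u3 L3 t
    have i4 := hsec u4 L4 t
    have i12 := hsec' _ (L1.add L2) t
    have e : ∫ x, f x * (m (t + x) * (W (t + x) - 1)) ∂μ
        = A t + ∫ x, (f x * u4 (t + x) - f x * u3 (t + x)) ∂μ := by
      rw [integral_sub i4 i3, hA]
      simp only [hu4]
      ring
    rw [e]
    refine (abs_add_le _ _).trans ?_
    gcongr
    refine (abs_integral_le_integral_abs).trans ?_
    refine integral_mono_ae (i4.sub i3).abs i12 ?_
    filter_upwards with x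
    set s := t + x
    show |f x * u4 s - f x * u3 s| ≤ u1 s + u2 s
    have d1 : f x * u4 s - f x * u3 s = f x * (u1 s + (m s - mc s) * (W s - 1)) := by
      simp only [hu1, hu3, hu4]
      ring
    rw [d1, abs_mul, abs_of_nonneg (hf0 x)]
    have n1 : 0 ≤ u1 s := by
      have := h0 s
      have := hW0 s
      have : 0 ≤ 1 - g s := by linarith [hg1 s]
      simp only [hu1]
      positivity
    have n2 : |(m s - mc s) * (W s - 1)| ≤ u2 s := by
      rw [abs_mul, abs_of_nonneg (by linarith [hle s])]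
      simp only [hu2]
      have hh : 0 ≤ m s - mc s := by linarith [hle s]
      gcongr
      rw [abs_le]
      constructor <;> linarith [hW0 s]
    calc f x * |u1 s + (m s - mc s) * (W s - 1)| ≤ 1 * |u1 s + (m s - mc s) * (W s - 1)| := by
          gcongr
          exact hf1 x
      _ ≤ |u1 s| + |(m s - mc s) * (W s - 1)| := by
          rw [one_mul]
          exact abs_add_le _ _
      _ ≤ u1 s + u2 s := by
          rw [abs_of_nonneg n1]
          gcongr
  have hJ : Integrable (fun t => ∫ x, (u1 (t + x) + u2 (t + x)) ∂μ) μt :=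
    (hprod' _ (L1.add L2)).integral_prod_left
  have hI4 : Integrable (fun t => |∫ x, f x * (m (t + x) * (W (t + x) - 1)) ∂μ|) μt := by
    have := (hprod u4 L4).integral_prod_left
    exact this.abs
  calc ∫ t in Set.Ioc T1 T2, |∫ x, f x * (m (t + x) * (W (t + x) - 1)) ∂μ|
      ≤ ∫ t, (|A t| + ∫ x, (u1 (t + x) + u2 (t + x)) ∂μ) ∂μt :=
        integral_mono_ae hI4 (hAint.abs.add hJ) (Eventually.of_forall hin)
    _ = (∫ t, |A t| ∂μt) + ∫ t, ∫ x, (u1 (t + x) + u2 (t + x)) ∂μ ∂μt :=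
        integral_add hAint.abs hJ
    _ ≤ (c + d) / 2 + (a + b) := add_le_add hAle hE
    _ = a + b + (c + d) / 2 := by ring



end Run7.h772.KH
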