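import Pool.Agent.Run7.h772.KH.Dim

set_option autoImplicit false

/-!
# Potentials and masses of small intervals
-/

namespace Run7.h772.KH

open Finset Filter MeasureTheory Topology
open scoped ENNReal

variable {μ : Measure ℝ}

lemma pot_lt_top [IsFiniteMeasure μ] {s s' r0 x : ℝ} (hs' : 0 < s') (hss : s' < s) (hr0 : 0 < r0)
    (hb : ∀ r : ℝ, 0 < r → r ≤ r0 → μ (Set.Icc (x - r) (x + r)) ≤ ENNReal.ofReal (r ^ s)) : pot μ s' x < ⊤ := by
  obtain ⟨r1, hr1⟩ : ∃ r1 : ℝ, r1 = min r0 1 := ⟨_, rfl⟩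
  have r1p : 0 < r1 := by rw [hr1]; exact lt_min hr0 one_pos
  have r10 : r1 ≤ r0 := by rw [hr1]; exact min_le_left _ _
  have r11 : r1 ≤ 1 := by rw [hr1]; exact min_le_right _ _
  obtain ⟨a, ha⟩ : ∃ a : ℕ → ℝ, ∀ j, a j = r1 * (1 / 2) ^ j := ⟨fun j => r1 * (1 / 2) ^ j, fun j => rfl⟩
  have ap : ∀ j, 0 < a j := fun j => by rw [ha]; positivity
  have a1 : ∀ j, a j ≤ r1 := fun j => by
    rw [ha]
    exact mul_le_of_le_one_right r1p.le (pow_le_one₀ (by norm_num) (by norm_num))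
  have a2 : ∀ j, a (j + 1) = a j / 2 := fun j => by rw [ha, ha, pow_succ]; ring
  have hpt : ∀ v : ℝ, (ENNReal.ofReal |x - v|) ^ (-s') ≤ ENNReal.ofReal (r1 ^ (-s')) +
      ∑' j : ℕ, (Set.Icc (x - a j) (x + a j)).indicator (fun _ => ENNReal.ofReal ((a (j + 1)) ^ (-s'))) v := by
    intro v
    rcases eq_or_ne v x with hv | hv
    · have e1 : ∑' j : ℕ, (Set.Icc (x - a j) (x + a j)).indicator (fun _ => ENNReal.ofReal ((a (j + 1)) ^ (-s'))) v = ⊤ := by
        rw [eq_top_iff]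
        calc (⊤:ℝ≥0∞) = ∑' _ : ℕ, (1:ℝ≥0∞) := (ENNReal.tsum_const_eq_top_of_ne_zero one_ne_zero).symm
          _ ≤ _ := by
            refine ENNReal.tsum_le_tsum fun j => ?_
            rw [hv, Set.indicator_of_mem (by constructor <;> linarith [ap j]), ← ENNReal.ofReal_one]
            refine ENNReal.ofReal_le_ofReal ?_
            exact Real.one_le_rpow_of_pos_of_le_one_of_nonpos (ap _) ((a1 _).trans r11) (by linarith)
      rw [e1]
      simp
    · have hd : 0 < |x - v| := abs_pos.mpr (sub_ne_zero.mpr hv.symm)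
      rw [ENNReal.ofReal_rpow_of_pos hd]
      rcases lt_or_ge r1 |x - v| with h | h
      · refine le_trans (ENNReal.ofReal_le_ofReal ?_) le_self_add
        exact Real.rpow_le_rpow_of_nonpos r1p h.le (by linarith)
      · obtain ⟨n, hn1, hn2⟩ := exists_nat_pow_near_of_lt_one (x := |x - v| / r1) (y := (1:ℝ) / 2) (by positivity)
          ((div_le_one r1p).mpr h) (by norm_num) (by norm_num)
        rw [lt_div_iff₀ r1p] at hn1
        rw [div_le_iff₀ r1p] at hn2
        have h1 : a (n + 1) < |x - v| := by rw [ha]; linarith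
        have h2 : |x - v| ≤ a n := by rw [ha]; linarith
        refine le_trans ?_ le_add_self
        refine le_trans ?_ (ENNReal.le_tsum n)
        have h3 := abs_le.mp h2
        rw [Set.indicator_of_mem (by constructor <;> linarith [h3.1, h3.2])]
        exact ENNReal.ofReal_le_ofReal (Real.rpow_le_rpow_of_nonpos (ap _) h1.le (by linarith))
  have hm : ∀ j : ℕ, Measurable ((Set.Icc (x - a j) (x + a j)).indicator (fun _ : ℝ => ENNReal.ofReal ((a (j + 1)) ^ (-s')))) :=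
    fun j => measurable_const.indicator measurableSet_Icc
  have h1 : pot μ s' x ≤ ENNReal.ofReal (r1 ^ (-s')) * μ Set.univ +
      ∑' j : ℕ, ENNReal.ofReal ((a (j + 1)) ^ (-s')) * μ (Set.Icc (x - a j) (x + a j)) := by
    unfold pot
    refine (lintegral_mono hpt).trans ?_
    rw [lintegral_add_left measurable_const, lintegral_const, lintegral_tsum fun j => (hm j).aemeasurable]
    gcongr with j
    rw [lintegral_indicator measurableSet_Icc, setLIntegral_const]
  have h2 : ∀ j : ℕ, ENNReal.ofReal ((a (j + 1)) ^ (-s')) * μ (Set.Icc (x - a j) (x + a j)) ≤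
      ENNReal.ofReal (2 ^ s' * r1 ^ (s - s') * ((1 / 2) ^ (s - s')) ^ j) := by
    intro j
    calc ENNReal.ofReal ((a (j + 1)) ^ (-s')) * μ (Set.Icc (x - a j) (x + a j))
        ≤ ENNReal.ofReal ((a (j + 1)) ^ (-s')) * ENNReal.ofReal (a j ^ s) := by
          gcongr
          exact hb _ (ap j) ((a1 j).trans r10)
      _ = ENNReal.ofReal (2 ^ s' * r1 ^ (s - s') * ((1 / 2) ^ (s - s')) ^ j) := by
          rw [← ENNReal.ofReal_mul (Real.rpow_nonneg (ap _).le _)]
          congr 1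
          have e1 : ((1:ℝ) / 2) ^ (s - s') = ((1:ℝ) / 2) ^ (s - s') := rfl
          have e2 : (((1:ℝ) / 2) ^ (s - s')) ^ j = (((1:ℝ) / 2) ^ j) ^ (s - s') := by
            rw [← Real.rpow_natCast, ← Real.rpow_mul (by norm_num), mul_comm, Real.rpow_mul (by norm_num), Real.rpow_natCast]
          rw [e2, mul_assoc, ← Real.mul_rpow r1p.le (by positivity), ← ha, a2, Real.div_rpow (ap j).le (by norm_num),
            sub_eq_add_neg s, Real.rpow_add (ap j), Real.rpow_neg (by norm_num : (0:ℝ) ≤ 2)]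
          field_simp
  have h3 : ∑' j : ℕ, ENNReal.ofReal (2 ^ s' * r1 ^ (s - s') * ((1 / 2) ^ (s - s')) ^ j) < ⊤ := by
    have hq : ((1:ℝ) / 2) ^ (s - s') < 1 := Real.rpow_lt_one (by norm_num) (by norm_num) (by linarith)
    have hsum : Summable fun j : ℕ => 2 ^ s' * r1 ^ (s - s') * (((1:ℝ) / 2) ^ (s - s')) ^ j :=
      (summable_geometric_of_lt_one (by positivity) hq).mul_left _
    exact hsum.tsum_ofReal_lt_top
  refine lt_of_le_of_lt h1 (ENNReal.add_lt_top.mpr ⟨ENNReal.mul_lt_top ENNReal.ofReal_lt_top (measure_lt_top _ _), ?_⟩)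
  exact lt_of_le_of_lt (ENNReal.tsum_le_tsum h2) h3

lemma ball_of_pot {s s' x : ℝ} (hs' : s' < s) (hs0 : 0 < s) (hx : pot μ s x < ⊤) :
    ∃ r0 : ℝ, 0 < r0 ∧ ∀ r : ℝ, 0 < r → r ≤ r0 → μ (Set.Icc (x - r) (x + r)) ≤ ENNReal.ofReal (r ^ s') := by
  obtain ⟨K, hK⟩ : ∃ K : ℝ, K = (pot μ s x).toReal := ⟨_, rfl⟩
  have hK0 : 0 ≤ K := by rw [hK]; exact ENNReal.toReal_nonneg
  have hKp : pot μ s x = ENNReal.ofReal K := by rw [hK, ENNReal.ofReal_toReal hx.ne]
  have hlim : Tendsto (fun r : ℝ => K * r ^ (s - s')) (𝓝 0) (𝓝 0) := by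
    have : Tendsto (fun x : ℝ => x ^ (s - s')) (𝓝 0) (𝓝 (0 ^ (s - s'))) :=
      (Real.continuousAt_rpow_const _ _ (Or.inr (by linarith))).tendsto
    rw [Real.zero_rpow (by linarith)] at this
    simpa using this.const_mul K
  have hev := hlim.eventually_le_const (show (0:ℝ) < 1 by norm_num)
  rw [Metric.eventually_nhds_iff] at hev
  obtain ⟨ε, hε, hε2⟩ := hev
  refine ⟨ε / 2, by linarith, fun r hr hr2 => ?_⟩
  have h1 : K * r ^ (s - s') ≤ 1 := hε2 (by rw [Real.dist_eq, sub_zero, abs_of_pos hr]; linarith)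
  have h2 : ENNReal.ofReal (r ^ (-s)) * μ (Set.Icc (x - r) (x + r)) ≤ ENNReal.ofReal K := by
    rw [← hKp, ← setLIntegral_const]
    unfold pot
    refine le_trans ?_ (setLIntegral_le_lintegral (Set.Icc (x - r) (x + r)) _)
    refine setLIntegral_mono' measurableSet_Icc fun v hv => ?_
    rw [← ENNReal.ofReal_rpow_of_pos hr, ENNReal.rpow_neg, ENNReal.rpow_neg, ENNReal.inv_le_inv]
    refine ENNReal.rpow_le_rpow (ENNReal.ofReal_le_ofReal ?_) hs0.le
    rw [abs_le]
    constructor <;> linarith [hv.1, hv.2]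
  have h3 : ENNReal.ofReal (r ^ s) * (ENNReal.ofReal (r ^ (-s)) * μ (Set.Icc (x - r) (x + r))) = μ (Set.Icc (x - r) (x + r)) := by
    rw [← mul_assoc, ← ENNReal.ofReal_mul (by positivity), ← Real.rpow_add hr, add_neg_cancel, Real.rpow_zero,
      ENNReal.ofReal_one, one_mul]
  rw [← h3]
  calc ENNReal.ofReal (r ^ s) * (ENNReal.ofReal (r ^ (-s)) * μ (Set.Icc (x - r) (x + r)))
      ≤ ENNReal.ofReal (r ^ s) * ENNReal.ofReal K := by gcongr
    _ = ENNReal.ofReal (r ^ s' * (K * r ^ (s - s'))) := by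
        rw [← ENNReal.ofReal_mul (by positivity)]
        congr 1
        rw [show r ^ s = r ^ s' * r ^ (s - s') by rw [← Real.rpow_add hr]; congr 1; ring]
        ring
    _ ≤ ENNReal.ofReal (r ^ s') := by
        refine ENNReal.ofReal_le_ofReal ?_
        exact mul_le_of_le_one_right (by positivity) h1

/-- the points of lower local dimension above `D` -/
def above (μ : Measure ℝ) (D : ℝ) : Set ℝ :=
  {x | ∃ s : ℝ, D < s ∧ ∃ r0 : ℝ, 0 < r0 ∧ ∀ r : ℝ, 0 < r → r ≤ r0 → μ (Set.Icc (x - r) (x + r)) ≤ ENNReal.ofReal (r ^ s)}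

lemma above_iff [IsFiniteMeasure μ] {D : ℝ} (hD : 0 < D) (x : ℝ) : x ∈ above μ D ↔ ∃ s : ℝ, D < s ∧ pot μ s x < ⊤ := by
  constructor
  · rintro ⟨s, hs, r0, hr0, hb⟩
    exact ⟨(D + s) / 2, by linarith, pot_lt_top (by linarith) (by linarith) hr0 hb⟩
  · rintro ⟨s, hs, hx⟩
    exact ⟨(D + s) / 2, by linarith, ball_of_pot (by linarith) (by linarith) hx⟩

lemma above_iff' [IsFiniteMeasure μ] {D : ℝ} (hD : 0 < D) {x : ℝ} : x ∈ above μ D ↔
    ∃ n : ℕ, pot μ (D + 1 / ((n:ℝ) + 1)) x < ⊤ := by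
  constructor
  · rintro ⟨s, hs, r0, hr0, hb⟩
    obtain ⟨n, hn⟩ := exists_nat_one_div_lt (show 0 < s - D by linarith)
    refine ⟨n, pot_lt_top (by positivity) (by linarith) hr0 hb⟩
  · rintro ⟨n, hx⟩
    rw [above_iff hD]
    exact ⟨_, lt_add_of_pos_right _ (by positivity), hx⟩

lemma above_meas [IsFiniteMeasure μ] {D : ℝ} (hD : 0 < D) : MeasurableSet (above μ D) := by
  have : above μ D = ⋃ n : ℕ, {x | pot μ (D + 1 / ((n:ℝ) + 1)) x < ⊤} := by
    ext x
    rw [above_iff' hD]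
    simp
  rw [this]
  exact MeasurableSet.iUnion fun n => measurableSet_lt (pot_meas _) measurable_const

theorem CM_above [IsFiniteMeasure μ] (hμs : ∀ᵐ x ∂μ, x ∈ Set.Icc (0:ℝ) 1) {α : ℝ} (h0 : 0 < α) (h1 : α < 1) :
    CM α (μ.restrict (above μ (α ^ 2))) := by
  have hD : 0 < α ^ 2 := by positivity
  refine CM_of_pot (ae_restrict_of_ae hμs) h0 h1 ?_
  filter_upwards [ae_restrict_mem (above_meas hD)] with x hx
  rw [above_iff hD] at hx
  obtain ⟨s, hs, hx⟩ := hx
  refine ⟨s, hs, lt_of_le_of_lt ?_ hx⟩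
  exact lintegral_mono' Measure.restrict_le_self le_rfl

end Run7.h772.KH
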