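import Pool.Agent.Run7.h772.KH.Win
import Pool.Agent.N748.GC.Fin

set_option autoImplicit false

/-!
# Closeness to the random Euler product, integrated over a measure with bounded potential
-/

namespace Run7.h772.KH

open Finset Filter MeasureTheory MonoidAlgebra Topology Complex
open Pool.Agent.N748.GC
open Pool.Agent.Y755 Pool.Agent.W184.NZ
open Pool.Agent.Y753.NL
open Pool.Agent.W184 (zn zn_nonneg zn_cont zn_le')
open Pool.Agent.H306R2 (aF aF_pos)

/-- closeness to the random Euler product for measures with bounded potential -/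
theorem coreM (hONE : S_ONE) (hA : S_BADA) (hB : S_BADB) (hT : S_TWO) (hCUT : S_CUT) (hMOM : S_MOM) {α : ℝ} (h0 : 0 < α)
    (h1 : α < 1) {s0 C0 : ℝ} (hs0' : α ^ 2 < s0) (hC0 : 0 ≤ C0) {μ : Measure ℝ} (hμ : FP s0 C0 μ) : CM α μ := by
  intro ε hε
  have hfin := hμ.fin
  have hμs := hμ.supp
  have hσ0 : 0 < s0 := lt_of_le_of_lt (sq_nonneg α) hs0'
  have hna := hμ.na hσ0
  have hα2 : α ^ 2 < 1 := by nlinarith
  obtain ⟨s, hs⟩ : ∃ s : ℝ, s = min (ε / 500) (1 / 20) := ⟨_, rfl⟩
  have hs0 : 0 < s := by rw [hs]; exact lt_min (by positivity) (by norm_num)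
  have hs1 : s ≤ 1 / 20 := by rw [hs]; exact min_le_right _ _
  have hsε : 500 * s ≤ ε := by
    have : s ≤ ε / 500 := by rw [hs]; exact min_le_left _ _
    linarith
  obtain ⟨e, he⟩ : ∃ e : ℝ, e = s ^ 2 := ⟨_, rfl⟩
  have he0 : 0 < e := by rw [he]; positivity
  have he1 : e ≤ s := by rw [he]; nlinarith
  have he5 : 5 * e ≤ 1 := by linarith
  have hsq : Real.sqrt (5 * e) ≤ 3 * s := by
    rw [Real.sqrt_le_left (by positivity), he]; nlinarith [sq_nonneg s]
  obtain ⟨sm, hsm⟩ : ∃ sm : ℝ, sm = min s0 1 := ⟨_, rfl⟩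
  have hsm0 : α ^ 2 < sm := by rw [hsm]; exact lt_min hs0' hα2
  have hsm1 : sm ≤ 1 := by rw [hsm]; exact min_le_right _ _
  have hsm2 : sm ≤ s0 := by rw [hsm]; exact min_le_left _ _
  obtain ⟨b, hb⟩ : ∃ b : ℝ, b = (α ^ 2 + sm) / 2 := ⟨_, rfl⟩
  obtain ⟨ε1, hε1⟩ : ∃ ε1 : ℝ, ε1 = (sm - α ^ 2) / 2 := ⟨_, rfl⟩
  have hb1 : α ^ 2 < b := by rw [hb]; linarith
  have hb2 : b < s0 := by rw [hb]; linarith
  have hε10 : 0 < ε1 := by rw [hε1]; linarith
  have hε11 : α ^ 2 + ε1 < 1 := by rw [hε1]; linarith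
  have hε12 : α ^ 2 + ε1 ≤ s0 := by rw [hε1]; linarith
  have hκ : α ^ 2 < s0 * (1 - ε1) := by
    have e1 : ε1 ≤ 1 := by
      have := sq_nonneg α
      rw [hε1]
      linarith
    have e2 : sm * (1 - ε1) ≤ s0 * (1 - ε1) := mul_le_mul_of_nonneg_right hsm2 (by linarith)
    have e3 : α ^ 2 < sm * (1 - ε1) := by
      have e4 : sm * ε1 ≤ ε1 := mul_le_of_le_one_left hε10.le hsm1
      have e5 : α ^ 2 < sm - ε1 := by rw [hε1]; linarith
      nlinarith
    linarith
  obtain ⟨c, hc, hcf⟩ := cf_all h0 (by linarith)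
  obtain ⟨A, C, hC, zT, RT, hTS⟩ := ts_ex hONE hA hB hT h0 h1 hε10 hε11 hε10 (by nlinarith) hc he0
  obtain ⟨zc, hcf⟩ := hcf s hs0 (by linarith) (1 / 50) (by norm_num) (RT + 1)
  obtain ⟨zE, hED⟩ := edm hMOM h0 h1 hs0' hC0 hb2 hκ (ζ := α ^ 2 + ε1) (by positivity) hε12 (C := C + 4) (by linarith) hs0
  obtain ⟨zC, hCUT⟩ := hCUT α h0 h1 b hb1 s hs0
  refine ⟨zT + zc + zE + zC, fun z hz => ?_⟩
  obtain ⟨hz1000, A0, m, lam1, δ1, η, Rs, Jf, hA0, hBd, hm1, hlam1, hδ1, hδ16, hη, hRs, hev⟩ := hcf z (by omega)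
  have hED' := hED z (by omega) μ hμ (5 * e) (by positivity) he5
  have hCUT' := hCUT z (by omega)
  -- the size condition
  have hlogT : Tendsto (fun T : ℝ => lam1 / Real.log T) atTop (𝓝 0) :=
    tendsto_const_nhds.div_atTop Real.tendsto_log_atTop
  have hev0 := hev.and (hlogT.eventually (gt_mem_nhds hδ1))
  have hPA : ∀ s' : ℂ, 1 / 2 ≤ s'.re → 1 - s ≤ ‖es s' (Pz z)‖ ^ (2 * α) * ‖es s' A0‖ ^ 2 ∧
      ‖es s' (Pz z)‖ ^ (2 * α) * ‖es s' A0‖ ^ 2 ≤ 1 + s := by
    obtain ⟨T, hT1, hT2⟩ := hev0.exists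
    obtain ⟨V, Q1, Q2, N, K, H, -, -⟩ := hT1 δ1 (le_of_lt hT2) le_rfl
    exact H.iPA
  have hSB : SB c z Rs (fun X => yT η (2 * (X + 1))) (fun X => Jf (2 * (X + 1))) := by
    refine SB_of (yf := yT η) hz1000 (by omega) ?_
    filter_upwards [hev0] with T hT
    obtain ⟨hT1, hT2⟩ := hT
    obtain ⟨V, Q1, Q2, N, K, H, hexp, -⟩ := hT1 δ1 (le_of_lt hT2) le_rfl
    exact ⟨⟨N, K, H.iS⟩, hexp⟩
  obtain ⟨δ2, hδ2, hTS⟩ := hTS z (by omega) Rs (by omega) _ _ hSB
  obtain ⟨δ3, hδ3, hnear⟩ := A0_near h0 hBd hs0 hs1 hPA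
  obtain ⟨δ4, hδ4, hDD⟩ := DD_unif h0 hs0
  obtain ⟨lam5, δ5, hlam5, hδ5, hδ516, hlow⟩ := low_ex h0 h1 z
  obtain ⟨δ0, hδ0⟩ : ∃ δ0 : ℝ, δ0 = min (min δ1 δ2) (min (min δ3 δ4) δ5) := ⟨_, rfl⟩
  have d1 : δ0 ≤ δ1 := by rw [hδ0]; exact (min_le_left _ _).trans (min_le_left _ _)
  have d2 : δ0 ≤ δ2 := by rw [hδ0]; exact (min_le_left _ _).trans (min_le_right _ _)
  have d3 : δ0 ≤ δ3 := by rw [hδ0]; exact (min_le_right _ _).trans ((min_le_left _ _).trans (min_le_left _ _))
  have d4 : δ0 ≤ δ4 := by rw [hδ0]; exact (min_le_right _ _).trans ((min_le_left _ _).trans (min_le_right _ _))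
  have d5 : δ0 ≤ δ5 := by rw [hδ0]; exact (min_le_right _ _).trans (min_le_right _ _)
  have d0 : 0 < δ0 := by rw [hδ0]; exact lt_min (lt_min hδ1 hδ2) (lt_min (lt_min hδ3 hδ4) hδ5)
  obtain ⟨lam, hlam⟩ : ∃ lam : ℝ, lam = max lam1 lam5 := ⟨_, rfl⟩
  have l1 : lam1 ≤ lam := by rw [hlam]; exact le_max_left _ _
  have l5 : lam5 ≤ lam := by rw [hlam]; exact le_max_right _ _
  have l0 : 1 ≤ lam := hlam1.trans l1
  have hTS' := hTS lam δ0 l0 d2
  refine ⟨lam, δ0, l0, d0, d1.trans hδ16, ?_⟩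
  have ht : Tendsto (fun X : ℝ => 2 * (X + 1)) atTop atTop :=
    (tendsto_atTop_add_const_right _ _ tendsto_id).const_mul_atTop (by norm_num)
  filter_upwards [ht.eventually hev, mid_le hμ.mass hμs (le_trans he1 (by linarith)) hTS', hlow s hs0, eventually_ge_atTop 256,
    asm hμ hσ0 hC0 (α := α) (b := b) (by omega) hC (by positivity) hε12 he0.le (by linarith) hTS' hs0]
    with X g1 g2 g3 hX g5 δ hd1 hd2 f hf hf1
  have hX0 : 0 < X := by linarith
  have hL0 : 0 < Real.log X := Real.log_pos (by linarith)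
  have hδp : 0 < δ := lt_of_lt_of_le (div_pos (by linarith) hL0) hd1
  have hXl := ASM.Xl_le hX
  have hXl0 : 0 ≤ Xl X := by unfold Xl; positivity
  have hL2 : Real.log X ≤ Real.log (2 * (X + 1)) := Real.log_le_log hX0 (by linarith)
  have hd3 : lam1 / Real.log (2 * (X + 1)) ≤ δ := by
    refine le_trans (div_le_div_of_nonneg_left (by linarith) hL0 hL2) (le_trans ?_ hd1)
    exact div_le_div_of_nonneg_right l1 hL0.le
  have hd5 : lam5 / Real.log X ≤ δ := le_trans (div_le_div_of_nonneg_right l5 hL0.le) hd1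
  obtain ⟨V, Q1, Q2, N, K, H, -, hB3⟩ := g1 δ hd3 (hd2.trans d1)
  have hXX : 2 * (X + 1) / 2 = X + 1 := by ring
  have hcl := close1 h0 hδp hs0 hs1 (by positivity) H hB3 (hDD δ hδp (hd2.trans d4))
  rw [hXX] at hcl
  have hXlX : (2 * (X + 1)) ^ ((4:ℝ)/5) = Xl X := rfl
  rw [hXlX] at hcl
  set W : ℝ → ℝ := fun u => WB α z Rs (fun X => yT η (2 * (X + 1))) (fun X => Jf (2 * (X + 1))) X δ u with hW
  have hWc : Continuous W := WB_cont _ _ _ _ _ _ _
  set AA : ℝ → ℝ := fun u => ‖es (1 / 2 + δ + u * I) A0‖ ^ 2 / ip δ A0 A0 with hAA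
  have hAAc : Continuous AA := by
    have h1 : ∀ n ∈ (cx A0).coeff.support, n ≠ 0 := by
      intro n hn
      rw [cx_supp] at hn
      exact (hBd n hn).1
    have h2 := ((ec_cont h1 (1 / 2 + δ)).norm.pow 2).div_const (ip δ A0 A0)
    refine h2.congr fun t => ?_
    show ‖ec (1 / 2 + δ + t * I) (cx A0)‖ ^ 2 / _ = _
    rw [ec_cx]
  have hZc := Zn_cont' (δ := δ) h0 (by have := H.id1; linarith)
  have hmc := QC.mz_cont α z
  have hAn := hnear δ hδp.le (hd2.trans d3) H.iB1
  -- the low part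
  have hg0 : Continuous fun u => Zn α δ u - mz α z u := hZc.sub hmc
  have hg1 : Continuous fun u => Zn α δ u - AA u * W u := hZc.sub (hAAc.mul hWc)
  have hg2 : Continuous fun u => (AA u - mz α z u) * W u := (hAAc.sub hmc).mul hWc
  have hg3 : Continuous fun u => mz α z u * (W u - 1) := hmc.mul (hWc.sub continuous_const)
  have r0 : ∫ t in (0:ℝ)..(Xl X), |WI μ f (fun u => Zn α δ u - mz α z u) t| ≤ s * X := by
    refine (win_le hμ.mass hμs hf hf1 (g := fun u => Zn α δ u - mz α z u) (h := fun u => Zn α δ u + mz α z u) hg0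
      (hZc.add hmc) (fun u => ?_) hXl0).trans (g3 δ hd5 (hd2.trans d5))
    refine (abs_sub _ _).trans ?_
    rw [abs_of_nonneg (Zn_nonneg h0 hδp.le u), abs_of_pos (show 0 < mz α z u from QC.M0_pos α (QC.Sm_prime z) _)]
  -- the first part
  have r1 : ∫ t in Xl X..X, |WI μ f (fun u => Zn α δ u - AA u * W u) t| ≤ 200 * s * (X + 1) :=
    (win_le hμ.mass hμs hf hf1 (g := fun u => Zn α δ u - AA u * W u) (h := fun u => |Zn α δ u - AA u * W u|)
      hg1 hg1.abs (fun u => le_rfl) hXl).trans hcl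
  -- the second part
  have r2 : ∫ t in Xl X..X, |WI μ f (fun u => (AA u - mz α z u) * W u) t| ≤ 10 * s * (3 * X) :=
    g2 δ hd1 hd2 f hf hf1 AA hAAc (10 * s) (by positivity) hAn
  -- the third part
  have r3 : ∀ f' : ℝ → ℝ, Measurable f' → (∀ x, 0 ≤ f' x) → (∀ x, f' x ≤ 1) →
      ∫ t in Xl X..X, |WI μ f' (fun u => mz α z u * (W u - 1)) t| ≤ 9 * s * X := by
    intro f' hf' hf0' hf1'
    refine (g5 δ hd1 hd2 f' hf' hf0' hf1').trans ?_
    have : e + 3 * (∫ x, (M0 α (Sm z) x - Mc α b z x) ∂(HP (Sm z))) +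
      (∫ x, Real.sqrt (QM μ α b z (Kz (C + 4) (α ^ 2 + ε1) ε1 (5 * e) z) x) ∂(HP (Sm z))) + s ≤ 9 * s := by
      linarith
    nlinarith
  have r3' : ∫ t in Xl X..X, |WI μ f (fun u => mz α z u * (W u - 1)) t| ≤ 18 * s * X := by
    have hp := r3 (fun x => max (f x) 0) (hf.max measurable_const) (fun x => le_max_right _ _)
      (fun x => max_le ((le_abs_self _).trans (hf1 x)) zero_le_one)
    have hn := r3 (fun x => max (-f x) 0) (hf.neg.max measurable_const) (fun x => le_max_right _ _)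
      (fun x => max_le ((neg_le_abs _).trans (hf1 x)) zero_le_one)
    have m1 : Measurable fun x => max (f x) 0 := hf.max measurable_const
    have m2 : Measurable fun x => max (-f x) 0 := hf.neg.max measurable_const
    have b1 : ∀ x, |max (f x) 0| ≤ 1 := fun x => by
      rw [abs_of_nonneg (le_max_right _ _)]; exact max_le ((le_abs_self _).trans (hf1 x)) zero_le_one
    have b2 : ∀ x, |max (-f x) 0| ≤ 1 := fun x => by
      rw [abs_of_nonneg (le_max_right _ _)]; exact max_le ((neg_le_abs _).trans (hf1 x)) zero_le_one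
    have c1 := WI_cont hμs m1 b1 hg3
    have c2 := WI_cont hμs m2 b2 hg3
    have c3 := WI_cont hμs hf hf1 hg3
    have hle : ∀ t : ℝ, |WI μ f (fun u => mz α z u * (W u - 1)) t| ≤
        |WI μ (fun x => max (f x) 0) (fun u => mz α z u * (W u - 1)) t| +
        |WI μ (fun x => max (-f x) 0) (fun u => mz α z u * (W u - 1)) t| := by
      intro t
      have e1 : WI μ f (fun u => mz α z u * (W u - 1)) t =
          WI μ (fun x => max (f x) 0) (fun u => mz α z u * (W u - 1)) t -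
          WI μ (fun x => max (-f x) 0) (fun u => mz α z u * (W u - 1)) t := by
        unfold WI
        rw [← integral_sub (wint hμs m1 b1 hg3 t) (wint hμs m2 b2 hg3 t)]
        refine integral_congr_ae (Eventually.of_forall fun x => ?_)
        show f x * (mz α z (t + x) * (W (t + x) - 1)) = max (f x) 0 * (mz α z (t + x) * (W (t + x) - 1)) -
          max (-f x) 0 * (mz α z (t + x) * (W (t + x) - 1))
        have : f x = max (f x) 0 - max (-f x) 0 := by
          rcases le_total (f x) 0 with h | h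
          · rw [max_eq_right h, max_eq_left (by linarith)]; ring
          · rw [max_eq_left h, max_eq_right (by linarith)]; ring
        rw [← sub_mul, ← this]
      rw [e1]
      exact abs_sub _ _
    calc ∫ t in Xl X..X, |WI μ f (fun u => mz α z u * (W u - 1)) t| ≤
          ∫ t in Xl X..X, (|WI μ (fun x => max (f x) 0) (fun u => mz α z u * (W u - 1)) t| +
            |WI μ (fun x => max (-f x) 0) (fun u => mz α z u * (W u - 1)) t|) :=
          intervalIntegral.integral_mono_on hXl (c3.abs.intervalIntegrable _ _)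
            ((c1.abs.add c2.abs).intervalIntegrable _ _) fun t _ => hle t
      _ = _ := intervalIntegral.integral_add (c1.abs.intervalIntegrable _ _) (c2.abs.intervalIntegrable _ _)
      _ ≤ 18 * s * X := by linarith
  -- together
  have k0 : Continuous fun t : ℝ => |WI μ f (fun u => Zn α δ u - mz α z u) t| := (WI_cont hμs hf hf1 hg0).abs
  have k1 : Continuous fun t : ℝ => |WI μ f (fun u => Zn α δ u - AA u * W u) t| := (WI_cont hμs hf hf1 hg1).abs
  have k2 : Continuous fun t : ℝ => |WI μ f (fun u => (AA u - mz α z u) * W u) t| := (WI_cont hμs hf hf1 hg2).abs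
  have k3 : Continuous fun t : ℝ => |WI μ f (fun u => mz α z u * (W u - 1)) t| := (WI_cont hμs hf hf1 hg3).abs
  have k12 : Continuous fun t : ℝ => |WI μ f (fun u => Zn α δ u - AA u * W u) t| +
      |WI μ f (fun u => (AA u - mz α z u) * W u) t| := k1.add k2
  have hle : ∀ t : ℝ, |WI μ f (fun u => Zn α δ u - mz α z u) t| ≤
      |WI μ f (fun u => Zn α δ u - AA u * W u) t| + |WI μ f (fun u => (AA u - mz α z u) * W u) t| +
      |WI μ f (fun u => mz α z u * (W u - 1)) t| := by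
    intro t
    have i1 := wint hμs hf hf1 hg1 t
    have i2 := wint hμs hf hf1 hg2 t
    have i3 := wint hμs hf hf1 hg3 t
    have i12 : Integrable (fun x => f x * (Zn α δ (t + x) - AA (t + x) * W (t + x)) +
        f x * ((AA (t + x) - mz α z (t + x)) * W (t + x))) μ := i1.add i2
    have e1 : WI μ f (fun u => Zn α δ u - mz α z u) t =
        WI μ f (fun u => Zn α δ u - AA u * W u) t + WI μ f (fun u => (AA u - mz α z u) * W u) t +
        WI μ f (fun u => mz α z u * (W u - 1)) t := by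
      unfold WI
      rw [← integral_add i1 i2, ← integral_add i12 i3]
      refine integral_congr_ae (Eventually.of_forall fun x => ?_)
      show f x * (Zn α δ (t + x) - mz α z (t + x)) = f x * (Zn α δ (t + x) - AA (t + x) * W (t + x)) +
        f x * ((AA (t + x) - mz α z (t + x)) * W (t + x)) + f x * (mz α z (t + x) * (W (t + x) - 1))
      ring
    rw [e1]
    exact (abs_add_le _ _).trans (add_le_add (abs_add_le _ _) le_rfl)
  have hmain : ∫ t in Xl X..X, |WI μ f (fun u => Zn α δ u - mz α z u) t| ≤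
      200 * s * (X + 1) + 10 * s * (3 * X) + 18 * s * X := by
    calc ∫ t in Xl X..X, |WI μ f (fun u => Zn α δ u - mz α z u) t| ≤
          ∫ t in Xl X..X, (|WI μ f (fun u => Zn α δ u - AA u * W u) t| +
            |WI μ f (fun u => (AA u - mz α z u) * W u) t| + |WI μ f (fun u => mz α z u * (W u - 1)) t|) :=
          intervalIntegral.integral_mono_on hXl (k0.intervalIntegrable _ _)
            ((k12.add k3).intervalIntegrable _ _) fun t _ => hle t
      _ = (∫ t in Xl X..X, |WI μ f (fun u => Zn α δ u - AA u * W u) t|) +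
            (∫ t in Xl X..X, |WI μ f (fun u => (AA u - mz α z u) * W u) t|) +
            ∫ t in Xl X..X, |WI μ f (fun u => mz α z u * (W u - 1)) t| := by
          rw [intervalIntegral.integral_add (k12.intervalIntegrable _ _) (k3.intervalIntegrable _ _),
            intervalIntegral.integral_add (k1.intervalIntegrable _ _) (k2.intervalIntegrable _ _)]
      _ ≤ _ := add_le_add (add_le_add r1 r2) r3'
  show ∫ t in (0:ℝ)..X, |WI μ f (fun u => Zn α δ u - mz α z u) t| ≤ ε * X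
  rw [← intervalIntegral.integral_add_adjacent_intervals (k0.intervalIntegrable 0 (Xl X))
    (k0.intervalIntegrable (Xl X) X)]
  have hfin' : s * X + (200 * s * (X + 1) + 10 * s * (3 * X) + 18 * s * X) ≤ ε * X := by
    have : 500 * s * X ≤ ε * X := mul_le_mul_of_nonneg_right hsε hX0.le
    nlinarith
  linarith

/-- closeness to the random Euler product for measures with bounded potential -/
theorem coreMF {α : ℝ} (h0 : 0 < α) (h1 : α < 1) {s0 C0 : ℝ} (hs0 : α ^ 2 < s0) (hC0 : 0 ≤ C0) {μ : Measure ℝ}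
    (hμ : FP s0 C0 μ) : CM α μ :=
  coreM (ONE.main NNB.main NNL.main LEN.main) (BADA.main NNQ.main LEN.main) (BADB.main NNB.main LEN.main COS.mer)
    (TWO.main NNB.main LEN.main COS.cos COS.mer (TAIL.main COS.mer)) (ED.cut (MOM.main COS.mer)) (MOM.main COS.mer)
    h0 h1 hs0 hC0 hμ

end Run7.h772.KH
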