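import Pool.Agent.N748.GC.Stm
import Pool.Agent.N748.GC.QC

set_option autoImplicit false

/-!
# Local moments of zeta over arbitrary measures near the critical line: definitions

`μ` is a finite measure on the unit interval with bounded potential of order `s > α²`; all lemmas of `Pool.Agent.N748.GC`
are for the Lebesgue measure. Everything below uses `Pool.Agent.N748.GC` (`pt`, `M0`, `Mc`, `mz`, `Zn`, `Kz`, ...).
-/

namespace Run7.h772.KH

open Filter MeasureTheory Topology Pool.Agent.N748.GC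

/-- a measure of mass at most one on the unit interval whose potential of order `s` is at most `C0` -/
structure FP (s C0 : ℝ) (μ : Measure ℝ) : Prop where
  mass : μ Set.univ ≤ 1
  supp : ∀ᵐ x ∂μ, x ∈ Set.Icc (0:ℝ) 1
  pot : ∀ᵐ u ∂μ, ∫⁻ v, (ENNReal.ofReal |u - v|) ^ (-s) ∂μ ≤ ENNReal.ofReal C0

/-- the quadratic functional -/
noncomputable def QM (μ : Measure ℝ) (α b : ℝ) (z : ℕ) (K : ℝ → ℝ) (x : UnitAddTorus (Sm z)) : ℝ :=
  ∫ p : ℝ × ℝ, Mc α b z (x + pt (Sm z) p.1) * Mc α b z (x + pt (Sm z) p.2) * K (p.1 - p.2) ∂(μ.prod μ)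

/-- closeness of the local moments over `μ` to the integrals of the random Euler product -/
def CM (α : ℝ) (μ : Measure ℝ) : Prop := ∀ ε : ℝ, 0 < ε → ∃ z0 : ℕ, ∀ z ≥ z0, ∃ lam δ0 : ℝ, 1 ≤ lam ∧ 0 < δ0 ∧
  δ0 ≤ 1 / 16 ∧ ∀ᶠ X : ℝ in atTop, ∀ δ : ℝ, lam / Real.log X ≤ δ → δ ≤ δ0 → ∀ f : ℝ → ℝ, Measurable f →
  (∀ x, |f x| ≤ 1) →
  ∫ t in (0:ℝ)..X, |∫ x, f x * (Zn α δ (t + x) - mz α z (t + x)) ∂μ| ≤ ε * X

end Run7.h772.KH
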