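import Pool.Agent.Run7.h772.KH.Sup

set_option autoImplicit false

/-!
# Fractional moments of the mass on few grid intervals
-/

namespace Run7.h772.KH

open Finset Filter MeasureTheory Topology Complex Metric
open scoped ENNReal
open Pool.Agent.N748.GC
open Pool.Agent.Y755 Pool.Agent.W184.NZ
open Pool.Agent.W184 (zn zn_nonneg zn_cont zn_le')
open Pool.Agent.H306R2 (aF aF_pos)

variable {μ : Measure ℝ} {α p : ℝ}

/-- the grid intervals of length `δ` -/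
def Ij (δ : ℝ) (j : ℤ) : Set ℝ := Set.Ico ((j:ℝ) * δ) (((j:ℝ) + 1) * δ)

lemma Ij_meas (δ : ℝ) (j : ℤ) : MeasurableSet (Ij δ j) := measurableSet_Ico

lemma mem_Ij {δ x : ℝ} (hδ : 0 < δ) (j : ℤ) : x ∈ Ij δ j ↔ ⌊x / δ⌋ = j := by
  rw [Int.floor_eq_iff, Ij, Set.mem_Ico, le_div_iff₀ hδ, div_lt_iff₀ hδ]

lemma Ij_disj {δ : ℝ} (hδ : 0 < δ) : Pairwise (Function.onFun Disjoint (Ij δ)) := by
  intro i j hij
  rw [Function.onFun, Set.disjoint_left]
  intro x hx hx'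
  rw [mem_Ij hδ] at hx hx'
  exact hij (hx ▸ hx')

lemma sum_rpow_sub {ι : Type*} (s : Finset ι) (f : ι → ℝ≥0∞) (h0 : 0 < p) (h1 : p ≤ 1) :
    (∑ i ∈ s, f i) ^ p ≤ ∑ i ∈ s, f i ^ p := by
  classical
  induction s using Finset.induction_on with
  | empty => simp [h0]
  | insert a s ha ih =>
    rw [Finset.sum_insert ha, Finset.sum_insert ha]
    exact (ENNReal.rpow_add_le_add_rpow _ _ h0.le h1).trans (by gcongr)

lemma sum_rpow_card {ι : Type*} (s : Finset ι) (f : ι → ℝ≥0∞) (h0 : 0 < p) (h1 : p ≤ 1) :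
    ∑ i ∈ s, f i ^ p ≤ (#s : ℝ≥0∞) ^ (1 - p) * (∑ i ∈ s, f i) ^ p := by
  have hp1 : 1 ≤ p⁻¹ := (one_le_inv₀ h0).mpr h1
  have h := ENNReal.rpow_sum_le_const_mul_sum_rpow s (fun i => f i ^ p) hp1
  have e1 : ∀ i, (f i ^ p) ^ p⁻¹ = f i := fun i => by
    rw [← ENNReal.rpow_mul, mul_inv_cancel₀ h0.ne', ENNReal.rpow_one]
  simp only [e1] at h
  have h2 := ENNReal.rpow_le_rpow h h0.le
  rw [← ENNReal.rpow_mul, inv_mul_cancel₀ h0.ne', ENNReal.rpow_one, ENNReal.mul_rpow_of_nonneg _ _ h0.le,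
    ← ENNReal.rpow_mul, show (p⁻¹ - 1) * p = 1 - p by field_simp] at h2
  exact h2

/-- the constant of the pointwise bound -/
noncomputable def cc (α p δ : ℝ) : ℝ := ((2 * δ) ^ (α ^ 2) / aF α) ^ p / (Real.pi * (δ / 2) ^ 2)

lemma good_pt (hα : 0 < α) (hp : 0 < p) (hp1 : p ≤ 1) {δ : ℝ} (hδ : 0 < δ) (hδ' : δ ≤ 1 / 16) (t : ℝ) (G : Finset ℤ) :
    (∫⁻ x in ⋃ j ∈ G, Ij δ j, ENNReal.ofReal (Zn α δ (t + x)) ∂μ) ^ p ≤
      ∑ j ∈ G, μ (Ij δ j) ^ p * (ENNReal.ofReal (cc α p δ) * bx (2 * (α * p)) δ (j * δ) t) := by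
  have haF := aF_pos hα
  have hpi := Real.pi_pos
  have hc0 : 0 ≤ cc α p δ := by unfold cc; positivity
  rw [lintegral_biUnion_finset (fun i _ j _ hij => Ij_disj hδ hij) (fun j _ => Ij_meas δ j)]
  refine (sum_rpow_sub _ _ hp hp1).trans (Finset.sum_le_sum fun j _ => ?_)
  set B : ℝ≥0∞ := ENNReal.ofReal (cc α p δ) * bx (2 * (α * p)) δ (j * δ) t with hB
  have h1 : ∀ x ∈ Ij δ j, ENNReal.ofReal (Zn α δ (t + x)) ≤ B ^ p⁻¹ := by
    intro x hx
    rw [ENNReal.le_rpow_inv_iff hp, ENNReal.ofReal_rpow_of_nonneg (Zn_nonneg hα hδ.le _) hp.le]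
    have h2 := sm (q := 2 * (α * p)) (by positivity) hδ hδ' t x (j * δ) hx.1 (by have := hx.2; linarith)
    have h3 : Zn α δ (t + x) ^ p = cc α p δ * (zn (1 / 2 + δ) (t + x) ^ (2 * (α * p)) * (Real.pi * (δ / 2) ^ 2)) := by
      rw [Zn_eq, Real.mul_rpow (by positivity) (Real.rpow_nonneg (zn_nonneg _ _) _), ← Real.rpow_mul (zn_nonneg _ _)]
      unfold cc
      rw [show 2 * α * p = 2 * (α * p) by ring]
      field_simp
    rw [h3, ENNReal.ofReal_mul hc0, hB]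
    gcongr
  calc (∫⁻ x in Ij δ j, ENNReal.ofReal (Zn α δ (t + x)) ∂μ) ^ p ≤ (∫⁻ _ in Ij δ j, B ^ p⁻¹ ∂μ) ^ p := by
        refine ENNReal.rpow_le_rpow (setLIntegral_mono' (Ij_meas δ j) h1) hp.le
    _ = μ (Ij δ j) ^ p * B := by
        rw [setLIntegral_const, ENNReal.mul_rpow_of_nonneg _ _ hp.le, ← ENNReal.rpow_mul,
          inv_mul_cancel₀ hp.ne', ENNReal.rpow_one, mul_comm]

lemma bx_meas (q δ a : ℝ) : Measurable (bx q δ a) := by
  unfold bx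
  have h1 : Measurable fun r : (ℝ × ℝ) × ℝ => ENNReal.ofReal (zn (1 / 2 + r.1.2) (r.1.1 + r.2) ^ q) :=
    (znm3 q).comp (g := fun r : ℝ × ℝ × ℝ => ENNReal.ofReal (zn (1 / 2 + r.1) (r.2.1 + r.2.2) ^ q))
      (f := fun r : (ℝ × ℝ) × ℝ => (r.1.2, r.1.1, r.2)) (by fun_prop)
  have h2 : Measurable fun r : ℝ × ℝ => ∫⁻ v in Set.Icc (a - δ / 2) (a + 3 * δ / 2),
    ENNReal.ofReal (zn (1 / 2 + r.2) (r.1 + v) ^ q) := h1.lintegral_prod_right'
  exact h2.lintegral_prod_right'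

lemma good_avg [IsFiniteMeasure μ] (hα : 0 < α) (hp : 0 < p) (hp1 : p ≤ 1) (hαp : α * p ≤ 2) :
    ∃ lam δ0 K : ℝ, 1 ≤ lam ∧ 0 < δ0 ∧ δ0 ≤ 1 / 16 ∧ 0 < K ∧
    ∀ᶠ T : ℝ in atTop, ∀ δ : ℝ, lam / Real.log T ≤ δ → δ ≤ δ0 → ∀ G : Finset ℤ,
    (∀ j ∈ G, 0 ≤ j ∧ (j:ℝ) * δ ≤ 1) →
    ∫⁻ t in Set.Icc 1 T, (∫⁻ x in ⋃ j ∈ G, Ij δ j, ENNReal.ofReal (Zn α δ (t + x)) ∂μ) ^ p ≤
      (#G : ℝ≥0∞) ^ (1 - p) * ENNReal.ofReal (K * δ ^ (α ^ 2 * p * (1 - p)) * T) := by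
  have haF := aF_pos hα
  have haFp : 0 < aF (α * p) := aF_pos (by positivity)
  have hpi := Real.pi_pos
  obtain ⟨lam, δ0, h1, h2, h3, hev⟩ := bx_time (β := α * p) (by positivity) hαp
  set M : ℝ := μ.real Set.univ with hM
  have hM0 : 0 ≤ M := measureReal_nonneg
  have hμM : μ Set.univ = ENNReal.ofReal M := by
    rw [hM, Measure.real, ENNReal.ofReal_toReal (measure_ne_top _ _)]
  set K : ℝ := (M + 1) ^ p * ((2 ^ (α ^ 2) / aF α) ^ p / (Real.pi / 4) * (160 * aF (α * p))) with hK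
  refine ⟨lam, δ0, K, h1, h2, h3, by positivity, ?_⟩
  filter_upwards [hev, eventually_ge_atTop 256] with T g1 hT δ hd1 hd2 G hG
  have hL0 : 0 < Real.log T := Real.log_pos (by linarith)
  have hδp : 0 < δ := lt_of_lt_of_le (div_pos (by linarith) hL0) hd1
  have hc0 : 0 ≤ cc α p δ := by unfold cc; positivity
  have hT0 : 0 < T := by linarith
  calc ∫⁻ t in Set.Icc 1 T, (∫⁻ x in ⋃ j ∈ G, Ij δ j, ENNReal.ofReal (Zn α δ (t + x)) ∂μ) ^ p
      ≤ ∫⁻ t in Set.Icc 1 T, ∑ j ∈ G, μ (Ij δ j) ^ p * (ENNReal.ofReal (cc α p δ) * bx (2 * (α * p)) δ (j * δ) t) :=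
        lintegral_mono fun t => good_pt hα hp hp1 hδp (hd2.trans h3) t G
    _ = ∑ j ∈ G, μ (Ij δ j) ^ p * (ENNReal.ofReal (cc α p δ) * ∫⁻ t in Set.Icc 1 T, bx (2 * (α * p)) δ (j * δ) t) := by
        rw [lintegral_finsetSum]
        · refine Finset.sum_congr rfl fun j _ => ?_
          rw [lintegral_const_mul, lintegral_const_mul]
          · exact bx_meas _ _ _
          · exact (bx_meas _ _ _).const_mul _
        · intro j _
          exact ((bx_meas _ _ _).const_mul _).const_mul _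
    _ ≤ ∑ j ∈ G, μ (Ij δ j) ^ p * (ENNReal.ofReal (cc α p δ) *
          ENNReal.ofReal (160 * aF (α * p) * δ ^ (2 - (α * p) ^ 2) * T)) := by
        refine Finset.sum_le_sum fun j hj => ?_
        gcongr
        refine g1 δ hd1 hd2 (j * δ) ⟨?_, (hG j hj).2⟩
        have : (0:ℝ) ≤ j := by exact_mod_cast (hG j hj).1
        positivity
    _ = (∑ j ∈ G, μ (Ij δ j) ^ p) * (ENNReal.ofReal (cc α p δ) *
          ENNReal.ofReal (160 * aF (α * p) * δ ^ (2 - (α * p) ^ 2) * T)) := by rw [Finset.sum_mul]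
    _ ≤ ((#G : ℝ≥0∞) ^ (1 - p) * (ENNReal.ofReal (M + 1)) ^ p) * (ENNReal.ofReal (cc α p δ) *
          ENNReal.ofReal (160 * aF (α * p) * δ ^ (2 - (α * p) ^ 2) * T)) := by
        gcongr
        refine (sum_rpow_card G _ hp hp1).trans ?_
        gcongr
        rw [← measure_biUnion_finset (fun i _ j _ hij => Ij_disj hδp hij) (fun j _ => Ij_meas δ j)]
        refine (measure_mono (Set.subset_univ _)).trans ?_
        rw [hμM]
        exact ENNReal.ofReal_le_ofReal (by linarith)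
    _ = (#G : ℝ≥0∞) ^ (1 - p) * ENNReal.ofReal (K * δ ^ (α ^ 2 * p * (1 - p)) * T) := by
        rw [mul_assoc]
        congr 1
        rw [ENNReal.ofReal_rpow_of_nonneg (by positivity) hp.le, ← ENNReal.ofReal_mul hc0,
          ← ENNReal.ofReal_mul (by positivity)]
        congr 1
        unfold cc
        rw [Real.mul_rpow (by norm_num) hδp.le, hK]
        have e1 : (2 ^ (α ^ 2) * δ ^ (α ^ 2) / aF α) ^ p = (2 ^ (α ^ 2) / aF α) ^ p * δ ^ (α ^ 2 * p) := by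
          rw [show 2 ^ (α ^ 2) * δ ^ (α ^ 2) / aF α = (2 ^ (α ^ 2) / aF α) * δ ^ (α ^ 2) by ring,
            Real.mul_rpow (by positivity) (by positivity), ← Real.rpow_mul hδp.le]
        rw [e1, show α ^ 2 * p * (1 - p) = α ^ 2 * p + (-(α * p) ^ 2) by ring, Real.rpow_add hδp,
          sub_eq_add_neg 2, Real.rpow_add hδp, Real.rpow_two]
        generalize (2 ^ (α ^ 2) / aF α) ^ p = u1
        generalize δ ^ (α ^ 2 * p) = u2
        generalize δ ^ (-(α * p) ^ 2) = u3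
        generalize (M + 1) ^ p = u4
        field_simp
        ring

end Run7.h772.KH
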