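import Pool.Agent.Run7.h772.KH.Quad

set_option autoImplicit false

/-!
# The expectation of the square root of the quadratic functional over a measure with bounded potential
-/

namespace Run7.h772.KH

open Finset Filter MeasureTheory Topology Pool.Agent.N748.GC
open Pool.Agent.N748.GC.ED (k0 k0_nonneg M0_cont M0_pos Mc_cont cont_int transl pt_cont young sqrt3 mul_ct_le ct_nonneg
  ct_le_one Kz_nonneg Kz_le decay exists_s log_gt integral_M0 shift_cont)

variable {s C0 : ℝ} {μ : Measure ℝ}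

lemma tbd {P : Finset ℕ} {F : UnitAddTorus P → ℝ} (hF : Continuous F) : ∃ B : ℝ, 0 ≤ B ∧ ∀ x, |F x| ≤ B := by
  obtain ⟨B, hB⟩ := isCompact_univ.exists_bound_of_continuousOn hF.continuousOn
  exact ⟨|B|, abs_nonneg _, fun x => (hB x (Set.mem_univ _)).trans (le_abs_self B)⟩

lemma pcont [IsFiniteMeasure μ] {P : Finset ℕ} {F : UnitAddTorus P → ℝ} (hF : Continuous F) :
    Continuous fun x => ∫ u, F (x + pt P u) ∂μ := by
  obtain ⟨B, -, hB⟩ := tbd hF
  refine continuous_of_dominated (bound := fun _ => B) (fun x => ?_) (fun x => Eventually.of_forall fun u => hB _)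
    (integrable_const _) (Eventually.of_forall fun u => ?_)
  · exact (shift_cont hF x).aestronglyMeasurable
  · exact hF.comp (continuous_id.add continuous_const)

lemma pswap [IsFiniteMeasure μ] {P : Finset ℕ} {F : UnitAddTorus P → ℝ} (hF : Continuous F) :
    ∫ x, (∫ u, F (x + pt P u) ∂μ) ∂(HP P) = μ.real Set.univ * ∫ x, F x ∂(HP P) := by
  have hc : Continuous (Function.uncurry fun (x : UnitAddTorus P) (u : ℝ) => F (x + pt P u)) :=
    hF.comp (continuous_fst.add ((pt_cont P).comp continuous_snd))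
  obtain ⟨B, -, hB⟩ := tbd hF
  rw [integral_integral_swap]
  · have : ∀ u : ℝ, ∫ x, F (x + pt P u) ∂(HP P) = ∫ x, F x ∂(HP P) := fun u => transl F _
    simp only [this]
    rw [integral_const, smul_eq_mul]
  · exact Integrable.of_bound hc.aestronglyMeasurable B (Eventually.of_forall fun q => hB _)

/-- the kernel is integrable -/
theorem ker_int (h : FP s C0 μ) (hC0 : 0 ≤ C0) {C ζ κ e : ℝ} {z : ℕ} (hz : 3 ≤ z) (hζ : 0 < ζ) (hζs : ζ ≤ s) (hC : 0 ≤ C)
    (he : 0 ≤ e) : Integrable (fun p : ℝ × ℝ => Kz C ζ κ e z (p.1 - p.2)) (μ.prod μ) := by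
  have := h.fin
  have hL := log_gt hz
  have hL0 : 0 < Real.log z := by linarith
  have h1 : Integrable (fun p : ℝ × ℝ => C * k0 (Real.log z) ζ (p.1 - p.2) + (C + e)) (μ.prod μ) :=
    ((h.ker2 hC0 hL0 hζ hζs).const_mul C).add (integrable_const _)
  refine h1.mono' (((QC.Kz_meas C ζ κ e z).comp (measurable_fst.sub measurable_snd)).aestronglyMeasurable)
    (Eventually.of_forall fun p => ?_)
  rw [Real.norm_of_nonneg (Kz_nonneg hC he hL0 _)]
  refine (Kz_le hC he hL0 _).trans ?_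
  split_ifs <;> linarith

/-- continuity of the quadratic functional -/
theorem QM_cont [IsFiniteMeasure μ] (α b : ℝ) (z : ℕ) {K : ℝ → ℝ}
    (hK : Integrable (fun p : ℝ × ℝ => K (p.1 - p.2)) (μ.prod μ)) : Continuous (QM μ α b z K) := by
  obtain ⟨B, hB0, hB⟩ := tbd (Mc_cont α b z)
  refine continuous_of_dominated (bound := fun p : ℝ × ℝ => B * B * |K (p.1 - p.2)|) (fun x => ?_)
    (fun x => Eventually.of_forall fun p => ?_) (hK.abs.const_mul _) (Eventually.of_forall fun p => ?_)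
  · refine AEStronglyMeasurable.mul ?_ hK.aestronglyMeasurable
    exact (((shift_cont (Mc_cont α b z) x).comp continuous_fst).mul
      ((shift_cont (Mc_cont α b z) x).comp continuous_snd)).aestronglyMeasurable
  · rw [Real.norm_eq_abs, abs_mul, abs_mul]
    exact mul_le_mul_of_nonneg_right (mul_le_mul (hB _) (hB _) (abs_nonneg _) hB0) (abs_nonneg _)
  · exact (((Mc_cont α b z).comp (continuous_id.add continuous_const)).mul
      ((Mc_cont α b z).comp (continuous_id.add continuous_const))).mul continuous_const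

lemma Mc_nn (α b : ℝ) (z : ℕ) (x : UnitAddTorus (Sm z)) : 0 ≤ Mc α b z x := mul_nonneg (M0_pos α z _).le (ct_nonneg _ _)

theorem QM_nn {α b : ℝ} {z : ℕ} {K : ℝ → ℝ} (hK : ∀ h, 0 ≤ K h) (x : UnitAddTorus (Sm z)) : 0 ≤ QM μ α b z K x :=
  integral_nonneg fun _ => mul_nonneg (mul_nonneg (Mc_nn _ _ _ _) (Mc_nn _ _ _ _)) (hK _)

/-- the pointwise bound -/
lemma sqrt_QM_le (h : FP s C0 μ) (hs : 0 < s) (hC0 : 0 ≤ C0) {α b : ℝ} {z : ℕ} (hz : 3 ≤ z) {κ ζ C e : ℝ} (hζ : 0 < ζ)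
    (hζs : ζ ≤ s) (hC : 0 ≤ C) (he : 0 ≤ e) {q : ℝ} (hq1 : 1 < q) (hq2 : q ≤ 2) {η η' : ℝ} (hη : 0 < η) (hη' : 0 < η')
    {n : ℕ} (hn : 0 < n) (hρ : Real.log z ^ (κ - 1) ≤ 1 / n) (x : UnitAddTorus (Sm z)) :
    Real.sqrt (QM μ α b z (Kz C ζ κ e z) x) ≤
      (η + η⁻¹ * (Real.log z ^ b * C * (C0 * Real.log z ^ (-s)) * ∫ u, M0 α (Sm z) (x + pt (Sm z) u) ∂μ))
      + Real.sqrt C * (η' + η' ^ (1 - q) * ((C0 * (3 / (n:ℝ)) ^ s) ^ (q - 1) *
          (4 * ∫ u, M0 α (Sm z) (x + pt (Sm z) u) ^ q ∂μ)))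
      + Real.sqrt e * ∫ u, M0 α (Sm z) (x + pt (Sm z) u) ∂μ := by
  have hL := log_gt hz
  have hL0 : 0 < Real.log z := by linarith
  set L := Real.log z with hLdef
  set g : ℝ → ℝ := fun u => M0 α (Sm z) (x + pt (Sm z) u) with hg
  set f : ℝ → ℝ := fun u => Mc α b z (x + pt (Sm z) u) with hf
  have hgc : Continuous g := shift_cont (M0_cont α z) x
  have hg0 : ∀ u, 0 ≤ g u := fun u => (M0_pos α z _).le
  have hf0 : ∀ u, 0 ≤ f u := fun u => Mc_nn _ _ _ _
  have hfg : ∀ u, f u ≤ g u := fun u => by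
    have := mul_le_mul_of_nonneg_left (ct_le_one (Real.log z ^ b)
      (M0 α (Sm z) (x + pt (Sm z) u))) (M0_pos α z (x + pt (Sm z) u)).le
    rw [mul_one] at this
    exact this
  have hB : 0 < L ^ b := by positivity
  have hfB : ∀ u, f u ≤ L ^ b := fun u => mul_ct_le hB (M0_pos α z _).le
  have hq := quad_le h hC0 (K := Kz C ζ κ e z) (Bd := L ^ b) (ρ := L ^ (κ - 1)) hgc hf0 hfg hfB
    (Kz_nonneg hC he hL0) hL0 hζ hζs hC he (Kz_le hC he hL0) hn hρ
  have hcell := cells_le h hs hC0 hgc hg0 hn hq1.le hq2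
  set G := ∫ u, g u ∂μ with hG
  have hG0 : 0 ≤ G := integral_nonneg hg0
  set W := ∑ k ∈ range n, (∫ v in cell n k, g v ∂μ) ^ 2 with hW
  have hW0 : 0 ≤ W := Finset.sum_nonneg fun k _ => sq_nonneg _
  set c1 := L ^ b * C * (C0 * L ^ (-s)) with hc1
  have hc1' : 0 ≤ c1 := by positivity
  have h1 : Real.sqrt (QM μ α b z (Kz C ζ κ e z) x) ≤
      Real.sqrt (c1 * G) + Real.sqrt (C * W) + Real.sqrt (e * G ^ 2) :=
    (Real.sqrt_le_sqrt hq).trans (sqrt3 (mul_nonneg hc1' hG0) (mul_nonneg hC hW0) (mul_nonneg he (sq_nonneg _)))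
  refine h1.trans (add_le_add (add_le_add ?_ ?_) ?_)
  · have := young (t := c1 * G) (η := η) (s := 2) (mul_nonneg hc1' hG0) hη (by norm_num)
    rw [← Real.sqrt_eq_rpow] at this
    have e1 : η ^ ((1:ℝ) - 2) = η⁻¹ := by
      rw [← Real.rpow_neg_one]; norm_num
    rw [e1] at this
    exact this
  · rw [Real.sqrt_mul hC]
    refine mul_le_mul_of_nonneg_left ?_ (Real.sqrt_nonneg _)
    have hpow : Real.sqrt W = (W ^ (q / 2)) ^ (1 / q) := by
      rw [Real.sqrt_eq_rpow, ← Real.rpow_mul hW0]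
      congr 1
      field_simp
    rw [hpow]
    refine (young (by positivity) hη' hq1.le).trans ?_
    exact add_le_add le_rfl (mul_le_mul_of_nonneg_left hcell (by positivity))
  · rw [Real.sqrt_mul he, Real.sqrt_sq hG0]

/-- the expectation of the square root of the quadratic functional, uniformly in the measure -/
theorem edm (hM : S_MOM) {α : ℝ} (hα : 0 < α) (hα1 : α < 1) (hs : α ^ 2 < s) (hC0 : 0 ≤ C0) {b : ℝ} (hb1 : b < s)
    {κ : ℝ} (hκ1 : α ^ 2 < s * (1 - κ)) {ζ : ℝ} (hζ : 0 < ζ) (hζs : ζ ≤ s) {C : ℝ} (hC : 0 ≤ C)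
    {ε : ℝ} (hε : 0 < ε) : ∃ z0 : ℕ, ∀ z ≥ z0, ∀ μ : Measure ℝ, FP s C0 μ → ∀ e : ℝ, 0 ≤ e → e ≤ 1 →
    ∫ x, Real.sqrt (QM μ α b z (Kz C ζ κ e z) x) ∂(HP (Sm z)) ≤ ε + Real.sqrt e := by
  have hα2 : 0 < α ^ 2 := by positivity
  have hs0 : 0 < s := by linarith
  have hκlt : κ < 1 := by
    by_contra hc
    push Not at hc
    have : s * (1 - κ) ≤ 0 := mul_nonpos_of_nonneg_of_nonpos hs0.le (by linarith)
    linarith
  obtain ⟨q, hq1, hq2, hqr⟩ := exists_s (r := s * (1 - κ) / α ^ 2)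
    (by rw [lt_div_iff₀ hα2, one_mul]; exact hκ1)
  rw [lt_div_iff₀ hα2] at hqr
  obtain ⟨Cs, hCs, hmom⟩ := hM α hα hα1.le q hq1.le hq2
  set η : ℝ := ε / 4 with hη
  have hη0 : 0 < η := by positivity
  set η' : ℝ := ε / (4 * (Real.sqrt C + 1)) with hη'
  have hsC : 0 ≤ Real.sqrt C := Real.sqrt_nonneg C
  have hη'0 : 0 < η' := by positivity
  have hη'1 : Real.sqrt C * η' ≤ ε / 4 := by
    rw [hη', mul_div_assoc', div_le_div_iff₀ (by positivity) (by norm_num)]
    nlinarith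
  obtain ⟨z1, hz1⟩ := decay (η⁻¹ * (C * C0)) (a := b - s) (by linarith) (ε := ε / 4) (by positivity)
  obtain ⟨z2, hz2⟩ := decay (Real.sqrt C * (η' ^ (1 - q) * ((C0 * 6 ^ s) ^ (q - 1) * (4 * Cs))))
    (a := (q - 1) * (s * (κ - 1) + α ^ 2 * q))
    (mul_neg_of_pos_of_neg (by linarith) (by nlinarith)) (ε := ε / 4) (by positivity)
  refine ⟨max (max z1 z2) 3, fun z hz μ h e he he1 => ?_⟩
  have hfin := h.fin
  have hreal := h.real_le
  have hreal0 : 0 ≤ μ.real Set.univ := measureReal_nonneg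
  have hz3 : 3 ≤ z := (le_max_right _ _).trans hz
  have hzz1 : z1 ≤ z := ((le_max_left _ _).trans (le_max_left _ _)).trans hz
  have hzz2 : z2 ≤ z := ((le_max_right _ _).trans (le_max_left _ _)).trans hz
  have hL := log_gt hz3
  have hL0 : 0 < Real.log z := by linarith
  have hz1' := hz1 z hzz1
  have hz2' := hz2 z hzz2
  have hmomz := hmom z hz3
  set L := Real.log z with hLdef
  set ρ : ℝ := L ^ (κ - 1) with hρ
  have hρ0 : 0 < ρ := by positivity
  have hρ1 : ρ ≤ 1 := Real.rpow_le_one_of_one_le_of_nonpos hL.le (by linarith)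
  set n : ℕ := ⌊1 / ρ⌋₊ with hn
  have hn1 : 1 ≤ n := by
    rw [hn, Nat.one_le_floor_iff]
    rw [le_div_iff₀ hρ0]; linarith
  have hn' : (1:ℝ) ≤ n := by exact_mod_cast hn1
  have hn0 : (0:ℝ) < n := by linarith
  have hnρ : ρ ≤ 1 / n := by
    have h1 : (n:ℝ) ≤ 1 / ρ := Nat.floor_le (by positivity)
    rw [le_div_iff₀ hρ0] at h1
    rw [le_div_iff₀ hn0]; linarith
  have hnρ2 : 3 / (n:ℝ) ≤ 6 * ρ := by
    have h1 : 1 / ρ < n + 1 := Nat.lt_floor_add_one _
    rw [div_lt_iff₀ hρ0] at h1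
    rw [div_le_iff₀ hn0]
    nlinarith
  -- the continuous functions
  have hMc := M0_cont α z
  have hMs : Continuous fun y : UnitAddTorus (Sm z) => M0 α (Sm z) y ^ q :=
    hMc.rpow_const fun y => Or.inl (M0_pos α z y).ne'
  set G : UnitAddTorus (Sm z) → ℝ := fun x => ∫ u, M0 α (Sm z) (x + pt (Sm z) u) ∂μ with hG
  have hGc : Continuous G := pcont hMc
  set J : UnitAddTorus (Sm z) → ℝ := fun x => ∫ u, M0 α (Sm z) (x + pt (Sm z) u) ^ q ∂μ with hJ
  have hJc : Continuous J := pcont hMs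
  have hGi : ∫ x, G x ∂(HP (Sm z)) ≤ 1 := by
    rw [hG, pswap hMc, integral_M0, mul_one]
    exact hreal
  set m := ∫ x, M0 α (Sm z) x ^ q ∂(HP (Sm z)) with hm
  have hm0 : 0 ≤ m := integral_nonneg fun x => Real.rpow_nonneg (M0_pos α z x).le _
  have hJi : ∫ x, J x ∂(HP (Sm z)) ≤ m := by
    rw [hJ, pswap hMs]
    exact mul_le_of_le_one_left hm0 hreal
  have hGn : 0 ≤ ∫ x, G x ∂(HP (Sm z)) := integral_nonneg fun x => integral_nonneg fun u => (M0_pos α z _).le
  have hJn : 0 ≤ ∫ x, J x ∂(HP (Sm z)) :=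
    integral_nonneg fun x => integral_nonneg fun u => Real.rpow_nonneg (M0_pos α z _).le _
  set c1 := L ^ b * C * (C0 * L ^ (-s)) with hc1
  have hc10 : 0 ≤ c1 := by positivity
  set c2 := (C0 * (3 / (n:ℝ)) ^ s) ^ (q - 1) with hc2
  have hc20 : 0 ≤ c2 := by positivity
  have hc2' : c2 * (4 * m) ≤ (C0 * 6 ^ s) ^ (q - 1) * (4 * Cs) * L ^ ((q - 1) * (s * (κ - 1) + α ^ 2 * q)) := by
    have h1 : c2 ≤ (C0 * (6 * ρ) ^ s) ^ (q - 1) := by
      refine Real.rpow_le_rpow (by positivity) ?_ (by linarith)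
      exact mul_le_mul_of_nonneg_left (Real.rpow_le_rpow (by positivity) hnρ2 hs0.le) hC0
    have h2 : (C0 * (6 * ρ) ^ s) ^ (q - 1) = (C0 * 6 ^ s) ^ (q - 1) * L ^ ((q - 1) * (s * (κ - 1))) := by
      rw [Real.mul_rpow (by norm_num) hρ0.le, ← mul_assoc, Real.mul_rpow (by positivity) (by positivity), hρ,
        ← Real.rpow_mul hL0.le, ← Real.rpow_mul hL0.le]
      congr 2
      ring
    calc c2 * (4 * m) ≤ ((C0 * 6 ^ s) ^ (q - 1) * L ^ ((q - 1) * (s * (κ - 1)))) * (4 * (Cs * L ^ (α ^ 2 * q * (q - 1)))) := by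
          rw [← h2]
          exact mul_le_mul h1 (mul_le_mul_of_nonneg_left hmomz (by norm_num)) (by positivity) (by positivity)
      _ = (C0 * 6 ^ s) ^ (q - 1) * (4 * Cs) * (L ^ ((q - 1) * (s * (κ - 1))) * L ^ (α ^ 2 * q * (q - 1))) := by ring
      _ = _ := by
          rw [← Real.rpow_add hL0]
          congr 2; ring
  calc ∫ x, Real.sqrt (QM μ α b z (Kz C ζ κ e z) x) ∂(HP (Sm z))
      ≤ ∫ x, ((η + η⁻¹ * (c1 * G x)) + Real.sqrt C * (η' + η' ^ (1 - q) * (c2 * (4 * J x)))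
          + Real.sqrt e * G x) ∂(HP (Sm z)) := by
        refine integral_mono_of_nonneg (Filter.Eventually.of_forall fun x => Real.sqrt_nonneg _) ?_
          (Filter.Eventually.of_forall fun x => ?_)
        · refine cont_int ?_
          exact ((continuous_const.add (continuous_const.mul (continuous_const.mul hGc))).add
            (continuous_const.mul (continuous_const.add (continuous_const.mul
              (continuous_const.mul (continuous_const.mul hJc)))))).add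
            (continuous_const.mul hGc)
        · exact sqrt_QM_le h hs0 hC0 hz3 hζ hζs hC he hq1 hq2 hη0 hη'0 (by omega) hnρ x
    _ = (η + Real.sqrt C * η') + (η⁻¹ * c1) * (∫ x, G x ∂(HP (Sm z))) +
          (Real.sqrt C * η' ^ (1 - q)) * (c2 * (4 * ∫ x, J x ∂(HP (Sm z)))) + Real.sqrt e * ∫ x, G x ∂(HP (Sm z)) := by
        have e0 : ∀ x, ((η + η⁻¹ * (c1 * G x)) + Real.sqrt C * (η' + η' ^ (1 - q) * (c2 * (4 * J x)))
          + Real.sqrt e * G x) = (η + Real.sqrt C * η') + ((η⁻¹ * c1 + Real.sqrt e) * G x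
            + (Real.sqrt C * η' ^ (1 - q) * (c2 * 4)) * J x) := fun x => by ring
        simp only [e0]
        have iG := (cont_int hGc).const_mul (η⁻¹ * c1 + Real.sqrt e)
        have iS := (cont_int hJc).const_mul (Real.sqrt C * η' ^ (1 - q) * (c2 * 4))
        have iGS : Integrable (fun x => (η⁻¹ * c1 + Real.sqrt e) * G x
            + (Real.sqrt C * η' ^ (1 - q) * (c2 * 4)) * J x) (HP (Sm z)) := iG.add iS
        rw [integral_add (integrable_const _) iGS, integral_add iG iS, integral_const_mul,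
          integral_const_mul, integral_const]
        simp
        ring
    _ ≤ (ε / 4 + ε / 4) + ε / 4 + ε / 4 + Real.sqrt e := by
        refine add_le_add (add_le_add (add_le_add (add_le_add le_rfl hη'1) ?_) ?_) ?_
        · have h1 : η⁻¹ * c1 = η⁻¹ * (C * C0) * L ^ (b - s) := by
            rw [hc1, Real.rpow_sub hL0, Real.rpow_neg hL0.le]
            field_simp
          have h2 : η⁻¹ * c1 ≤ ε / 4 := by rw [h1]; exact hz1'
          calc (η⁻¹ * c1) * (∫ x, G x ∂(HP (Sm z))) ≤ (η⁻¹ * c1) * 1 := mul_le_mul_of_nonneg_left hGi (by positivity)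
            _ ≤ ε / 4 := by rw [mul_one]; exact h2
        · refine le_trans ?_ hz2'
          have h1 : c2 * (4 * ∫ x, J x ∂(HP (Sm z))) ≤ c2 * (4 * m) := by gcongr
          calc (Real.sqrt C * η' ^ (1 - q)) * (c2 * (4 * ∫ x, J x ∂(HP (Sm z))))
              ≤ (Real.sqrt C * η' ^ (1 - q)) * ((C0 * 6 ^ s) ^ (q - 1) * (4 * Cs) *
                  L ^ ((q - 1) * (s * (κ - 1) + α ^ 2 * q))) :=
                mul_le_mul_of_nonneg_left (h1.trans hc2') (by positivity)
            _ = _ := by ring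
        · calc Real.sqrt e * ∫ x, G x ∂(HP (Sm z)) ≤ Real.sqrt e * 1 :=
              mul_le_mul_of_nonneg_left hGi (Real.sqrt_nonneg _)
            _ = _ := mul_one _
    _ = ε + Real.sqrt e := by ring

end Run7.h772.KH
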