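import Pool.Agent.N748.GC.Cor2
import Pool.Agent.Run7.h772.KH.Abs
import Pool.Agent.Run7.h772.KH.Edm

set_option autoImplicit false

/-!
# Windows over a measure: continuity, interchange of the integrations
-/

namespace Run7.h772.KH

open Finset Filter MeasureTheory Topology Pool.Agent.N748.GC
open Pool.Agent.N748.GC.ASM (LB intprod)

variable {s0 C0 : ℝ} {μ : Measure ℝ}

/-- the window integral -/
noncomputable def WI (μ : Measure ℝ) (f g : ℝ → ℝ) (t : ℝ) : ℝ := ∫ x, f x * g (t + x) ∂μ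

lemma wint [IsFiniteMeasure μ] (hμs : ∀ᵐ x ∂μ, x ∈ Set.Icc (0:ℝ) 1) {f g : ℝ → ℝ} (hf : Measurable f)
    (hf1 : ∀ x, |f x| ≤ 1) (hg : Continuous g) (t : ℝ) : Integrable (fun x => f x * g (t + x)) μ := by
  have hgt : Continuous fun x => g (t + x) := hg.comp (by fun_prop)
  exact (cint hμs hgt).bdd_mul (c := 1) hf.aestronglyMeasurable
    (Eventually.of_forall fun x => by rw [Real.norm_eq_abs]; exact hf1 x)

lemma WI_cont [IsFiniteMeasure μ] (hμs : ∀ᵐ x ∂μ, x ∈ Set.Icc (0:ℝ) 1) {f g : ℝ → ℝ} (hf : Measurable f)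
    (hf1 : ∀ x, |f x| ≤ 1) (hg : Continuous g) : Continuous (WI μ f g) := by
  rw [continuous_iff_continuousAt]
  intro t0
  obtain ⟨B, hB⟩ := (isCompact_Icc (a := t0 - 1) (b := t0 + 2)).exists_bound_of_continuousOn hg.continuousOn
  refine continuousAt_of_dominated (bound := fun _ => B) ?_ ?_ (integrable_const _) ?_
  · exact Eventually.of_forall fun t => (hf.mul (hg.measurable.comp (measurable_const_add t))).aestronglyMeasurable
  · filter_upwards [Metric.ball_mem_nhds t0 one_pos] with t ht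
    filter_upwards [hμs] with x hx
    rw [Metric.mem_ball, Real.dist_eq, abs_lt] at ht
    rw [norm_mul, Real.norm_eq_abs]
    have h1 := hB (t + x) ⟨by linarith [hx.1], by linarith [hx.2]⟩
    calc |f x| * ‖g (t + x)‖ ≤ 1 * B := mul_le_mul (hf1 x) h1 (norm_nonneg _) zero_le_one
      _ = B := one_mul _
  · exact Eventually.of_forall fun x => (continuous_const.mul (hg.comp (by fun_prop))).continuousAt

lemma WI_one [IsFiniteMeasure μ] (hμs : ∀ᵐ x ∂μ, x ∈ Set.Icc (0:ℝ) 1) {h : ℝ → ℝ} (hh : Continuous h) :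
    Continuous fun t : ℝ => ∫ x, h (t + x) ∂μ := by
  have h1 := WI_cont hμs (f := fun _ => 1) measurable_const (fun _ => by norm_num) hh
  refine h1.congr fun t => ?_
  unfold WI
  simp only [one_mul]

lemma WI_le [IsFiniteMeasure μ] (hμs : ∀ᵐ x ∂μ, x ∈ Set.Icc (0:ℝ) 1) {f g h : ℝ → ℝ}
    (hf1 : ∀ x, |f x| ≤ 1) (hh : Continuous h) (hgh : ∀ u, |g u| ≤ h u) (t : ℝ) :
    |WI μ f g t| ≤ ∫ x, h (t + x) ∂μ := by
  have hc : Continuous fun x : ℝ => h (t + x) := hh.comp (by fun_prop)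
  have h1 := norm_integral_le_of_norm_le (μ := μ) (f := fun x => f x * g (t + x)) (cint hμs hc)
    (Eventually.of_forall fun x => ?_)
  · exact h1
  rw [norm_mul, Real.norm_eq_abs, Real.norm_eq_abs]
  calc |f x| * |g (t + x)| ≤ 1 * h (t + x) := mul_le_mul (hf1 x) (hgh _) (abs_nonneg _) zero_le_one
    _ = _ := one_mul _

lemma swapM [IsFiniteMeasure μ] (hμs : ∀ᵐ x ∂μ, x ∈ Set.Icc (0:ℝ) 1) {h : ℝ → ℝ} (hc : Continuous h) {a b : ℝ}
    (hab : a ≤ b) : ∫ t in a..b, ∫ x, h (t + x) ∂μ = ∫ x, (∫ t in a..b, h (t + x)) ∂μ := by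
  simp only [intervalIntegral.integral_of_le hab]
  have hmt : ∀ᵐ t ∂(volume.restrict (Set.Ioc a b)), t ∈ Set.Ioc a b := ae_restrict_mem measurableSet_Ioc
  obtain ⟨B, -, hB⟩ := (LB.cont hc).b (|a| + |b| + 1)
  have hi : Integrable (fun p : ℝ × ℝ => h (p.1 + p.2)) ((volume.restrict (Set.Ioc a b)).prod μ) := by
    refine intprod hmt hμs (B := B) (hc.measurable.comp (measurable_fst.add measurable_snd)) fun t x ht hx => ?_
    refine hB _ ?_
    rw [abs_le]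
    constructor
    · have := neg_abs_le a
      have := abs_nonneg b
      linarith [ht.1, hx.1]
    · have := le_abs_self b
      have := abs_nonneg a
      linarith [ht.2, hx.2]
  exact integral_integral_swap (f := fun t x => h (t + x)) hi

/-- integrals over windows -/
lemma conv1 (h1 : μ Set.univ ≤ 1) (hμs : ∀ᵐ x ∂μ, x ∈ Set.Icc (0:ℝ) 1) {h : ℝ → ℝ} (hc : Continuous h)
    (h0 : ∀ u, 0 ≤ h u) {a b : ℝ} (hab : a ≤ b) :
    ∫ t in a..b, ∫ x, h (t + x) ∂μ ≤ ∫ u in a..(b + 1), h u := by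
  have hfin := fin_of_mass h1
  have hreal : μ.real Set.univ ≤ 1 := ENNReal.toReal_le_of_le_ofReal zero_le_one (by rw [ENNReal.ofReal_one]; exact h1)
  rw [swapM hμs hc hab]
  have h2 : ∀ x ∈ Set.Icc (0:ℝ) 1, ∫ t in a..b, h (t + x) ≤ ∫ u in a..(b + 1), h u := by
    intro x hx
    rw [intervalIntegral.integral_comp_add_right]
    refine intervalIntegral.integral_mono_interval (by linarith [hx.1]) (by linarith) (by linarith [hx.2])
      (Eventually.of_forall h0) (hc.intervalIntegrable _ _)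
  have h3 : 0 ≤ ∫ u in a..(b + 1), h u := intervalIntegral.integral_nonneg (by linarith) fun u _ => h0 u
  have hcx : Continuous fun x : ℝ => ∫ t in a..b, h (t + x) :=
    intervalIntegral.continuous_parametric_intervalIntegral_of_continuous' (by
      show Continuous fun q : ℝ × ℝ => h (q.2 + q.1)
      fun_prop) a b
  calc ∫ x, (∫ t in a..b, h (t + x)) ∂μ ≤ ∫ x, (∫ u in a..(b + 1), h u) ∂μ := by
        refine integral_mono_ae (cint hμs hcx) (integrable_const _) ?_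
        filter_upwards [hμs] with x hx using h2 x hx
    _ = μ.real Set.univ * ∫ u in a..(b + 1), h u := by rw [integral_const, smul_eq_mul]
    _ ≤ _ := mul_le_of_le_one_left h3 hreal

lemma win_le (h1 : μ Set.univ ≤ 1) (hμs : ∀ᵐ x ∂μ, x ∈ Set.Icc (0:ℝ) 1) {f g h : ℝ → ℝ} (hf : Measurable f)
    (hf1 : ∀ x, |f x| ≤ 1) (hg : Continuous g) (hh : Continuous h)
    (hgh : ∀ u, |g u| ≤ h u) {a b : ℝ} (hab : a ≤ b) :
    ∫ t in a..b, |WI μ f g t| ≤ ∫ u in a..(b + 1), h u := by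
  have hfin := fin_of_mass h1
  refine le_trans ?_ (conv1 h1 hμs hh (fun u => (abs_nonneg _).trans (hgh u)) hab)
  exact intervalIntegral.integral_mono_on hab ((WI_cont hμs hf hf1 hg).abs.intervalIntegrable _ _)
    ((WI_one hμs hh).intervalIntegrable _ _) fun t _ => WI_le hμs hf1 hh hgh t

/-- the middle term: the polynomial over the small primes against the density -/
lemma mid_le (h1 : μ Set.univ ≤ 1) (hμs : ∀ᵐ x ∂μ, x ∈ Set.Icc (0:ℝ) 1) {α ε1 κ C e lam δ0 : ℝ} {z : ℕ}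
    {W g : ℝ → ℝ → ℝ → ℝ} (he1 : e ≤ 1)
    (hTS : TS C (α ^ 2 + ε1) κ e lam δ0 z W g) : ∀ᶠ X : ℝ in atTop, ∀ δ : ℝ, lam / Real.log X ≤ δ → δ ≤ δ0 →
    ∀ f : ℝ → ℝ, Measurable f → (∀ x, |f x| ≤ 1) → ∀ A : ℝ → ℝ, Continuous A → ∀ s : ℝ, 0 ≤ s →
    (∀ u, |A u - mz α z u| ≤ s * mz α z u) →
    ∫ t in Xl X..X, |WI μ f (fun u => (A u - mz α z u) * W X δ u) t| ≤ s * (3 * X) := by
  have hfin := fin_of_mass h1
  have hreal : μ.real Set.univ ≤ 1 := ENNReal.toReal_le_of_le_ofReal zero_le_one (by rw [ENNReal.ofReal_one]; exact h1)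
  have hF : Continuous fun q : (Set.Icc (0:ℝ) 1) × UnitAddTorus (Sm z) => M0 α (Sm z) (q.2 + pt (Sm z) q.1) :=
    (QC.M0_cont α (QC.Sm_prime z)).comp (continuous_snd.add ((QC.pt_cont _).comp (continuous_subtype_val.comp continuous_fst)))
  filter_upwards [hTS.one (Set.Icc (0:ℝ) 1) (fun q => M0 α (Sm z) (q.2 + pt (Sm z) q.1)) hF
    (fun q => (QC.M0_pos α (QC.Sm_prime z) _).le) 1 one_pos, eventually_ge_atTop 256] with X h1' hX δ hd1 hd2 f hf hf1 A hA s hs hAm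
  have hX0 : 0 < X := by linarith
  have hXl := ASM.Xl_le hX
  have hWc := hTS.Wc X δ
  have hmc := QC.mz_cont α z
  have hgc : Continuous fun u => (A u - mz α z u) * W X δ u := (hA.sub hmc).mul hWc
  have hhc : Continuous fun u => s * (mz α z u * W X δ u) := continuous_const.mul (hmc.mul hWc)
  have hpt : ∀ u, |(A u - mz α z u) * W X δ u| ≤ s * (mz α z u * W X δ u) := by
    intro u
    rw [abs_mul, abs_of_nonneg (hTS.W0 X δ u), ← mul_assoc]
    exact mul_le_mul_of_nonneg_right (hAm u) (hTS.W0 X δ u)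
  have hsw : ∫ t in Xl X..X, |WI μ f (fun u => (A u - mz α z u) * W X δ u) t| ≤
      ∫ t in Xl X..X, ∫ x, s * (mz α z (t + x) * W X δ (t + x)) ∂μ :=
    intervalIntegral.integral_mono_on hXl ((WI_cont hμs hf hf1 hgc).abs.intervalIntegrable _ _)
      ((WI_one hμs hhc).intervalIntegrable _ _) fun t _ => WI_le hμs hf1 hhc hpt t
  refine hsw.trans ?_
  rw [swapM hμs hhc hXl]
  have hin : ∀ x ∈ Set.Icc (0:ℝ) 1, ∫ t in Xl X..X, s * (mz α z (t + x) * W X δ (t + x)) ≤ s * (3 * X) := by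
    intro x hx
    rw [intervalIntegral.integral_const_mul]
    refine mul_le_mul_of_nonneg_left ?_ hs
    have h2 := h1' δ hd1 hd2 ⟨x, hx⟩ x hx.1 hx.2
    have h3 : ∫ y, M0 α (Sm z) (y + pt (Sm z) x) ∂(HP (Sm z)) = 1 := by
      rw [RZ.int_trans (Sm z) (M0 α (Sm z))]; exact QC.M0_int α (QC.Sm_prime z)
    simp only [h3] at h2
    have h4 : ∀ t : ℝ, M0 α (Sm z) (pt (Sm z) t + pt (Sm z) x) = mz α z (t + x) := by
      intro t; unfold mz; rw [ASM.pt_add]
    simp only [h4] at h2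
    have h5 := (abs_le.mp h2).2
    nlinarith
  have hcx : Continuous fun x : ℝ => ∫ t in Xl X..X, s * (mz α z (t + x) * W X δ (t + x)) :=
    intervalIntegral.continuous_parametric_intervalIntegral_of_continuous' (by
      show Continuous fun q : ℝ × ℝ => s * (mz α z (q.2 + q.1) * W X δ (q.2 + q.1))
      exact hhc.comp (by fun_prop)) _ _
  have h6 : 0 ≤ s * (3 * X) := by positivity
  calc ∫ x, (∫ t in Xl X..X, s * (mz α z (t + x) * W X δ (t + x))) ∂μ ≤ ∫ x, (s * (3 * X)) ∂μ := by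
        refine integral_mono_ae (cint hμs hcx) (integrable_const _) ?_
        filter_upwards [hμs] with x hx using hin x hx
    _ = μ.real Set.univ * (s * (3 * X)) := by rw [integral_const, smul_eq_mul]
    _ ≤ _ := mul_le_of_le_one_left h6 hreal

/-- the bounds for the windows -/
theorem asm (hμ : FP s0 C0 μ) (hs0 : 0 < s0) (hC0 : 0 ≤ C0) {α b C ζ κ e lam δ0 : ℝ} {z : ℕ} {W g : ℝ → ℝ → ℝ → ℝ}
    (hz : 3 ≤ z) (hC : 0 ≤ C) (hζ0 : 0 < ζ) (hζs : ζ ≤ s0) (he0 : 0 ≤ e) (he1 : e ≤ 1)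
    (S : TS C ζ κ e lam δ0 z W g) {ε : ℝ} (hε : 0 < ε) :
    ∀ᶠ X : ℝ in atTop, ∀ δ : ℝ, lam / Real.log X ≤ δ → δ ≤ δ0 → ∀ f : ℝ → ℝ, Measurable f → (∀ x, 0 ≤ f x) →
    (∀ x, f x ≤ 1) →
    ∫ t in Xl X..X, |WI μ f (fun u => mz α z u * (W X δ u - 1)) t| ≤
      X * (e + 3 * (∫ x, (M0 α (Sm z) x - Mc α b z x) ∂(HP (Sm z))) +
        (∫ x, Real.sqrt (QM μ α b z (Kz (C + 4) ζ κ (5 * e) z) x) ∂(HP (Sm z))) + ε) := by
  have hfin := hμ.fin
  have hK0 : ∀ h, 0 ≤ Kz (C + 4) ζ κ (5 * e) z h := QC.Kz_nonneg (by linarith) (by linarith) z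
  have hKp := ker_int hμ hC0 (C := C + 4) (ζ := ζ) (κ := κ) (e := 5 * e) hz hζ0 hζs (by linarith) (by linarith)
  exact absmain μ hμ.mass hμ.supp (hμ.na hs0) (HP (Sm z)) (QC.HP_add_right (Sm z)) (pt (Sm z)) (QC.pt_cont _) (ASM.pt_add _)
    (M0 α (Sm z)) (Mc α b z) (QC.M0_cont α (QC.Sm_prime z)) (QC.Mc_cont α b z) (QC.Mc_nonneg α b z)
    (QC.Mc_le_M0 α b z) (QC.M0_int α (QC.Sm_prime z)) he0 he1 (Kz C ζ κ e z)
    (Kz (C + 4) ζ κ (5 * e) z) hKp hK0 (fun h hh => ASM.Kz_le hz hζ0 he1 hh)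
    (QM μ α b z (Kz (C + 4) ζ κ (5 * e) z)) (fun x => rfl) (QM_cont α b z hKp)
    (QM_nn hK0) W g
    ⟨S.W0, S.Wc, S.g0, S.g1, S.gm, S.zero, S.one, S.bad, S.two⟩ ε hε

end Run7.h772.KH
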