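import Pool.Agent.Run7.h772.KH.Deg1
import Pool.Agent.Run7.h772.KH.Win

set_option autoImplicit false

/-!
# The degenerate range
-/

namespace Run7.h772.KH

open Finset Filter MeasureTheory Topology Complex Metric
open scoped ENNReal
open Pool.Agent.N748.GC
open Pool.Agent.Y755 Pool.Agent.W184.NZ
open Pool.Agent.W184 (zn zn_nonneg zn_cont zn_le')
open Pool.Agent.H306R2 (aF aF_pos)

variable {μ : Measure ℝ} {α p : ℝ}

lemma U_meas (μ : Measure ℝ) [IsFiniteMeasure μ] {g : ℝ → ℝ} (hg : Continuous g) (U : Set ℝ) :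
    Measurable fun t : ℝ => ∫⁻ x in U, ENNReal.ofReal (g (t + x)) ∂μ := by
  have h1 : Measurable fun r : ℝ × ℝ => ENNReal.ofReal (g (r.1 + r.2)) :=
    (hg.comp (by fun_prop : Continuous fun r : ℝ × ℝ => r.1 + r.2)).measurable.ennreal_ofReal
  exact h1.lintegral_prod_right'

lemma good_prob [IsFiniteMeasure μ] (hα : 0 < α) (hp : 0 < p) (hp1 : p < 1) (hαp : α * p ≤ 2) {s N : ℝ}
    (hs : s < α ^ 2 * p) (hN : 0 < N) {δ : ℝ → ℝ} (hδ : Pd δ) {η ε : ℝ} (hη : 0 < η) (hε : 0 < ε) :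
    ∀ᶠ T : ℝ in atTop, ∀ G : Finset ℤ, (∀ j ∈ G, 0 ≤ j ∧ (j:ℝ) * δ T ≤ 1) → ((#G : ℝ) ≤ N * δ T ^ (-s)) →
      volume {t ∈ Set.Icc 1 T | ENNReal.ofReal η ≤ ∫⁻ x in ⋃ j ∈ G, Ij (δ T) j, ENNReal.ofReal (Zn α (δ T) (t + x)) ∂μ} ≤
        ENNReal.ofReal (ε * T) := by
  obtain ⟨lam, δ0, K, h1, h2, h3, hK, hev⟩ := good_avg (μ := μ) hα hp hp1.le hαp
  have he : 0 < (1 - p) * (α ^ 2 * p - s) := mul_pos (by linarith) (by linarith)
  have hlim : Tendsto (fun x : ℝ => N ^ (1 - p) * K * x ^ ((1 - p) * (α ^ 2 * p - s))) (𝓝 0) (𝓝 0) := by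
    have : Tendsto (fun x : ℝ => x ^ ((1 - p) * (α ^ 2 * p - s))) (𝓝 0) (𝓝 (0 ^ ((1 - p) * (α ^ 2 * p - s)))) :=
      (Real.continuousAt_rpow_const _ _ (Or.inr he.le)).tendsto
    rw [Real.zero_rpow he.ne'] at this
    simpa using this.const_mul (N ^ (1 - p) * K)
  have hlim2 := (hlim.comp hδ.t0).eventually_le_const (show 0 < ε * η ^ p by positivity)
  filter_upwards [hev, hlim2, eventually_ge_atTop 256, hδ.tL.eventually_ge_atTop lam, hδ.t0.eventually_le_const h2]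
    with T g1 g2 hT g3 g4 G hG hG2
  have hL0 : 0 < Real.log T := Real.log_pos (by linarith)
  have hd1 : lam / Real.log T ≤ δ T := by rw [div_le_iff₀ hL0]; exact g3
  have hδp : 0 < δ T := lt_of_lt_of_le (div_pos (by linarith) hL0) hd1
  have hZc := Zn_cont' (δ := δ T) hα (by linarith)
  have hUm := U_meas μ hZc (⋃ j ∈ G, Ij (δ T) j)
  set F : ℝ → ℝ≥0∞ := fun t => ∫⁻ x in ⋃ j ∈ G, Ij (δ T) j, ENNReal.ofReal (Zn α (δ T) (t + x)) ∂μ with hF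
  have h5 := g1 (δ T) hd1 g4 G hG
  have h6 : ENNReal.ofReal η ^ p * volume {t ∈ Set.Icc 1 T | ENNReal.ofReal η ≤ F t} ≤ ∫⁻ t in Set.Icc 1 T, F t ^ p := by
    have e1 : {t ∈ Set.Icc 1 T | ENNReal.ofReal η ≤ F t} ⊆ {t | ENNReal.ofReal η ^ p ≤ F t ^ p} ∩ Set.Icc 1 T := by
      rintro t ⟨ht1, ht2⟩
      exact ⟨ENNReal.rpow_le_rpow ht2 hp.le, ht1⟩
    have e2 := mul_meas_ge_le_lintegral (μ := volume.restrict (Set.Icc 1 T)) (hUm.pow_const p) (ENNReal.ofReal η ^ p)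
    refine le_trans ?_ e2
    rw [Measure.restrict_apply' measurableSet_Icc]
    exact mul_le_mul_right (measure_mono e1) _
  have h7 : (#G : ℝ≥0∞) ^ (1 - p) * ENNReal.ofReal (K * δ T ^ (α ^ 2 * p * (1 - p)) * T) ≤
      ENNReal.ofReal (ε * η ^ p * T) := by
    have e1 : (#G : ℝ≥0∞) ≤ ENNReal.ofReal (N * δ T ^ (-s)) := by
      rw [← ENNReal.ofReal_natCast]
      exact ENNReal.ofReal_le_ofReal hG2
    calc (#G : ℝ≥0∞) ^ (1 - p) * ENNReal.ofReal (K * δ T ^ (α ^ 2 * p * (1 - p)) * T)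
        ≤ ENNReal.ofReal (N * δ T ^ (-s)) ^ (1 - p) * ENNReal.ofReal (K * δ T ^ (α ^ 2 * p * (1 - p)) * T) := by
          gcongr
      _ = ENNReal.ofReal ((N ^ (1 - p) * K * δ T ^ ((1 - p) * (α ^ 2 * p - s))) * T) := by
          rw [ENNReal.ofReal_rpow_of_nonneg (by positivity) (by linarith), ← ENNReal.ofReal_mul (by positivity)]
          congr 1
          rw [Real.mul_rpow hN.le (by positivity), ← Real.rpow_mul hδp.le,
            show (1 - p) * (α ^ 2 * p - s) = -s * (1 - p) + α ^ 2 * p * (1 - p) by ring, Real.rpow_add hδp]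
          ring
      _ ≤ ENNReal.ofReal (ε * η ^ p * T) := by
          refine ENNReal.ofReal_le_ofReal ?_
          have : 0 ≤ T := by linarith
          exact mul_le_mul_of_nonneg_right g2 this
  have h8 : ENNReal.ofReal η ^ p * volume {t ∈ Set.Icc 1 T | ENNReal.ofReal η ≤ F t} ≤
      ENNReal.ofReal η ^ p * ENNReal.ofReal (ε * T) := by
    refine (h6.trans (h5.trans h7)).trans (le_of_eq ?_)
    rw [ENNReal.ofReal_rpow_of_nonneg hη.le hp.le, ← ENNReal.ofReal_mul (by positivity)]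
    congr 1
    ring
  have e0 : ENNReal.ofReal η ^ p ≠ 0 := by
    rw [ENNReal.ofReal_rpow_of_nonneg hη.le hp.le]
    simpa using Real.rpow_pos_of_pos hη p
  have et : ENNReal.ofReal η ^ p ≠ ⊤ := by
    rw [ENNReal.ofReal_rpow_of_nonneg hη.le hp.le]
    exact ENNReal.ofReal_ne_top
  exact (ENNReal.mul_le_mul_iff_right e0 et).mp h8

/-- number of grid intervals of large mass -/
lemma card_good [IsFiniteMeasure μ] {δ c : ℝ} (hδ : 0 < δ) (hc : 0 < c) (G : Finset ℤ)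
    (hG : ∀ j ∈ G, ENNReal.ofReal c ≤ μ (Ij δ (j - 1)) + μ (Ij δ j) + μ (Ij δ (j + 1))) :
    (#G : ℝ) ≤ 3 * μ.real Set.univ / c := by
  have h1 : ∀ e : ℤ, ∑ j ∈ G, μ (Ij δ (j + e)) ≤ μ Set.univ := by
    intro e
    rw [← measure_biUnion_finset (f := fun j : ℤ => Ij δ (j + e)) _ (fun j _ => Ij_meas δ _)]
    · exact measure_mono (Set.subset_univ _)
    · intro i _ j _ hij
      exact Ij_disj hδ (show i + e ≠ j + e by omega)
  have h2 : (#G : ℝ≥0∞) * ENNReal.ofReal c ≤ 3 * μ Set.univ := by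
    calc (#G : ℝ≥0∞) * ENNReal.ofReal c = ∑ j ∈ G, ENNReal.ofReal c := by rw [Finset.sum_const, nsmul_eq_mul]
      _ ≤ ∑ j ∈ G, (μ (Ij δ (j - 1)) + μ (Ij δ j) + μ (Ij δ (j + 1))) := Finset.sum_le_sum hG
      _ = ∑ j ∈ G, μ (Ij δ (j + (-1))) + ∑ j ∈ G, μ (Ij δ (j + 0)) + ∑ j ∈ G, μ (Ij δ (j + 1)) := by
          rw [Finset.sum_add_distrib, Finset.sum_add_distrib]
          simp [sub_eq_add_neg]
      _ ≤ μ Set.univ + μ Set.univ + μ Set.univ := by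
          gcongr
          · exact h1 _
          · exact h1 _
          · exact h1 _
      _ = 3 * μ Set.univ := by ring
  have h3 := ENNReal.toReal_mono (by finiteness) h2
  rw [ENNReal.toReal_mul, ENNReal.toReal_mul, ENNReal.toReal_natCast, ENNReal.toReal_ofReal hc.le] at h3
  rw [le_div_iff₀ hc, Measure.real]
  simpa using h3

/-- the mass as a lower Lebesgue integral -/
lemma WI_lint [IsFiniteMeasure μ] (hμs : ∀ᵐ x ∂μ, x ∈ Set.Icc (0:ℝ) 1) {g : ℝ → ℝ} (hg : Continuous g)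
    (hg0 : ∀ x, 0 ≤ g x) (t : ℝ) : ENNReal.ofReal (WI μ (fun _ => 1) g t) = ∫⁻ x, ENNReal.ofReal (g (t + x)) ∂μ := by
  have h1 := wint hμs (f := fun _ => 1) measurable_const (fun _ => by simp) hg t
  simp only [one_mul] at h1
  unfold WI
  simp only [one_mul]
  exact ofReal_integral_eq_lintegral_ofReal h1 (Eventually.of_forall fun x => hg0 _)

/-- the indices of the grid intervals meeting `[0,1]` -/
noncomputable def gr (δ : ℝ) : Finset ℤ := Finset.Icc 0 ⌊1 / δ⌋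

lemma gr_mem {δ : ℝ} (hδ : 0 < δ) {j : ℤ} (hj : j ∈ gr δ) : 0 ≤ j ∧ (j:ℝ) * δ ≤ 1 := by
  rw [gr, Finset.mem_Icc] at hj
  refine ⟨hj.1, ?_⟩
  rw [← le_div_iff₀ hδ]
  exact Int.le_floor.mp hj.2

lemma gr_floor {δ x : ℝ} (hδ : 0 < δ) (hx : x ∈ Set.Icc (0:ℝ) 1) : ⌊x / δ⌋ ∈ gr δ := by
  rw [gr, Finset.mem_Icc]
  refine ⟨Int.floor_nonneg.mpr (div_nonneg hx.1 hδ.le), Int.floor_le_floor ?_⟩
  exact div_le_div_of_nonneg_right hx.2 hδ.le

lemma gr_card {δ : ℝ} (hδ : 0 < δ) (hδ1 : δ ≤ 1) : (#(gr δ) : ℝ) ≤ 2 * δ ^ (-(1:ℝ)) := by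
  have h0 : (0:ℤ) ≤ ⌊1 / δ⌋ := Int.floor_nonneg.mpr (by positivity)
  have h1 : (#(gr δ) : ℝ) = ⌊1 / δ⌋ + 1 := by
    rw [gr, Int.card_Icc]
    have : ((⌊1 / δ⌋ + 1 - 0).toNat : ℤ) = ⌊1 / δ⌋ + 1 := by omega
    exact_mod_cast this
  rw [h1, Real.rpow_neg_one]
  have h2 : (⌊1 / δ⌋ : ℝ) ≤ 1 / δ := Int.floor_le _
  have h3 : 1 ≤ δ⁻¹ := (one_le_inv₀ hδ).mpr hδ1
  have h4 : 1 / δ = δ⁻¹ := one_div δ
  linarith

end Run7.h772.KH
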