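import Pool.Agent.Run7.h772.KH.Deg2

set_option autoImplicit false

/-!
# The degenerate range: convergence to zero in probability
-/

namespace Run7.h772.KH

open Finset Filter MeasureTheory Topology Complex Metric
open scoped ENNReal
open Pool.Agent.N748.GC
open Pool.Agent.Y755 Pool.Agent.W184.NZ
open Pool.Agent.W184 (zn zn_nonneg zn_cont zn_le')
open Pool.Agent.H306R2 (aF aF_pos)

variable {μ : Measure ℝ} {α : ℝ}

/-- the proportion of `t ≤ T` with local moment at least `η` -/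
noncomputable def prop (μ : Measure ℝ) (α : ℝ) (δ : ℝ → ℝ) (η T : ℝ) : ℝ≥0∞ :=
  volume {t ∈ Set.Icc 0 T | η ≤ WI μ (fun _ => 1) (Zn α (δ T)) t}

lemma split_vol (A : Set ℝ) (T : ℝ) : volume (A ∩ Set.Icc 0 T) ≤ 1 + volume (A ∩ Set.Icc 1 T) := by
  have h1 : A ∩ Set.Icc 0 T ⊆ Set.Icc 0 1 ∪ (A ∩ Set.Icc 1 T) := by
    rintro t ⟨h1, h2⟩
    rcases le_total t 1 with h | h
    · exact Or.inl ⟨h2.1, h⟩
    · exact Or.inr ⟨h1, h, h2.2⟩
  refine (measure_mono h1).trans ((measure_union_le _ _).trans ?_)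
  gcongr
  rw [Real.volume_Icc]
  simp

theorem deg_gt_one [IsFiniteMeasure μ] (hμs : ∀ᵐ x ∂μ, x ∈ Set.Icc (0:ℝ) 1) (h1 : 1 < α) {δ : ℝ → ℝ} (hδ : Pd δ)
    {η ε : ℝ} (hη : 0 < η) (hε : 0 < ε) : ∀ᶠ T : ℝ in atTop, prop μ α δ η T ≤ ENNReal.ofReal (ε * T) := by
  have hα : 0 < α := by linarith
  have hα2 : 1 < α ^ 2 := by nlinarith
  have hm0 : 1 / α ^ 2 < min 1 (2 / α) := by
    rw [lt_min_iff, div_lt_one (by positivity), div_lt_div_iff₀ (by positivity) hα]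
    exact ⟨hα2, by nlinarith⟩
  obtain ⟨p, hp1, hp2⟩ := exists_between hm0
  have hp0 : 0 < p := lt_trans (by positivity) hp1
  have hp3 : p < 1 := hp2.trans_le (min_le_left _ _)
  have hp4 : α * p ≤ 2 := by
    have := (hp2.trans_le (min_le_right _ _)).le
    rw [le_div_iff₀ hα] at this
    linarith
  have hs : 1 < α ^ 2 * p := by
    rw [div_lt_iff₀ (by positivity)] at hp1
    linarith
  have hev := good_prob (μ := μ) hα hp0 hp3 hp4 hs (N := 2) (by norm_num) hδ hη (half_pos hε)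
  filter_upwards [hev, hδ.t0.eventually_le_const (show (0:ℝ) < 1 / 4 by norm_num), eventually_ge_atTop (2 / ε),
    eventually_ge_atTop 256, hδ.tL.eventually_gt_atTop 0] with T g1 g2 g3 hT g5
  have hL0 : 0 < Real.log T := Real.log_pos (by linarith)
  have hδp : 0 < δ T := by
    by_contra hcon
    push Not at hcon
    nlinarith
  have hZc := Zn_cont' (δ := δ T) hα (by linarith)
  have h2 := g1 (gr (δ T)) (fun j hj => gr_mem hδp hj) (gr_card hδp (by linarith))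
  have h3 : ∀ t, ENNReal.ofReal (WI μ (fun _ => 1) (Zn α (δ T)) t) =
      ∫⁻ x in ⋃ j ∈ gr (δ T), Ij (δ T) j, ENNReal.ofReal (Zn α (δ T) (t + x)) ∂μ := by
    intro t
    rw [WI_lint hμs hZc (fun x => Zn_nonneg hα hδp.le x)]
    have h4 : (⋃ j ∈ gr (δ T), Ij (δ T) j) =ᵐ[μ] (Set.univ : Set ℝ) := by
      rw [ae_eq_univ]
      refine measure_mono_null ?_ (ae_iff.mp hμs)
      intro x hx hx'
      refine hx ?_
      rw [Set.mem_iUnion₂]
      exact ⟨_, gr_floor hδp hx', (mem_Ij hδp _).mpr rfl⟩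
    rw [setLIntegral_congr h4, setLIntegral_univ]
  have h5 : prop μ α δ η T = volume ({t | ENNReal.ofReal η ≤
      ∫⁻ x in ⋃ j ∈ gr (δ T), Ij (δ T) j, ENNReal.ofReal (Zn α (δ T) (t + x)) ∂μ} ∩ Set.Icc 0 T) := by
    unfold prop
    congr 1
    ext t
    simp only [Set.mem_ofPred_eq, Set.mem_inter_iff, ← h3]
    rw [ENNReal.ofReal_le_ofReal_iff']
    constructor
    · rintro ⟨h6, h7⟩
      exact ⟨Or.inl h7, h6⟩
    · rintro ⟨h6, h7⟩
      rcases h6 with h6 | h6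
      · exact ⟨h7, h6⟩
      · exact absurd hη (not_lt.mpr h6)
  rw [h5]
  refine (split_vol _ _).trans ?_
  have h6 : {t | ENNReal.ofReal η ≤ ∫⁻ x in ⋃ j ∈ gr (δ T), Ij (δ T) j, ENNReal.ofReal (Zn α (δ T) (t + x)) ∂μ} ∩ Set.Icc 1 T =
      {t ∈ Set.Icc 1 T | ENNReal.ofReal η ≤ ∫⁻ x in ⋃ j ∈ gr (δ T), Ij (δ T) j, ENNReal.ofReal (Zn α (δ T) (t + x)) ∂μ} := by
    ext t
    simp only [Set.mem_inter_iff, Set.mem_ofPred_eq]
    tauto
  rw [h6]
  have h7 : (1:ℝ≥0∞) ≤ ENNReal.ofReal (ε / 2 * T) := by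
    rw [← ENNReal.ofReal_one]
    refine ENNReal.ofReal_le_ofReal ?_
    rw [div_le_iff₀ hε] at g3
    linarith
  calc (1:ℝ≥0∞) + volume {t ∈ Set.Icc 1 T | ENNReal.ofReal η ≤
        ∫⁻ x in ⋃ j ∈ gr (δ T), Ij (δ T) j, ENNReal.ofReal (Zn α (δ T) (t + x)) ∂μ}
      ≤ ENNReal.ofReal (ε / 2 * T) + ENNReal.ofReal (ε / 2 * T) := add_le_add h7 h2
    _ = ENNReal.ofReal (ε * T) := by
      have : 0 ≤ ε / 2 * T := by positivity
      rw [← ENNReal.ofReal_add this this]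
      congr 1
      ring

/-- the ball condition at rational scales -/
def Cn (μ : Measure ℝ) (α : ℝ) (n : ℕ) : Set ℝ :=
  {x | ∀ r : ℚ, 0 < (r:ℝ) → (r:ℝ) ≤ 1 / ((n:ℝ) + 1) →
    ENNReal.ofReal ((r:ℝ) ^ (α ^ 2 * (1 - 1 / ((n:ℝ) + 2)))) ≤ μ (Set.Icc (x - r) (x + r))}

lemma ball_meas [IsFiniteMeasure μ] (r : ℝ) : Measurable fun x : ℝ => μ (Set.Icc (x - r) (x + r)) := by
  have h1 : MeasurableSet {q : ℝ × ℝ | q.1 - r ≤ q.2 ∧ q.2 ≤ q.1 + r} := by
    have h2 : MeasurableSet {q : ℝ × ℝ | q.1 - r ≤ q.2} := measurableSet_le (by fun_prop) (by fun_prop)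
    have h3 : MeasurableSet {q : ℝ × ℝ | q.2 ≤ q.1 + r} := measurableSet_le (by fun_prop) (by fun_prop)
    exact h2.inter h3
  exact measurable_measure_prodMk_left h1

lemma Cn_meas [IsFiniteMeasure μ] (n : ℕ) : MeasurableSet (Cn μ α n) := by
  have : Cn μ α n = ⋂ r : ℚ, ⋂ _ : 0 < (r:ℝ), ⋂ _ : (r:ℝ) ≤ 1 / ((n:ℝ) + 1),
      {x | ENNReal.ofReal ((r:ℝ) ^ (α ^ 2 * (1 - 1 / ((n:ℝ) + 2)))) ≤ μ (Set.Icc (x - r) (x + r))} := by
    ext x
    simp [Cn]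
  rw [this]
  exact MeasurableSet.iInter fun r => MeasurableSet.iInter fun _ => MeasurableSet.iInter fun _ =>
    measurableSet_le measurable_const (ball_meas _)

lemma Cn_lim [IsFiniteMeasure μ] (h0 : 0 < α) {V : Set ℝ} (hV : MeasurableSet V)
    (hb : ∀ᵐ x ∂μ, x ∈ V → ∃ s : ℝ, s < α ^ 2 ∧ ∃ r0 : ℝ, 0 < r0 ∧ ∀ r : ℝ, 0 < r →
    r ≤ r0 → ENNReal.ofReal (r ^ s) ≤ μ (Set.Icc (x - r) (x + r))) : Tendsto (fun n => μ (V ∩ (Cn μ α n)ᶜ)) atTop (𝓝 0) := by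
  have hα2 : 0 < α ^ 2 := by positivity
  have hlim : ∀ᵐ x ∂μ, ∀ᶠ n : ℕ in atTop, x ∈ V ∩ (Cn μ α n)ᶜ ↔ x ∈ (∅ : Set ℝ) := by
    filter_upwards [hb] with x hb
    by_cases hxV : x ∉ V
    · exact Eventually.of_forall fun n => by simp [hxV]
    push Not at hxV
    obtain ⟨s, hs, r0, hr0, hx⟩ := hb hxV
    have e1 : Tendsto (fun n : ℕ => 1 / ((n:ℝ) + 1)) atTop (𝓝 0) := tendsto_one_div_add_atTop_nhds_zero_nat
    have e2 : Tendsto (fun n : ℕ => α ^ 2 * (1 / ((n:ℝ) + 1))) atTop (𝓝 0) := by simpa using e1.const_mul (α ^ 2)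
    filter_upwards [e1.eventually_le_const hr0, e2.eventually_le_const (show (0:ℝ) < α ^ 2 - s by linarith)] with n hn hn2
    simp only [Set.mem_inter_iff, Set.mem_compl_iff, Set.mem_empty_iff_false, iff_false, not_and, not_not]
    intro _ r hr hr1
    refine le_trans (ENNReal.ofReal_le_ofReal ?_) (hx r hr (hr1.trans hn))
    refine Real.rpow_le_rpow_of_exponent_ge hr ?_ ?_
    · refine hr1.trans ?_
      rw [div_le_one (by positivity)]
      linarith [Nat.cast_nonneg (α := ℝ) n]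
    · have e3 : 1 / ((n:ℝ) + 2) ≤ 1 / ((n:ℝ) + 1) := one_div_le_one_div_of_le (by positivity) (by linarith)
      nlinarith
  have hten := tendsto_measure_of_ae_tendsto_indicator_of_isFiniteMeasure (L := atTop) (μ := μ) MeasurableSet.empty
    (fun n => hV.inter (Cn_meas (μ := μ) (α := α) n).compl) hlim
  rwa [measure_empty] at hten

end Run7.h772.KH
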