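import Pool.Agent.Run7.h772.KH.Deg3

set_option autoImplicit false

/-!
# The degenerate range for measures of small dimension
-/

namespace Run7.h772.KH

open Finset Filter MeasureTheory Topology Complex Metric
open scoped ENNReal
open Pool.Agent.N748.GC
open Pool.Agent.Y755 Pool.Agent.W184.NZ
open Pool.Agent.W184 (zn zn_nonneg zn_cont zn_le')
open Pool.Agent.H306R2 (aF aF_pos)

variable {μ : Measure ℝ} {α : ℝ}

lemma bad_avg [IsFiniteMeasure μ] (hμs : ∀ᵐ x ∂μ, x ∈ Set.Icc (0:ℝ) 1) (h0 : 0 < α) (h2 : α ≤ 2) :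
    ∃ lam δ0 : ℝ, 1 ≤ lam ∧ 0 < δ0 ∧ δ0 ≤ 1 / 16 ∧
    ∀ᶠ T : ℝ in atTop, ∀ δ : ℝ, lam / Real.log T ≤ δ → δ ≤ δ0 → ∀ V : Set ℝ, MeasurableSet V →
    ∫⁻ t in Set.Icc 1 T, ∫⁻ x in V, ENNReal.ofReal (Zn α δ (t + x)) ∂μ ≤ ENNReal.ofReal (40 * T) * μ V := by
  obtain ⟨lam, δ0, h1, h3, h4, hev⟩ := first h0 h2
  refine ⟨lam, δ0, h1, h3, h4, ?_⟩
  filter_upwards [hev, eventually_ge_atTop 256] with T g1 hT δ hd1 hd2 V hV
  have hL0 : 0 < Real.log T := Real.log_pos (by linarith)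
  have hδp : 0 < δ := lt_of_lt_of_le (div_pos (by linarith) hL0) hd1
  have hZc := Zn_cont' (δ := δ) h0 (by linarith)
  have g2 := g1 δ hd1 hd2
  have hm : Measurable fun r : ℝ × ℝ => ENNReal.ofReal (Zn α δ (r.1 + r.2)) :=
    (hZc.comp (by fun_prop : Continuous fun r : ℝ × ℝ => r.1 + r.2)).measurable.ennreal_ofReal
  rw [lintegral_lintegral_swap hm.aemeasurable]
  have h5 : ∀ᵐ x ∂(μ.restrict V), ∫⁻ t in Set.Icc 1 T, ENNReal.ofReal (Zn α δ (t + x)) ≤ ENNReal.ofReal (40 * T) := by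
    filter_upwards [ae_restrict_of_ae hμs] with x hx
    have e1 : ∫⁻ t in Set.Icc 1 T, ENNReal.ofReal (Zn α δ (t + x)) =
        ENNReal.ofReal (∫ t in Set.Icc 1 T, Zn α δ (t + x)) := by
      rw [ofReal_integral_eq_lintegral_ofReal]
      · exact ((hZc.comp (by fun_prop : Continuous fun t : ℝ => t + x)).continuousOn.integrableOn_Icc)
      · exact Eventually.of_forall fun u => Zn_nonneg h0 hδp.le _
    rw [e1]
    refine ENNReal.ofReal_le_ofReal ?_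
    rw [integral_Icc_eq_integral_Ioc, ← intervalIntegral.integral_of_le (by linarith),
      intervalIntegral.integral_comp_add_right (fun u => Zn α δ u) x]
    refine le_trans ?_ g2
    exact intervalIntegral.integral_mono_interval (by linarith [hx.1]) (by linarith) (by linarith [hx.2])
        (Eventually.of_forall fun u => Zn_nonneg h0 hδp.le _) (hZc.intervalIntegrable _ _)
  calc ∫⁻ x in V, (∫⁻ t in Set.Icc 1 T, ENNReal.ofReal (Zn α δ (t + x))) ∂μ ≤ ∫⁻ _ in V, ENNReal.ofReal (40 * T) ∂μ :=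
        lintegral_mono_ae h5
    _ = ENNReal.ofReal (40 * T) * μ V := setLIntegral_const _ _

theorem deg_ball [IsFiniteMeasure μ] (hμs : ∀ᵐ x ∂μ, x ∈ Set.Icc (0:ℝ) 1) (h0 : 0 < α) (h1 : α ≤ 1)
    {V : Set ℝ} (hV : MeasurableSet V)
    (hb : ∀ᵐ x ∂μ, x ∈ V → ∃ s : ℝ, s < α ^ 2 ∧ ∃ r0 : ℝ, 0 < r0 ∧ ∀ r : ℝ, 0 < r →
      r ≤ r0 → ENNReal.ofReal (r ^ s) ≤ μ (Set.Icc (x - r) (x + r))) {δ : ℝ → ℝ} (hδ : Pd δ)
    {η ε : ℝ} (hη : 0 < η) (hε : 0 < ε) : ∀ᶠ T : ℝ in atTop, prop (μ.restrict V) α δ η T ≤ ENNReal.ofReal (ε * T) := by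
  have hα2 : 0 < α ^ 2 := by positivity
  obtain ⟨n, hn⟩ : ∃ n, μ (V ∩ (Cn μ α n)ᶜ) ≤ ENNReal.ofReal (ε * η / 400) :=
    ((Cn_lim h0 hV hb).eventually_le_const (by simpa using (show 0 < ε * η / 400 by positivity))).exists
  obtain ⟨s, hs⟩ : ∃ s : ℝ, s = α ^ 2 * (1 - 1 / ((n:ℝ) + 2)) := ⟨_, rfl⟩
  obtain ⟨p, hp⟩ : ∃ p : ℝ, p = 1 - 1 / (2 * ((n:ℝ) + 2)) := ⟨_, rfl⟩
  have hn0 : (0:ℝ) ≤ n := Nat.cast_nonneg n
  have f1 : 0 < 1 / ((n:ℝ) + 2) := by positivity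
  have f2 : 1 / ((n:ℝ) + 2) ≤ 1 / 2 := one_div_le_one_div_of_le (by norm_num) (by linarith)
  have f3 : 1 / (2 * ((n:ℝ) + 2)) = (1 / ((n:ℝ) + 2)) / 2 := by field_simp
  have hs0 : 0 < s := by rw [hs]; exact mul_pos hα2 (by linarith)
  have hp0 : 0 < p := by rw [hp, f3]; linarith
  have hp1 : p < 1 := by rw [hp, f3]; linarith
  have hsp : s < α ^ 2 * p := by rw [hs, hp, f3]; exact mul_lt_mul_of_pos_left (by linarith) hα2
  have hαp : α * p ≤ 2 := by nlinarith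
  set M : ℝ := μ.real Set.univ with hM
  have hM0 : 0 ≤ M := measureReal_nonneg
  obtain ⟨N, hN⟩ : ∃ N : ℝ, N = 3 * M * 2 ^ s + 1 := ⟨_, rfl⟩
  have hN0 : 0 < N := by rw [hN]; positivity
  have hev := good_prob (μ := μ) h0 hp0 hp1 hαp hsp hN0 hδ (half_pos hη) (show 0 < ε / 4 by positivity)
  obtain ⟨lam, δ0, hl1, hd0, hd16, hbad⟩ := bad_avg (μ := μ) hμs h0 (by linarith)
  filter_upwards [hev, hbad, hδ.t0.eventually_le_const hd0, eventually_ge_atTop (4 / ε),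
    eventually_ge_atTop 256, hδ.tL.eventually_ge_atTop lam,
    hδ.t0.eventually_le_const (show (0:ℝ) < 1 / ((n:ℝ) + 1) by positivity)] with T g1 g2 g3 g4 hT g5 g6
  have hL0 : 0 < Real.log T := Real.log_pos (by linarith)
  have hd1 : lam / Real.log T ≤ δ T := by rw [div_le_iff₀ hL0]; exact g5
  have hδp : 0 < δ T := lt_of_lt_of_le (div_pos (by linarith) hL0) hd1
  have hZc := Zn_cont' (δ := δ T) h0 (by linarith)
  obtain ⟨G, hG⟩ : ∃ G : Finset ℤ, G = (gr (δ T)).filter fun j => ENNReal.ofReal ((δ T / 2) ^ s) ≤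
    μ (Ij (δ T) (j - 1)) + μ (Ij (δ T) j) + μ (Ij (δ T) (j + 1)) := by classical exact ⟨_, rfl⟩
  have hG1 : ∀ j ∈ G, 0 ≤ j ∧ (j:ℝ) * δ T ≤ 1 := by
    intro j hj
    rw [hG, Finset.mem_filter] at hj
    exact gr_mem hδp hj.1
  have hG2 : (#G : ℝ) ≤ N * δ T ^ (-s) := by
    have h := card_good (μ := μ) hδp (show 0 < (δ T / 2) ^ s by positivity) G (by
      intro j hj
      rw [hG, Finset.mem_filter] at hj
      exact hj.2)
    refine h.trans ?_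
    rw [Real.div_rpow hδp.le (by norm_num), Real.rpow_neg hδp.le, hN, ← hM]
    have e1 : 0 < δ T ^ s := by positivity
    have e2 : 3 * M / (δ T ^ s / 2 ^ s) = 3 * M * 2 ^ s * (δ T ^ s)⁻¹ := by field_simp
    rw [e2]
    gcongr
    linarith
  have h2 := g1 G hG1 hG2
  set U : Set ℝ := ⋃ j ∈ G, Ij (δ T) j with hU
  have hUm : MeasurableSet U := Finset.measurableSet_biUnion _ fun j _ => Ij_meas _ j
  -- good points are covered
  have hcov : μ (V ∩ Uᶜ) ≤ ENNReal.ofReal (ε * η / 400) := by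
    refine le_trans ?_ hn
    have e1 : ∀ᵐ x ∂μ, x ∈ V ∩ Uᶜ → x ∈ V ∩ (Cn μ α n)ᶜ := by
      filter_upwards [hμs] with x hx hxU
      refine ⟨hxU.1, fun hxC => hxU.2 ?_⟩
      rw [hU, Set.mem_iUnion₂]
      refine ⟨⌊x / δ T⌋, ?_, (mem_Ij hδp _).mpr rfl⟩
      rw [hG, Finset.mem_filter]
      refine ⟨gr_floor hδp hx, ?_⟩
      obtain ⟨r, hr1, hr2⟩ := exists_rat_btwn (show δ T / 2 < δ T by linarith)
      have h3 := hxC r (by linarith) (hr2.le.trans g6)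
      rw [← hs] at h3
      have h4 := (mem_Ij hδp (x := x) ⌊x / δ T⌋).mpr rfl
      obtain ⟨j, hj⟩ : ∃ j : ℤ, j = ⌊x / δ T⌋ := ⟨_, rfl⟩
      rw [← hj] at h4 ⊢
      rw [Ij, Set.mem_Ico] at h4
      have h5 : Set.Icc (x - r) (x + r) ⊆ Ij (δ T) (j - 1) ∪ Ij (δ T) j ∪ Ij (δ T) (j + 1) := by
        intro y hy
        simp only [Ij, Set.mem_union, Set.mem_Ico]
        push_cast
        obtain ⟨hy1, hy2⟩ := hy
        rcases lt_or_ge y ((j:ℝ) * δ T) with h6 | h6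
        · exact Or.inl (Or.inl ⟨by linarith, by linarith⟩)
        · rcases lt_or_ge y (((j:ℝ) + 1) * δ T) with h7 | h7
          · exact Or.inl (Or.inr ⟨h6, h7⟩)
          · exact Or.inr ⟨h7, by linarith⟩
      calc ENNReal.ofReal ((δ T / 2) ^ s) ≤ ENNReal.ofReal ((r:ℝ) ^ s) :=
            ENNReal.ofReal_le_ofReal (Real.rpow_le_rpow (by positivity) hr1.le hs0.le)
        _ ≤ μ (Set.Icc (x - r) (x + r)) := h3
        _ ≤ μ (Ij (δ T) (j - 1) ∪ Ij (δ T) j ∪ Ij (δ T) (j + 1)) := measure_mono h5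
        _ ≤ μ (Ij (δ T) (j - 1)) + μ (Ij (δ T) j) + μ (Ij (δ T) (j + 1)) :=
            (measure_union_le _ _).trans (by gcongr; exact measure_union_le _ _)
    exact measure_mono_ae e1
  set Fg : ℝ → ℝ≥0∞ := fun t => ∫⁻ x in U, ENNReal.ofReal (Zn α (δ T) (t + x)) ∂μ with hFg
  set Fb : ℝ → ℝ≥0∞ := fun t => ∫⁻ x in V ∩ Uᶜ, ENNReal.ofReal (Zn α (δ T) (t + x)) ∂μ with hFb
  have h3 : ∀ t, ENNReal.ofReal (WI (μ.restrict V) (fun _ => 1) (Zn α (δ T)) t) ≤ Fg t + Fb t := by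
    intro t
    rw [WI_lint (ae_restrict_of_ae hμs) hZc (fun x => Zn_nonneg h0 hδp.le x), hFg, hFb]
    have e1 : V ⊆ U ∪ (V ∩ Uᶜ) := by
      intro x hx
      by_cases hxU : x ∈ U
      · exact Or.inl hxU
      · exact Or.inr ⟨hx, hxU⟩
    exact (lintegral_mono_set e1).trans (lintegral_union_le _ _ _)
  -- bad part
  have hb1 : volume {t ∈ Set.Icc 1 T | ENNReal.ofReal (η / 2) ≤ Fb t} ≤ ENNReal.ofReal (ε / 4 * T) := by
    have e1 : {t ∈ Set.Icc 1 T | ENNReal.ofReal (η / 2) ≤ Fb t} ⊆ {t | ENNReal.ofReal (η / 2) ≤ Fb t} ∩ Set.Icc 1 T := by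
      rintro t ⟨ht1, ht2⟩
      exact ⟨ht2, ht1⟩
    have e2 := mul_meas_ge_le_lintegral (μ := volume.restrict (Set.Icc 1 T)) (U_meas μ hZc (V ∩ Uᶜ)) (ENNReal.ofReal (η / 2))
    have e3 : ENNReal.ofReal (η / 2) * volume {t ∈ Set.Icc 1 T | ENNReal.ofReal (η / 2) ≤ Fb t} ≤
        ENNReal.ofReal (η / 2) * ENNReal.ofReal (ε / 4 * T) := by
      calc ENNReal.ofReal (η / 2) * volume {t ∈ Set.Icc 1 T | ENNReal.ofReal (η / 2) ≤ Fb t}
          ≤ ∫⁻ t in Set.Icc 1 T, Fb t := by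
            refine le_trans ?_ e2
            rw [Measure.restrict_apply' measurableSet_Icc]
            exact mul_le_mul_right (measure_mono e1) _
        _ ≤ ENNReal.ofReal (40 * T) * μ (V ∩ Uᶜ) := g2 (δ T) hd1 g3 _ (hV.inter hUm.compl)
        _ ≤ ENNReal.ofReal (40 * T) * ENNReal.ofReal (ε * η / 400) := by gcongr
        _ ≤ ENNReal.ofReal (η / 2) * ENNReal.ofReal (ε / 4 * T) := by
            rw [← ENNReal.ofReal_mul (by positivity), ← ENNReal.ofReal_mul (by positivity)]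
            refine ENNReal.ofReal_le_ofReal ?_
            have : 0 ≤ ε * η * T := by positivity
            nlinarith
    exact (ENNReal.mul_le_mul_iff_right (by simpa using hη) ENNReal.ofReal_ne_top).mp e3
  have h5 : prop (μ.restrict V) α δ η T ≤ volume ({t | ENNReal.ofReal (η / 2) ≤ Fg t ∨ ENNReal.ofReal (η / 2) ≤ Fb t} ∩ Set.Icc 0 T) := by
    unfold prop
    refine measure_mono ?_
    rintro t ⟨ht1, ht2⟩
    refine ⟨?_, ht1⟩
    by_contra hcon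
    have hcon' : ¬ (ENNReal.ofReal (η / 2) ≤ Fg t ∨ ENNReal.ofReal (η / 2) ≤ Fb t) := hcon
    push Not at hcon'
    have e1 : ENNReal.ofReal η ≤ Fg t + Fb t := (ENNReal.ofReal_le_ofReal ht2).trans (h3 t)
    have e2 : Fg t + Fb t < ENNReal.ofReal (η / 2) + ENNReal.ofReal (η / 2) := ENNReal.add_lt_add hcon'.1 hcon'.2
    rw [← ENNReal.ofReal_add (by positivity) (by positivity), show η / 2 + η / 2 = η by ring] at e2
    exact absurd e1 (not_le.mpr e2)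
  refine h5.trans ((split_vol _ _).trans ?_)
  have h6 : {t | ENNReal.ofReal (η / 2) ≤ Fg t ∨ ENNReal.ofReal (η / 2) ≤ Fb t} ∩ Set.Icc 1 T ⊆
      {t ∈ Set.Icc 1 T | ENNReal.ofReal (η / 2) ≤ Fg t} ∪ {t ∈ Set.Icc 1 T | ENNReal.ofReal (η / 2) ≤ Fb t} := by
    rintro t ⟨ht1, ht2⟩
    rcases ht1 with ht1 | ht1
    · exact Or.inl ⟨ht2, ht1⟩
    · exact Or.inr ⟨ht2, ht1⟩
  have h7 : (1:ℝ≥0∞) ≤ ENNReal.ofReal (ε / 4 * T) := by
    rw [← ENNReal.ofReal_one]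
    refine ENNReal.ofReal_le_ofReal ?_
    rw [div_le_iff₀ hε] at g4
    linarith
  calc (1:ℝ≥0∞) + volume ({t | ENNReal.ofReal (η / 2) ≤ Fg t ∨ ENNReal.ofReal (η / 2) ≤ Fb t} ∩ Set.Icc 1 T)
      ≤ ENNReal.ofReal (ε / 4 * T) + (ENNReal.ofReal (ε / 4 * T) + ENNReal.ofReal (ε / 4 * T)) :=
        add_le_add h7 ((measure_mono h6).trans ((measure_union_le _ _).trans (add_le_add h2 hb1)))
    _ ≤ ENNReal.ofReal (ε * T) := by
      have : 0 ≤ ε / 4 * T := by positivity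
      rw [← ENNReal.ofReal_add this this, ← ENNReal.ofReal_add this (by positivity)]
      exact ENNReal.ofReal_le_ofReal (by linarith)

end Run7.h772.KH
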