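import Pool.Agent.N748.GC.Cor2

set_option autoImplicit false

/-!
# The first moment of the normalised weight, for exponents up to four
-/

namespace Run7.h772.KH

open Finset Filter MeasureTheory MonoidAlgebra Topology Complex
open Pool.Agent.N748.GC
open Pool.Agent.Y755 Pool.Agent.W184.NZ
open Pool.Agent.Y753.NL
open Pool.Agent.W184 (zn zn_nonneg zn_cont zn_le')
open Pool.Agent.H306R2 (aF aF_pos)

theorem first {α : ℝ} (h0 : 0 < α) (h2 : α ≤ 2) : ∃ lam δ0 : ℝ, 1 ≤ lam ∧ 0 < δ0 ∧ δ0 ≤ 1 / 16 ∧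
    ∀ᶠ X : ℝ in atTop, ∀ δ : ℝ, lam / Real.log X ≤ δ → δ ≤ δ0 → ∫ u in (0:ℝ)..(X + 1), Zn α δ u ≤ 40 * X := by
  obtain ⟨c, hc, hcf⟩ := cf_all h0 h2
  obtain ⟨zc, hcf⟩ := hcf (1 / 20) (by norm_num) (by norm_num) (1 / 50) (by norm_num) 1
  obtain ⟨hz1000, A0, m, lam1, δ1, η, Rs, Jf, hA0, hBd, hm1, hlam1, hδ1, hδ16, hη, hRs, hev⟩ := hcf zc le_rfl
  obtain ⟨δ4, hδ4, hDD⟩ := DD_unif h0 (ε := 1 / 20) (by norm_num)
  obtain ⟨lam5, δ5, hlam5, hδ5, hδ516, hlow⟩ := low_piece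
  obtain ⟨δ0, hδ0⟩ : ∃ δ0 : ℝ, δ0 = min (min δ1 δ4) δ5 := ⟨_, rfl⟩
  have d1 : δ0 ≤ δ1 := by rw [hδ0]; exact (min_le_left _ _).trans (min_le_left _ _)
  have d4 : δ0 ≤ δ4 := by rw [hδ0]; exact (min_le_left _ _).trans (min_le_right _ _)
  have d5 : δ0 ≤ δ5 := by rw [hδ0]; exact min_le_right _ _
  have d0 : 0 < δ0 := by rw [hδ0]; exact lt_min (lt_min hδ1 hδ4) hδ5
  obtain ⟨lam, hlam⟩ : ∃ lam : ℝ, lam = max lam1 lam5 := ⟨_, rfl⟩
  have l1 : lam1 ≤ lam := by rw [hlam]; exact le_max_left _ _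
  have l5 : lam5 ≤ lam := by rw [hlam]; exact le_max_right _ _
  have l0 : 1 ≤ lam := hlam1.trans l1
  refine ⟨lam, δ0, l0, d0, d1.trans hδ16, ?_⟩
  have ht : Tendsto (fun X : ℝ => 2 * (X + 1)) atTop atTop :=
    (tendsto_atTop_add_const_right _ _ tendsto_id).const_mul_atTop (by norm_num)
  have haF := aF_pos h0
  have ht2 : Tendsto (fun X : ℝ => 2 * X) atTop atTop := tendsto_id.const_mul_atTop (by norm_num)
  filter_upwards [ht.eventually hev, ht2.eventually (hlow (aF α) haF), eventually_ge_atTop 256] with X g1 g2 hX δ hd1 hd2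
  have hX0 : 0 < X := by linarith
  have hL0 : 0 < Real.log X := Real.log_pos (by linarith)
  have hδp : 0 < δ := lt_of_lt_of_le (div_pos (by linarith) hL0) hd1
  have hXl := ASM.Xl_le hX
  have hXl0 : 0 ≤ Xl X := by unfold Xl; positivity
  have hL2 : Real.log X ≤ Real.log (2 * (X + 1)) := Real.log_le_log hX0 (by linarith)
  have hL3 : Real.log X ≤ Real.log (2 * X) := Real.log_le_log hX0 (by linarith)
  have hd3 : lam1 / Real.log (2 * (X + 1)) ≤ δ := by
    refine le_trans (div_le_div_of_nonneg_left (by linarith) hL0 hL2) (le_trans ?_ hd1)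
    exact div_le_div_of_nonneg_right l1 hL0.le
  have hd5 : lam5 / Real.log (2 * X) ≤ δ := by
    refine le_trans (div_le_div_of_nonneg_left (by linarith) hL0 hL3) (le_trans ?_ hd1)
    exact div_le_div_of_nonneg_right l5 hL0.le
  obtain ⟨V, Q1, Q2, N, K, H, -, hB3⟩ := g1 δ hd3 (hd2.trans d1)
  have hXX : 2 * (X + 1) / 2 = X + 1 := by ring
  have hXlX : (2 * (X + 1)) ^ ((4:ℝ)/5) = Xl X := rfl
  have hZc := Zn_cont' (δ := δ) h0 (by have := H.id1; linarith)
  have c0 := H.c0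
  have hp0 : 0 < (2 * δ) ^ (α ^ 2) := by positivity
  have hD := hDD δ hδp (hd2.trans d4)
  have hfa := (abs_le.mp H.fa).2
  rw [hXX, hXlX] at hfa
  set Nn : ℝ := ip δ A0 A0 * Real.exp (α ^ 2 * V) with hNn
  -- the upper part
  have u1 : ∫ u in Xl X..(X + 1), Zn α δ u ≤ 30 * X := by
    have e1 : ∫ u in Xl X..(X + 1), Zn α δ u = (2 * δ) ^ (α ^ 2) / aF α * ∫ u in Xl X..(X + 1), zn (1 / 2 + δ) u ^ (2 * α) := by
      rw [← intervalIntegral.integral_const_mul]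
      refine intervalIntegral.integral_congr fun u _ => ?_
      exact Zn_eq α δ u
    have hNn0 : 0 ≤ Nn := by
      have := H.iB1
      positivity
    have hI : ∫ u in Xl X..(X + 1), zn (1 / 2 + δ) u ^ (2 * α) ≤ 11 * ((X + 1) * Nn) := by
      have : 0 ≤ (X + 1) * Nn := by positivity
      linarith
    have hNb : (2 * δ) ^ (α ^ 2) * Nn ≤ 1.3 * aF α := by
      have g1 := (abs_le.mp hB3).2
      have g2 := (abs_le.mp hD).2
      have g3 : Nn ≤ 1.15 * DD α δ := by linarith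
      have g4 : (2 * δ) ^ (α ^ 2) * Nn ≤ 1.15 * ((2 * δ) ^ (α ^ 2) * DD α δ) := by
        calc (2 * δ) ^ (α ^ 2) * Nn ≤ (2 * δ) ^ (α ^ 2) * (1.15 * DD α δ) := mul_le_mul_of_nonneg_left g3 hp0.le
          _ = _ := by ring
      nlinarith
    rw [e1]
    calc (2 * δ) ^ (α ^ 2) / aF α * ∫ u in Xl X..(X + 1), zn (1 / 2 + δ) u ^ (2 * α)
        ≤ (2 * δ) ^ (α ^ 2) / aF α * (11 * ((X + 1) * Nn)) := mul_le_mul_of_nonneg_left hI (by positivity)
      _ = 11 * (X + 1) * ((2 * δ) ^ (α ^ 2) * Nn) / aF α := by ring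
      _ ≤ 11 * (X + 1) * (1.3 * aF α) / aF α := by gcongr
      _ = 14.3 * (X + 1) := by field_simp; ring
      _ ≤ 30 * X := by linarith
  -- the lower part
  have u2 : ∫ u in (0:ℝ)..(Xl X), Zn α δ u ≤ 2 * X := by
    have h6 := g2 δ hd5 (hd2.trans d5) α h0 h2
    have h7 : Xl X ≤ (2 * (2 * X)) ^ ((4:ℝ)/5) := by
      unfold Xl
      exact Real.rpow_le_rpow (by positivity) (by linarith) (by norm_num)
    have hzc : Continuous fun u => zn (1 / 2 + δ) u ^ (2 * α) := znp_cont (by linarith) (by linarith)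
    have g1' : ∫ u in (0:ℝ)..(Xl X), Zn α δ u ≤ ∫ u in (0:ℝ)..(Xl X), 1 / aF α * zn (1 / 2 + δ) u ^ (2 * α) := by
      refine intervalIntegral.integral_mono_on hXl0 (hZc.intervalIntegrable _ _)
        ((hzc.const_mul _).intervalIntegrable _ _) fun u _ => ?_
      rw [Zn_eq]
      refine mul_le_mul_of_nonneg_right ?_ (Real.rpow_nonneg (zn_nonneg _ _) _)
      refine div_le_div_of_nonneg_right ?_ haF.le
      exact Real.rpow_le_one (by positivity) (by have := H.id1; linarith) (by positivity)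
    refine g1'.trans ?_
    rw [intervalIntegral.integral_const_mul]
    have g2' : ∫ u in (0:ℝ)..(Xl X), zn (1 / 2 + δ) u ^ (2 * α) ≤
        ∫ t in (0:ℝ)..((2 * (2 * X)) ^ ((4:ℝ)/5)), zn (1 / 2 + δ) t ^ (2 * α) :=
      intervalIntegral.integral_mono_interval le_rfl hXl0 h7
        (Eventually.of_forall fun u => Real.rpow_nonneg (zn_nonneg _ _) _) (hzc.intervalIntegrable _ _)
    calc 1 / aF α * ∫ u in (0:ℝ)..(Xl X), zn (1 / 2 + δ) u ^ (2 * α) ≤ 1 / aF α * (aF α * (2 * X)) :=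
          mul_le_mul_of_nonneg_left (g2'.trans h6) (by positivity)
      _ = 2 * X := by field_simp
  rw [← intervalIntegral.integral_add_adjacent_intervals (hZc.intervalIntegrable 0 (Xl X))
    (hZc.intervalIntegrable (Xl X) (X + 1))]
  linarith

end Run7.h772.KH
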