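import Pool.Agent.Run7.h772.KH.Lim
import Pool.Agent.Run7.h772.KH.First

set_option autoImplicit false

/-!
# Measures with finite potential of some order above `α²` almost everywhere
-/

namespace Run7.h772.KH

open Finset Filter MeasureTheory Topology Pool.Agent.N748.GC
open scoped ENNReal

variable {μ : Measure ℝ} {α : ℝ}

/-- the potential -/
noncomputable def pot (μ : Measure ℝ) (s x : ℝ) : ℝ≥0∞ := ∫⁻ v, (ENNReal.ofReal |x - v|) ^ (-s) ∂μ

lemma pot_meas [IsFiniteMeasure μ] (s : ℝ) : Measurable (pot μ s) := by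
  have h : Measurable fun p : ℝ × ℝ => (ENNReal.ofReal |p.1 - p.2|) ^ (-s) := by
    refine Measurable.pow_const ?_ _
    exact ((measurable_fst.sub measurable_snd).abs).ennreal_ofReal
  exact h.lintegral_prod_right'

lemma pot_mono [IsFiniteMeasure μ] (hμs : ∀ᵐ x ∂μ, x ∈ Set.Icc (0:ℝ) 1) {s s' x : ℝ} (hs : 0 < s) (hss : s ≤ s')
    (hx : x ∈ Set.Icc (0:ℝ) 1) : pot μ s x ≤ pot μ s' x := by
  unfold pot
  refine lintegral_mono_ae ?_
  filter_upwards [hμs] with v hv
  have h1 : |x - v| ≤ 1 := abs_le.mpr ⟨by linarith [hx.1, hv.2], by linarith [hx.2, hv.1]⟩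
  by_cases h0 : |x - v| = 0
  · rw [h0, ENNReal.ofReal_zero, ENNReal.zero_rpow_of_neg (by linarith), ENNReal.zero_rpow_of_neg (by linarith)]
  · have h2 : 0 < |x - v| := lt_of_le_of_ne (abs_nonneg _) (Ne.symm h0)
    rw [ENNReal.ofReal_rpow_of_pos h2, ENNReal.ofReal_rpow_of_pos h2]
    exact ENNReal.ofReal_le_ofReal (Real.rpow_le_rpow_of_exponent_ge h2 h1 (by linarith))

lemma conv1' [IsFiniteMeasure μ] (hμs : ∀ᵐ x ∂μ, x ∈ Set.Icc (0:ℝ) 1) {h : ℝ → ℝ} (hc : Continuous h)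
    (h0 : ∀ u, 0 ≤ h u) {a b : ℝ} (hab : a ≤ b) :
    ∫ t in a..b, ∫ x, h (t + x) ∂μ ≤ μ.real Set.univ * ∫ u in a..(b + 1), h u := by
  rw [swapM hμs hc hab]
  have h2 : ∀ x ∈ Set.Icc (0:ℝ) 1, ∫ t in a..b, h (t + x) ≤ ∫ u in a..(b + 1), h u := by
    intro x hx
    rw [intervalIntegral.integral_comp_add_right]
    refine intervalIntegral.integral_mono_interval (by linarith [hx.1]) (by linarith) (by linarith [hx.2])
      (Eventually.of_forall h0) (hc.intervalIntegrable _ _)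
  have hcx : Continuous fun x : ℝ => ∫ t in a..b, h (t + x) :=
    intervalIntegral.continuous_parametric_intervalIntegral_of_continuous' (by
      show Continuous fun q : ℝ × ℝ => h (q.2 + q.1)
      fun_prop) a b
  calc ∫ x, (∫ t in a..b, h (t + x)) ∂μ ≤ ∫ x, (∫ u in a..(b + 1), h u) ∂μ := by
        refine integral_mono_ae (cint hμs hcx) (integrable_const _) ?_
        filter_upwards [hμs] with x hx using h2 x hx
    _ = μ.real Set.univ * ∫ u in a..(b + 1), h u := by rw [integral_const, smul_eq_mul]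

lemma win_le' [IsFiniteMeasure μ] (hμs : ∀ᵐ x ∂μ, x ∈ Set.Icc (0:ℝ) 1) {f g h : ℝ → ℝ} (hf : Measurable f)
    (hf1 : ∀ x, |f x| ≤ 1) (hg : Continuous g) (hh : Continuous h)
    (hgh : ∀ u, |g u| ≤ h u) {a b : ℝ} (hab : a ≤ b) :
    ∫ t in a..b, |WI μ f g t| ≤ μ.real Set.univ * ∫ u in a..(b + 1), h u := by
  refine le_trans ?_ (conv1' hμs hh (fun u => (abs_nonneg _).trans (hgh u)) hab)
  exact intervalIntegral.integral_mono_on hab ((WI_cont hμs hf hf1 hg).abs.intervalIntegrable _ _)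
    ((WI_one hμs hh).intervalIntegrable _ _) fun t _ => WI_le hμs hf1 hh hgh t

lemma mz_first (α : ℝ) (z : ℕ) : ∀ᶠ X : ℝ in atTop, ∫ u in (0:ℝ)..(X + 1), mz α z u ≤ 3 * X := by
  obtain ⟨H0, hH0, hH⟩ := ERG.main (Sm z) (QC.Sm_prime z) (M0 α (Sm z)) (QC.M0_cont α (QC.Sm_prime z)) 1 one_pos
  filter_upwards [eventually_ge_atTop H0, eventually_ge_atTop 3] with X h1 h2
  have h3 := (abs_le.mp (hH (X + 1) (by linarith) 0)).2
  rw [QC.M0_int α (QC.Sm_prime z), zero_add] at h3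
  have h4 : (∫ u in (0:ℝ)..(X + 1), M0 α (Sm z) (pt (Sm z) u)) / (X + 1) ≤ 2 := by linarith
  rw [div_le_iff₀ (by linarith)] at h4
  have h5 : ∫ u in (0:ℝ)..(X + 1), mz α z u = ∫ u in (0:ℝ)..(X + 1), M0 α (Sm z) (pt (Sm z) u) := rfl
  rw [h5]
  linarith

/-- closeness from finite potentials -/
theorem CM_of_pot [IsFiniteMeasure μ] (hμs : ∀ᵐ x ∂μ, x ∈ Set.Icc (0:ℝ) 1) (h0 : 0 < α) (h1 : α < 1)
    (hp : ∀ᵐ x ∂μ, ∃ s : ℝ, α ^ 2 < s ∧ pot μ s x < ⊤) : CM α μ := by
  intro ε hε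
  have hα2 : 0 < α ^ 2 := by positivity
  set A : ℕ → Set ℝ := fun n => {x | pot μ (α ^ 2 + 1 / ((n:ℝ) + 1)) x ≤ (n : ℝ≥0∞)} with hA
  have hAm : ∀ n, MeasurableSet (A n) := fun n => measurableSet_le (pot_meas _) measurable_const
  have hlim : ∀ᵐ x ∂μ, ∀ᶠ n : ℕ in atTop, x ∈ (A n)ᶜ ↔ x ∈ (∅ : Set ℝ) := by
    filter_upwards [hp, hμs] with x ⟨s, hs, hx⟩ hx1
    have e1 : Tendsto (fun n : ℕ => 1 / ((n:ℝ) + 1)) atTop (𝓝 0) := tendsto_one_div_add_atTop_nhds_zero_nat
    obtain ⟨m, hm⟩ := ENNReal.exists_nat_gt hx.ne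
    filter_upwards [e1.eventually_le_const (show (0:ℝ) < s - α ^ 2 by linarith), eventually_ge_atTop m] with n hn hn2
    simp only [Set.mem_compl_iff, Set.mem_empty_iff_false, iff_false, not_not]
    show pot μ (α ^ 2 + 1 / ((n:ℝ) + 1)) x ≤ (n : ℝ≥0∞)
    refine (pot_mono hμs (by positivity) (s' := s) (by linarith) hx1).trans (hm.le.trans ?_)
    exact_mod_cast hn2
  have hten := tendsto_measure_of_ae_tendsto_indicator_of_isFiniteMeasure (L := atTop) (μ := μ) MeasurableSet.empty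
    (fun n => (hAm n).compl) hlim
  rw [measure_empty] at hten
  set M : ℝ := μ.real Set.univ with hM
  have hM0 : 0 ≤ M := measureReal_nonneg
  obtain ⟨n, hn⟩ : ∃ n, μ ((A n)ᶜ) ≤ ENNReal.ofReal (ε / 100) :=
    (hten.eventually_le_const (by simpa using (show 0 < ε / 100 by positivity))).exists
  have hnr : μ.real ((A n)ᶜ) ≤ ε / 100 := ENNReal.toReal_le_of_le_ofReal (by positivity) hn
  set c : ℝ := 1 / (M + 1) with hc
  have hc0 : 0 < c := by positivity
  have hc1 : c ≤ 1 := by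
    rw [hc, div_le_one (by positivity)]
    linarith
  have hμM : μ Set.univ = ENNReal.ofReal M := by
    rw [hM, Measure.real, ENNReal.ofReal_toReal (measure_ne_top _ _)]
  set ν : Measure ℝ := ENNReal.ofReal c • μ.restrict (A n) with hν
  have hFP : FP (α ^ 2 + 1 / ((n:ℝ) + 1)) n ν := by
    refine ⟨?_, ?_, ?_⟩
    · rw [hν, Measure.smul_apply, smul_eq_mul]
      calc ENNReal.ofReal c * (μ.restrict (A n)) Set.univ ≤ ENNReal.ofReal c * μ Set.univ := by
            gcongr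
            exact Measure.restrict_le_self
        _ = ENNReal.ofReal (c * M) := by rw [hμM, ENNReal.ofReal_mul hc0.le]
        _ ≤ 1 := by
            rw [← ENNReal.ofReal_one]
            refine ENNReal.ofReal_le_ofReal ?_
            rw [hc, one_div, inv_mul_le_iff₀ (by positivity)]
            linarith
    · exact Measure.ae_smul_measure (ae_restrict_of_ae hμs) _
    · refine Measure.ae_smul_measure ?_ _
      filter_upwards [ae_restrict_mem (hAm n)] with u hu
      rw [hν, lintegral_smul_measure, smul_eq_mul]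
      have hu' : pot μ (α ^ 2 + 1 / ((n:ℝ) + 1)) u ≤ (n : ℝ≥0∞) := hu
      calc ENNReal.ofReal c * ∫⁻ v, (ENNReal.ofReal |u - v|) ^ (-(α ^ 2 + 1 / ((n:ℝ) + 1))) ∂(μ.restrict (A n))
          ≤ 1 * pot μ (α ^ 2 + 1 / ((n:ℝ) + 1)) u := by
            refine mul_le_mul' ?_ ?_
            · rw [← ENNReal.ofReal_one]
              exact ENNReal.ofReal_le_ofReal hc1
            · exact lintegral_mono' Measure.restrict_le_self le_rfl
        _ ≤ ENNReal.ofReal (n:ℝ) := by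
            rw [one_mul, ENNReal.ofReal_natCast]
            exact hu'
  have hpos : 0 < 1 / ((n:ℝ) + 1) := by positivity
  have hCM := coreMF h0 h1 (s0 := α ^ 2 + 1 / ((n:ℝ) + 1)) (by linarith) (Nat.cast_nonneg n) hFP
  obtain ⟨z0, hz0⟩ := hCM (c * (ε / 2)) (by positivity)
  obtain ⟨lam2, δ2, hlam2, hδ2, hδ216, hfirst⟩ := first h0 (by linarith)
  refine ⟨z0, fun z hz => ?_⟩
  obtain ⟨lam, δ0, hlam, hδ0, hδ1, hX⟩ := hz0 z hz
  refine ⟨max lam lam2, min δ0 δ2, hlam.trans (le_max_left _ _), lt_min hδ0 hδ2, (min_le_left _ _).trans hδ1, ?_⟩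
  filter_upwards [hX, hfirst, mz_first α z, eventually_gt_atTop 1] with X hX hF hmz hX1 δ hd1 hd2 f hf hf1
  have hX0 : 0 < X := by linarith
  have hL0 : 0 < Real.log X := Real.log_pos hX1
  have hdl : lam / Real.log X ≤ δ := le_trans (div_le_div_of_nonneg_right (le_max_left _ _) hL0.le) hd1
  have hdl2 : lam2 / Real.log X ≤ δ := le_trans (div_le_div_of_nonneg_right (le_max_right _ _) hL0.le) hd1
  have hδp : 0 < δ := lt_of_lt_of_le (div_pos (by linarith) hL0) hdl
  have hδ16 : δ ≤ 1 / 16 := (hd2.trans (min_le_left _ _)).trans hδ1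
  have hZc := LAM.Zn_cont h0 hδ16
  have hmc := QC.mz_cont α z
  have hgc : Continuous fun u => Zn α δ u - mz α z u := hZc.sub hmc
  have hhc : Continuous fun u => Zn α δ u + mz α z u := hZc.add hmc
  have hgh : ∀ u, |Zn α δ u - mz α z u| ≤ Zn α δ u + mz α z u := by
    intro u
    refine (abs_sub _ _).trans ?_
    rw [abs_of_nonneg (Zn_nonneg h0 hδp.le u), abs_of_pos (show 0 < mz α z u from QC.M0_pos α (QC.Sm_prime z) _)]
  have hμs1 : ∀ᵐ x ∂(μ.restrict (A n)), x ∈ Set.Icc (0:ℝ) 1 := ae_restrict_of_ae hμs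
  have hμs2 : ∀ᵐ x ∂(μ.restrict (A n)ᶜ), x ∈ Set.Icc (0:ℝ) 1 := ae_restrict_of_ae hμs
  -- the good part
  have r1 : ∫ t in (0:ℝ)..X, |WI (μ.restrict (A n)) f (fun u => Zn α δ u - mz α z u) t| ≤ ε / 2 * X := by
    have h3 := hX δ hdl (hd2.trans (min_le_left _ _)) f hf hf1
    have e1 : ∀ t, ∫ x, f x * (Zn α δ (t + x) - mz α z (t + x)) ∂ν =
        c * WI (μ.restrict (A n)) f (fun u => Zn α δ u - mz α z u) t := by
      intro t
      rw [hν, integral_smul_measure, ENNReal.toReal_ofReal hc0.le, smul_eq_mul]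
      rfl
    simp only [e1, abs_mul, abs_of_pos hc0] at h3
    rw [intervalIntegral.integral_const_mul, mul_assoc] at h3
    exact le_of_mul_le_mul_left h3 hc0
  -- the rest
  have r2 : ∫ t in (0:ℝ)..X, |WI (μ.restrict (A n)ᶜ) f (fun u => Zn α δ u - mz α z u) t| ≤ ε / 100 * (43 * X) := by
    refine (win_le' hμs2 hf hf1 hgc hhc hgh hX0.le).trans ?_
    have h4 : (μ.restrict (A n)ᶜ).real Set.univ ≤ ε / 100 := by
      rw [measureReal_restrict_apply MeasurableSet.univ, Set.univ_inter]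
      exact hnr
    have h5 : ∫ u in (0:ℝ)..(X + 1), (Zn α δ u + mz α z u) ≤ 43 * X := by
      rw [intervalIntegral.integral_add (hZc.intervalIntegrable _ _) (hmc.intervalIntegrable _ _)]
      have := hF δ hdl2 (hd2.trans (min_le_right _ _))
      linarith
    have h6 : 0 ≤ ∫ u in (0:ℝ)..(X + 1), (Zn α δ u + mz α z u) :=
      intervalIntegral.integral_nonneg (by linarith) fun u _ => (abs_nonneg _).trans (hgh u)
    exact mul_le_mul h4 h5 h6 (by positivity)
  have hsplit : ∀ t, |∫ x, f x * (Zn α δ (t + x) - mz α z (t + x)) ∂μ| ≤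
      |WI (μ.restrict (A n)) f (fun u => Zn α δ u - mz α z u) t| +
      |WI (μ.restrict (A n)ᶜ) f (fun u => Zn α δ u - mz α z u) t| := by
    intro t
    have hi : Integrable (fun x => f x * (Zn α δ (t + x) - mz α z (t + x))) μ := wint hμs hf hf1 hgc t
    rw [← integral_add_compl (hAm n) hi]
    exact abs_add_le _ _
  have k0 : Continuous fun t : ℝ => |∫ x, f x * (Zn α δ (t + x) - mz α z (t + x)) ∂μ| := (WI_cont hμs hf hf1 hgc).abs
  have k1 := (WI_cont hμs1 hf hf1 hgc).abs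
  have k2 := (WI_cont hμs2 hf hf1 hgc).abs
  calc ∫ t in (0:ℝ)..X, |∫ x, f x * (Zn α δ (t + x) - mz α z (t + x)) ∂μ|
      ≤ ∫ t in (0:ℝ)..X, (|WI (μ.restrict (A n)) f (fun u => Zn α δ u - mz α z u) t| +
          |WI (μ.restrict (A n)ᶜ) f (fun u => Zn α δ u - mz α z u) t|) :=
        intervalIntegral.integral_mono_on hX0.le (k0.intervalIntegrable _ _) ((k1.add k2).intervalIntegrable _ _)
          fun t _ => hsplit t
    _ = (∫ t in (0:ℝ)..X, |WI (μ.restrict (A n)) f (fun u => Zn α δ u - mz α z u) t|) +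
          ∫ t in (0:ℝ)..X, |WI (μ.restrict (A n)ᶜ) f (fun u => Zn α δ u - mz α z u) t| :=
        intervalIntegral.integral_add (k1.intervalIntegrable _ _) (k2.intervalIntegrable _ _)
    _ ≤ ε / 2 * X + ε / 100 * (43 * X) := add_le_add r1 r2
    _ ≤ ε * X := by nlinarith

end Run7.h772.KH
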