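import Pool.Agent.Run7.h772.KH.Ball
import Pool.Agent.Run7.h772.KH.Deg4

set_option autoImplicit false

/-!
# Arbitrary measures: the part of large dimension survives, the rest disappears
-/

namespace Run7.h772.KH

open Finset Filter MeasureTheory Topology Pool.Agent.N748.GC
open scoped ENNReal

variable {μ : Measure ℝ} {α : ℝ}

/-- the points of upper local dimension below `D` -/
def below (μ : Measure ℝ) (D : ℝ) : Set ℝ :=
  {x | ∃ s : ℝ, s < D ∧ ∃ r0 : ℝ, 0 < r0 ∧ ∀ r : ℝ, 0 < r → r ≤ r0 → ENNReal.ofReal (r ^ s) ≤ μ (Set.Icc (x - r) (x + r))}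

lemma avg_small {w D : ℝ → ℝ} (hw : Continuous w) (hD : Continuous D) {L B η T e : ℝ}
    (hL : 0 ≤ L) (hB : 0 ≤ B) (hη : 0 < η) (he : 0 ≤ e)
    (h1 : ∀ t, |D t| ≤ L * w t) (h2 : ∀ t, |D t| ≤ 2 * B) (hT : 0 < T)
    (hp : volume {t ∈ Set.Icc 0 T | η ≤ w t} ≤ ENNReal.ofReal (e * T)) :
    |∫ t in (0:ℝ)..T, D t| ≤ (L * η + 2 * B * e) * T := by
  have hA : MeasurableSet {t | η ≤ w t} := measurableSet_le measurable_const hw.measurable
  have h3 : |∫ t in (0:ℝ)..T, D t| ≤ ∫ t in (0:ℝ)..T, |D t| := intervalIntegral.abs_integral_le_integral_abs hT.le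
  refine h3.trans ?_
  rw [intervalIntegral.integral_of_le hT.le]
  have hfin : volume (Set.Ioc (0:ℝ) T) ≠ ⊤ := by
    rw [Real.volume_Ioc]
    exact ENNReal.ofReal_ne_top
  have ic : ∀ c : ℝ, IntegrableOn (fun _ : ℝ => c) (Set.Ioc 0 T) volume := fun c => integrableOn_const hfin
  have hi1 : IntegrableOn (fun t => |D t|) (Set.Ioc 0 T) volume := hD.abs.integrableOn_Ioc
  have hi2 : IntegrableOn (fun t => L * η + {t | η ≤ w t}.indicator (fun _ => 2 * B) t) (Set.Ioc 0 T) volume :=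
    (ic _).add ((ic _).indicator hA)
  have h4 : ∫ t in Set.Ioc 0 T, |D t| ≤ ∫ t in Set.Ioc 0 T, (L * η + {t | η ≤ w t}.indicator (fun _ => 2 * B) t) := by
    refine setIntegral_mono hi1 hi2 fun t => ?_
    by_cases ht : η ≤ w t
    · rw [Set.indicator_of_mem (show t ∈ {t | η ≤ w t} from ht)]
      have := h2 t
      have : 0 ≤ L * η := by positivity
      show |D t| ≤ L * η + 2 * B
      linarith [h2 t]
    · rw [Set.indicator_of_notMem (show t ∉ {t | η ≤ w t} from ht), add_zero]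
      refine (h1 t).trans ?_
      push Not at ht
      exact mul_le_mul_of_nonneg_left ht.le hL
  refine h4.trans ?_
  rw [integral_add (ic _) ((ic _).indicator hA),
    integral_indicator hA, Measure.restrict_restrict hA, setIntegral_const, setIntegral_const, smul_eq_mul, smul_eq_mul,
    Measure.real, Measure.real, Real.volume_Ioc]
  have h5 : volume ({t | η ≤ w t} ∩ Set.Ioc 0 T) ≤ ENNReal.ofReal (e * T) := by
    refine le_trans (measure_mono ?_) hp
    rintro t ⟨ht1, ht2⟩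
    exact ⟨⟨ht2.1.le, ht2.2⟩, ht1⟩
  have h6 := ENNReal.toReal_le_of_le_ofReal (by positivity) h5
  rw [sub_zero, ENNReal.toReal_ofReal hT.le]
  nlinarith

theorem uni [IsFiniteMeasure μ] (hμs : ∀ᵐ x ∂μ, x ∈ Set.Icc (0:ℝ) 1) (ha0 : 0 < α) (ha1 : α < 1)
    (hab : ∀ᵐ x ∂μ, x ∈ above μ (α ^ 2) ∪ below μ (α ^ 2))
    (Λ : (ℝ → ℝ) → Om → ℝ) (hΛ : LimM α (μ.restrict (above μ (α ^ 2))) Λ) (δ : ℝ → ℝ) (hδ : Pd δ) {n : ℕ}
    (f : Fin n → ℝ → ℝ) (hf : ∀ j, Ok (f j)) (G : (Fin n → ℝ) → ℝ) (L : NNReal) (hL : LipschitzWith L G)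
    {B : ℝ} (hB : ∀ y, |G y| ≤ B) :
    Tendsto (fun T : ℝ => (1 / T) * ∫ t in (0:ℝ)..T, G fun j => WI μ (f j) (Zn α (δ T)) t)
      atTop (𝓝 (∫ w, G (fun j => Λ (f j) w) ∂PO)) := by
  have hD : 0 < α ^ 2 := by positivity
  have hS := above_meas (μ := μ) hD
  set S := above μ (α ^ 2) with hSd
  have hνs : ∀ᵐ x ∂(μ.restrict S), x ∈ Set.Icc (0:ℝ) 1 := ae_restrict_of_ae hμs
  have hνc : ∀ᵐ x ∂(μ.restrict Sᶜ), x ∈ Set.Icc (0:ℝ) 1 := ae_restrict_of_ae hμs
  have h1 := (wassM hνs (CM_above hμs ha0 ha1) ha0 Λ hΛ δ hδ f hf G L hL).2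
  have hB0 : 0 ≤ B := (abs_nonneg _).trans (hB 0)
  refine h1.congr_dist ?_
  rw [Metric.tendsto_nhds]
  intro ε hε
  have hL0 : (0:ℝ) ≤ L := L.2
  obtain ⟨η, hη⟩ : ∃ η : ℝ, η = ε / (4 * (L + 1)) := ⟨_, rfl⟩
  obtain ⟨e, he⟩ : ∃ e : ℝ, e = ε / (8 * (B + 1)) := ⟨_, rfl⟩
  have hη0 : 0 < η := by rw [hη]; positivity
  have he0 : 0 < e := by rw [he]; positivity
  have hdeg := deg_ball (μ := μ) hμs ha0 ha1.le hS.compl (by
    filter_upwards [hab] with x hx hxS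
    rcases hx with hx | hx
    · exact absurd hx hxS
    · exact hx) hδ hη0 he0
  filter_upwards [hdeg, hδ.t0.eventually_le_const (show (0:ℝ) < 1 / 4 by norm_num), eventually_ge_atTop 256,
    hδ.tL.eventually_gt_atTop 0] with T g1 g2 hT g5
  have hL1 : 0 < Real.log T := Real.log_pos (by linarith)
  have hT0 : 0 < T := by linarith
  have hδp : 0 < δ T := by
    by_contra hcon
    push Not at hcon
    nlinarith
  have hZc := Zn_cont' (δ := δ T) ha0 (by linarith)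
  have hc1 : Continuous fun t : ℝ => G (fun j => WI (μ.restrict S) (f j) (Zn α (δ T)) t) :=
    hL.continuous.comp (continuous_pi fun j => WI_cont hνs (hf j).m (hf j).b hZc)
  have hc2 : Continuous fun t : ℝ => G (fun j => WI μ (f j) (Zn α (δ T)) t) :=
    hL.continuous.comp (continuous_pi fun j => WI_cont hμs (hf j).m (hf j).b hZc)
  set w : ℝ → ℝ := WI (μ.restrict Sᶜ) (fun _ => 1) (Zn α (δ T)) with hw
  have hwc : Continuous w := WI_cont hνc measurable_const (fun _ => by simp) hZc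
  have hw1 : ∀ t, w t = ∫ x, Zn α (δ T) (t + x) ∂(μ.restrict Sᶜ) := fun t => by
    rw [hw]; unfold WI; simp only [one_mul]
  have hw0 : ∀ t, 0 ≤ w t := fun t => by
    rw [hw1]
    exact integral_nonneg fun x => Zn_nonneg ha0 hδp.le _
  have hdiff : ∀ t j, |WI (μ.restrict S) (f j) (Zn α (δ T)) t - WI μ (f j) (Zn α (δ T)) t| ≤ w t := by
    intro t j
    have e1 : WI μ (f j) (Zn α (δ T)) t = WI (μ.restrict S) (f j) (Zn α (δ T)) t + WI (μ.restrict Sᶜ) (f j) (Zn α (δ T)) t := by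
      unfold WI
      exact (integral_add_compl hS (wint hμs (hf j).m (hf j).b hZc t)).symm
    rw [e1, sub_add_cancel_left, abs_neg, hw1]
    exact WI_le hνc (hf j).b hZc (fun u => by rw [abs_of_nonneg (Zn_nonneg ha0 hδp.le u)]) t
  have h3 := avg_small (D := fun t => G (fun j => WI (μ.restrict S) (f j) (Zn α (δ T)) t) - G (fun j => WI μ (f j) (Zn α (δ T)) t))
    hwc (hc1.sub hc2) hL0 hB0 hη0 he0.le (fun t => by
      have h4 := hL.dist_le_mul (fun j => WI (μ.restrict S) (f j) (Zn α (δ T)) t) (fun j => WI μ (f j) (Zn α (δ T)) t)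
      rw [Real.dist_eq] at h4
      refine h4.trans (mul_le_mul_of_nonneg_left ?_ hL0)
      rw [dist_pi_le_iff (hw0 t)]
      intro j
      rw [Real.dist_eq]
      exact hdiff t j) (fun t => by
      have h5 := hB (fun j => WI (μ.restrict S) (f j) (Zn α (δ T)) t)
      have h6 := hB (fun j => WI μ (f j) (Zn α (δ T)) t)
      have h7 := abs_sub (G (fun j => WI (μ.restrict S) (f j) (Zn α (δ T)) t)) (G (fun j => WI μ (f j) (Zn α (δ T)) t))
      linarith) hT0 g1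
  rw [intervalIntegral.integral_sub (hc1.intervalIntegrable _ _) (hc2.intervalIntegrable _ _)] at h3
  rw [Real.dist_eq, sub_zero, abs_of_nonneg dist_nonneg, Real.dist_eq, ← mul_sub, abs_mul, abs_of_pos (by positivity)]
  have h8 : 1 / T * |(∫ t in (0:ℝ)..T, G fun j => WI (μ.restrict S) (f j) (Zn α (δ T)) t) -
      ∫ t in (0:ℝ)..T, G fun j => WI μ (f j) (Zn α (δ T)) t| ≤ 1 / T * ((L * η + 2 * B * e) * T) :=
    mul_le_mul_of_nonneg_left h3 (by positivity)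
  refine lt_of_le_of_lt h8 ?_
  have e1 : 1 / T * ((L * η + 2 * B * e) * T) = L * η + 2 * B * e := by field_simp
  rw [e1, hη, he]
  have e2 : (L:ℝ) * (ε / (4 * (L + 1))) ≤ ε / 4 := by
    rw [← mul_div_assoc, div_le_div_iff₀ (by positivity) (by norm_num)]
    nlinarith
  have e3 : 2 * B * (ε / (8 * (B + 1))) ≤ ε / 4 := by
    rw [← mul_div_assoc, div_le_div_iff₀ (by positivity) (by norm_num)]
    nlinarith
  linarith

theorem uni_above [IsFiniteMeasure μ] (hμs : ∀ᵐ x ∂μ, x ∈ Set.Icc (0:ℝ) 1) (ha0 : 0 < α) (ha1 : α < 1)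
    (hab : ∀ᵐ x ∂μ, x ∈ above μ (α ^ 2))
    (Λ : (ℝ → ℝ) → Om → ℝ) (hΛ : LimM α (μ.restrict (above μ (α ^ 2))) Λ) (δ : ℝ → ℝ) (hδ : Pd δ) {n : ℕ}
    (f : Fin n → ℝ → ℝ) (hf : ∀ j, Ok (f j)) (G : (Fin n → ℝ) → ℝ) (L : NNReal) (hL : LipschitzWith L G) :
    Tendsto (fun T : ℝ => (1 / T) * ∫ t in (0:ℝ)..T, G fun j => WI μ (f j) (Zn α (δ T)) t)
      atTop (𝓝 (∫ w, G (fun j => Λ (f j) w) ∂PO)) := by
  have h1 := (wassM (ae_restrict_of_ae hμs) (CM_above hμs ha0 ha1) ha0 Λ hΛ δ hδ f hf G L hL).2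
  rwa [Measure.restrict_eq_self_of_ae_mem hab] at h1

end Run7.h772.KH
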