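import Pool.Agent.Run7.h772.KH.Typ3
import Pool.Agent.Run7.h772.KH.Uni

set_option autoImplicit false

/-!
# Final forms
-/

namespace Run7.h772.KH

open Finset Filter MeasureTheory Topology Pool.Agent.N748.GC
open scoped ENNReal
open Pool.Agent.W184 (zn zn_nonneg)

variable {μ : Measure ℝ} {δ : ℝ → ℝ}

lemma cov_of {E : Set ℝ} (hE : E ⊆ Set.Icc (0:ℝ) 1) {D : ℝ}
    (h : ∀ e : ℝ, 0 < e → ∃ d0 : ℝ, 0 < d0 ∧ ∀ d : ℝ, 0 < d → d ≤ d0 →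
      ∃ G : Finset ℤ, (#G : ℝ) ≤ d ^ (-D - e) ∧ E ⊆ ⋃ j ∈ G, Set.Ico ((j:ℝ) * d) (((j:ℝ) + 1) * d)) : Cov E D := by
  classical
  intro e he
  obtain ⟨d0, hd0, h1⟩ := h e he
  refine ⟨d0, hd0, fun d hd hd1 => ?_⟩
  obtain ⟨G, hG1, hG2⟩ := h1 d hd hd1
  refine ⟨G.filter fun j => j ∈ gr d, ?_, ?_, ?_⟩
  · intro j hj
    rw [Finset.mem_filter] at hj
    exact gr_mem hd hj.2
  · refine le_trans ?_ hG1
    exact_mod_cast Finset.card_filter_le _ _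
  · intro x hx
    obtain ⟨j, hj, hxj⟩ := Set.mem_iUnion₂.mp (hG2 hx)
    refine Set.mem_iUnion₂.mpr ⟨j, ?_, hxj⟩
    rw [Finset.mem_filter]
    refine ⟨hj, ?_⟩
    have e1 : ⌊x / d⌋ = j := (mem_Ij hd j).mp hxj
    rw [← e1]
    exact gr_floor hd (hE hx)

theorem typ [IsFiniteMeasure μ] (hμs : ∀ᵐ x ∂μ, x ∈ Set.Icc (0:ℝ) 1) {E : Set ℝ} {D k : ℝ} (hD0 : 0 < D) (hD1 : D ≤ 1)
    (hE : Cov E D) (hμE : μ Eᶜ = 0) (hL : ∀ s : ℝ, s < D → μ (above μ s) ≠ 0) (hk : 0 < k) (hδ : Pd δ) {e : ℝ}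
    (he : 0 < e) : AA fun T t => δ T ^ (-(if k ≤ √D then k ^ 2 else 2 * k * √D - D) + e) ≤ SS μ k (δ T) t ∧
      SS μ k (δ T) t ≤ δ T ^ (-(if k ≤ √D then k ^ 2 else 2 * k * √D - D) - e) := by
  obtain ⟨r, hr⟩ : ∃ r : ℝ, r = √D := ⟨_, rfl⟩
  have hr0 : 0 < r := by rw [hr]; exact Real.sqrt_pos.mpr hD0
  have hr1 : r ≤ 1 := by rw [hr]; exact Real.sqrt_le_one.mpr hD1
  have hrD : D = r ^ 2 := by rw [hr, Real.sq_sqrt hD0.le]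
  rw [← hr]
  rw [hrD] at hE hL ⊢
  rcases lt_trichotomy k r with h | h | h
  · rw [if_pos h.le]
    have hk1 : k < 1 := by linarith
    exact (AA_low hμs hk hk1 (hL _ (by nlinarith)) hδ he).and (AA_up hμs hk (by linarith) hδ he)
  · rw [if_pos h.le]
    have h1 := AA_lowk hμs hr0 hr1 hL h.ge hδ he
    have h2 := AA_up (μ := μ) hμs hk (by linarith) hδ he
    rw [show -(2 * k * r - r ^ 2) = -k ^ 2 by rw [h]; ring] at h1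
    exact h1.and h2
  · rw [if_neg (not_le.mpr h)]
    exact (AA_lowk hμs hr0 hr1 hL h.le hδ he).and (AA_froz hμs hr0 hr1 hE hμE h hδ he)

theorem mx [IsFiniteMeasure μ] (hμs : ∀ᵐ x ∂μ, x ∈ Set.Icc (0:ℝ) 1) {E : Set ℝ} {D : ℝ} (hD0 : 0 < D) (hD1 : D ≤ 1)
    (hμE : μ Eᶜ = 0) (hL : ∀ s : ℝ, s < D → μ (above μ s) ≠ 0) (hδ : Pd δ) {e : ℝ} (he : 0 < e) :
    AA fun T t => ∃ x ∈ E, δ T ^ (-√D + e) ≤ zn (1 / 2 + δ T) (t + x) := by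
  obtain ⟨r, hr⟩ : ∃ r : ℝ, r = √D := ⟨_, rfl⟩
  have hr0 : 0 < r := by rw [hr]; exact Real.sqrt_pos.mpr hD0
  have hr1 : r ≤ 1 := by rw [hr]; exact Real.sqrt_le_one.mpr hD1
  have hrD : D = r ^ 2 := by rw [hr, Real.sq_sqrt hD0.le]
  rw [← hr]
  rw [hrD] at hL
  exact AA_max_low hμs hμE hr0 hr1 hL hδ he

theorem mx_up {E : Set ℝ} {D : ℝ} (hD0 : 0 < D) (hD1 : D ≤ 1) (hE : Cov E D) (hδ : Pd δ) {e : ℝ} (he : 0 < e) :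
    AA fun T t => ∀ x ∈ E, zn (1 / 2 + δ T) (t + x) ≤ δ T ^ (-√D - e) := by
  obtain ⟨r, hr⟩ : ∃ r : ℝ, r = √D := ⟨_, rfl⟩
  have hr0 : 0 < r := by rw [hr]; exact Real.sqrt_pos.mpr hD0
  have hr1 : r ≤ 1 := by rw [hr]; exact Real.sqrt_le_one.mpr hD1
  have hrD : D = r ^ 2 := by rw [hr, Real.sq_sqrt hD0.le]
  rw [← hr]
  rw [hrD] at hE
  exact AA_max_up hr0 hr1 hE hδ he

end Run7.h772.KH
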