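import Pool.Agent.Run7.h772.KH.CorM

set_option autoImplicit false

/-!
# The limiting masses over a measure, and the convergence in law of the local moments
-/

namespace Run7.h772.KH

open Finset Filter MeasureTheory Topology Pool.Agent.N748.GC
open Pool.Agent.N748.GC.LAM (rst rst_cont rst_pt pt_cont)
open Pool.Agent.N748.GC.DIS (PO_prob time_side lip_le integral_restr restr_cont)
open Pool.Agent.N748.GC.DISL (lip_int random_side')

/-- measurable, bounded by one -/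
structure Ok (f : ℝ → ℝ) : Prop where
  m : Measurable f
  b : ∀ x, |f x| ≤ 1

/-- the truncated mass as a function on the torus of the primes below `z` -/
noncomputable def Ps (α : ℝ) (μ : Measure ℝ) (f : ℝ → ℝ) (z : ℕ) (y : UnitAddTorus (Sm z)) : ℝ :=
  ∫ x, f x * M0 α (Sm z) (y + pt (Sm z) x) ∂μ

variable {μ : Measure ℝ} {α : ℝ} {f : ℝ → ℝ}

theorem Ps_cont [IsFiniteMeasure μ] (hf : Ok f) (z : ℕ) : Continuous (Ps α μ f z) := by
  have hM := QC.M0_cont α (QC.Sm_prime z)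
  obtain ⟨B, hB0, hB⟩ := tbd hM
  refine continuous_of_dominated (bound := fun _ => B) (fun y => ?_) (fun y => Eventually.of_forall fun x => ?_)
    (integrable_const _) (Eventually.of_forall fun x => ?_)
  · exact hf.m.aestronglyMeasurable.mul (hM.comp (continuous_const.add (pt_cont _))).aestronglyMeasurable
  · rw [Real.norm_eq_abs, abs_mul]
    calc |f x| * |M0 α (Sm z) (y + pt (Sm z) x)| ≤ 1 * B := mul_le_mul (hf.b x) (hB _) (abs_nonneg _) zero_le_one
      _ = B := one_mul _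
  · exact continuous_const.mul (hM.comp (continuous_id.add continuous_const))

theorem Ps_pt (f : ℝ → ℝ) (z : ℕ) (t : ℝ) : Ps α μ f z (pt (Sm z) t) = WI μ f (mz α z) t := by
  unfold Ps WI mz
  simp_rw [ASM.pt_add]

theorem Ps_rz (hα : 0 < α) (f : ℝ → ℝ) (z : ℕ) (w : Om) :
    ∫ x, f x * rz α z w x ∂μ = Ps α μ f z (fun p : Sm z => w p) := by
  unfold Ps
  refine integral_congr_ae (Eventually.of_forall fun x => ?_)
  show f x * rz α z w x = f x * M0 α (Sm z) ((fun p : Sm z => w p) + pt (Sm z) x)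
  rw [RZ.main α hα z w x]

theorem Ps_int [IsFiniteMeasure μ] (hf : Ok f) (z : ℕ) :
    Integrable (fun w : Om => Ps α μ f z (fun p : Sm z => w p)) PO := by
  obtain ⟨B, hB, hMB⟩ := tbd (Ps_cont (α := α) (μ := μ) hf z)
  refine Integrable.of_bound ?_ B (Eventually.of_forall fun w => ?_)
  · exact ((Ps_cont hf z).measurable.comp (RZ.restr_mp (Sm z)).measurable).aestronglyMeasurable
  · exact hMB _

theorem Ps_mean [IsFiniteMeasure μ] (hf : Ok f) (z : ℕ) :
    ∫ y, Ps α μ f z y ∂(HP (Sm z)) = ∫ x, f x ∂μ := by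
  have hM := QC.M0_cont α (QC.Sm_prime z)
  obtain ⟨B, hB, hMB⟩ := tbd hM
  unfold Ps
  have hint : Integrable (Function.uncurry fun (y : UnitAddTorus (Sm z)) (x : ℝ) =>
      f x * M0 α (Sm z) (y + pt (Sm z) x)) ((HP (Sm z)).prod μ) := by
    have hc : Continuous fun q : UnitAddTorus (Sm z) × ℝ => M0 α (Sm z) (q.1 + pt (Sm z) q.2) :=
      hM.comp (continuous_fst.add ((pt_cont _).comp continuous_snd))
    refine Integrable.of_bound ((hf.m.comp measurable_snd).aestronglyMeasurable.mul hc.aestronglyMeasurable) B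
      (Eventually.of_forall ?_)
    rintro ⟨y, x⟩
    show ‖f x * M0 α (Sm z) (y + pt (Sm z) x)‖ ≤ B
    rw [Real.norm_eq_abs, abs_mul]
    calc |f x| * |M0 α (Sm z) (y + pt (Sm z) x)| ≤ 1 * B := mul_le_mul (hf.b x) (hMB _) (abs_nonneg _) zero_le_one
      _ = B := one_mul _
  rw [integral_integral_swap hint]
  refine integral_congr_ae (Eventually.of_forall fun x => ?_)
  show ∫ y, f x * M0 α (Sm z) (y + pt (Sm z) x) ∂(HP (Sm z)) = f x
  rw [integral_const_mul, RZ.int_trans (Sm z) (M0 α (Sm z)) (pt (Sm z) x), QC.M0_int α (QC.Sm_prime z), mul_one]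

/-- comparison of two random Euler products along the flow -/
theorem flow_diff [IsFiniteMeasure μ] (hμs : ∀ᵐ x ∂μ, x ∈ Set.Icc (0:ℝ) 1) (hα : 0 < α) {δ : ℝ} (hδ : δ ≤ 1 / 16)
    (z z' : ℕ) (hf : Ok f) (t : ℝ) :
    |WI μ f (mz α z) t - WI μ f (mz α z') t| ≤
      |WI μ f (fun u => Zn α δ u - mz α z u) t| + |WI μ f (fun u => Zn α δ u - mz α z' u) t| := by
  have hZ := LAM.Zn_cont hα hδ
  have e : ∀ z : ℕ, WI μ f (fun u => Zn α δ u - mz α z u) t = WI μ f (Zn α δ) t - WI μ f (mz α z) t := by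
    intro z
    have hm := QC.mz_cont α z
    unfold WI
    rw [← integral_sub (wint hμs hf.m hf.b hZ t) (wint hμs hf.m hf.b hm t)]
    refine integral_congr_ae (Eventually.of_forall fun x => ?_)
    show f x * (Zn α δ (t + x) - mz α z (t + x)) = f x * Zn α δ (t + x) - f x * mz α z (t + x)
    ring
  rw [e z, e z', abs_sub_comm (WI μ f (Zn α δ) t) (WI μ f (mz α z) t)]
  refine le_trans (le_of_eq ?_) (abs_add_le _ _)
  congr 1
  ring

/-- the Cauchy property -/
theorem cauchy_est [IsFiniteMeasure μ] (hμs : ∀ᵐ x ∂μ, x ∈ Set.Icc (0:ℝ) 1) (hCM : CM α μ) (hα : 0 < α) {ε : ℝ}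
    (hε : 0 < ε) : ∃ z0 : ℕ, ∀ z ≥ z0, ∀ z' ≥ z0, ∀ f : ℝ → ℝ, Ok f →
      ∫ w, |Ps α μ f z (fun p : Sm z => w p) - Ps α μ f z' (fun p : Sm z' => w p)| ∂PO ≤ 2 * ε := by
  obtain ⟨z0, hz0⟩ := hCM ε hε
  refine ⟨z0, fun z hz z' hz' f hf => ?_⟩
  obtain ⟨lam, d0, hlam, hd0, hd1, hX⟩ := hz0 z hz
  obtain ⟨lam', d0', hlam', hd0', hd1', hX'⟩ := hz0 z' hz'
  set N := max z z' with hN
  set Φ : UnitAddTorus (Sm N) → ℝ := fun x =>
    |Ps α μ f z (rst (le_max_left z z') x) - Ps α μ f z' (rst (le_max_right z z') x)| with hΦ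
  have hΦc : Continuous Φ :=
    (((Ps_cont hf z).comp (rst_cont _)).sub ((Ps_cont hf z').comp (rst_cont _))).abs
  have e1 : ∫ w, |Ps α μ f z (fun p : Sm z => w p) - Ps α μ f z' (fun p : Sm z' => w p)| ∂PO =
      ∫ x, Φ x ∂(HP (Sm N)) := by
    rw [← RZ.int_restr (Sm N) Φ hΦc]
    rfl
  rw [e1]
  refine le_of_forall_pos_le_add fun η hη => ?_
  obtain ⟨H0, hH0, hH⟩ := ERG.main (Sm N) (QC.Sm_prime N) Φ hΦc η hη
  have hlog : Tendsto (fun X : ℝ => max lam lam' / Real.log X) atTop (𝓝 0) :=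
    Tendsto.div_atTop tendsto_const_nhds Real.tendsto_log_atTop
  have hev : ∀ᶠ X : ℝ in atTop, max lam lam' / Real.log X ≤ min d0 d0' :=
    (hlog.eventually (gt_mem_nhds (lt_min hd0 hd0'))).mono fun X hX => le_of_lt hX
  obtain ⟨X, hXa, hXb, hXc, hXd, hXe⟩ :=
    (hX.and (hX'.and (hev.and ((eventually_ge_atTop H0).and (eventually_gt_atTop 1))))).exists
  have hX0 : 0 < X := by linarith
  have hlogX : 0 < Real.log X := Real.log_pos hXe
  set δ : ℝ := max lam lam' / Real.log X with hδ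
  have hδ16 : δ ≤ 1 / 16 := le_trans (hXc.trans (min_le_left _ _)) hd1
  have b1 : ∫ t in (0:ℝ)..X, |WI μ f (fun u => Zn α δ u - mz α z u) t| ≤ ε * X :=
    hXa δ (by rw [hδ]; gcongr; exact le_max_left _ _) (hXc.trans (min_le_left _ _)) f hf.m hf.b
  have b2 : ∫ t in (0:ℝ)..X, |WI μ f (fun u => Zn α δ u - mz α z' u) t| ≤ ε * X :=
    hXb δ (by rw [hδ]; gcongr; exact le_max_right _ _) (hXc.trans (min_le_right _ _)) f hf.m hf.b
  have hZ := LAM.Zn_cont hα hδ16
  have c1 : Continuous fun t : ℝ => |WI μ f (fun u => Zn α δ u - mz α z u) t| :=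
    (WI_cont hμs hf.m hf.b (hZ.sub (QC.mz_cont α z))).abs
  have c2 : Continuous fun t : ℝ => |WI μ f (fun u => Zn α δ u - mz α z' u) t| :=
    (WI_cont hμs hf.m hf.b (hZ.sub (QC.mz_cont α z'))).abs
  have b3 : ∫ t in (0:ℝ)..X, Φ (pt (Sm N) t) ≤ 2 * ε * X := by
    calc ∫ t in (0:ℝ)..X, Φ (pt (Sm N) t)
        ≤ ∫ t in (0:ℝ)..X, (|WI μ f (fun u => Zn α δ u - mz α z u) t| +
            |WI μ f (fun u => Zn α δ u - mz α z' u) t|) := by
          refine intervalIntegral.integral_mono_on hX0.le ?_ ?_ ?_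
          · exact (hΦc.comp (pt_cont _)).intervalIntegrable _ _
          · exact (c1.add c2).intervalIntegrable _ _
          · intro t _
            have e := flow_diff hμs hα hδ16 z z' hf t
            rw [← Ps_pt, ← Ps_pt] at e
            exact e
      _ = (∫ t in (0:ℝ)..X, |WI μ f (fun u => Zn α δ u - mz α z u) t|) +
          ∫ t in (0:ℝ)..X, |WI μ f (fun u => Zn α δ u - mz α z' u) t| :=
          intervalIntegral.integral_add (c1.intervalIntegrable _ _) (c2.intervalIntegrable _ _)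
      _ ≤ ε * X + ε * X := add_le_add b1 b2
      _ = 2 * ε * X := by ring
  have b4 := hH X hXd 0
  rw [zero_add] at b4
  have b5 : (∫ t in (0:ℝ)..X, Φ (pt (Sm N) t)) / X ≤ 2 * ε := by
    rw [div_le_iff₀ hX0]; exact b3
  have b6 := (abs_le.1 b4).1
  linarith

/-- the limit property of the masses -/
def LimM (α : ℝ) (μ : Measure ℝ) (Λ : (ℝ → ℝ) → Om → ℝ) : Prop :=
  ∀ f : ℝ → ℝ, Ok f → Measurable (Λ f) ∧ Integrable (Λ f) PO ∧ ∫ w, Λ f w ∂PO = ∫ x, f x ∂μ ∧
    Tendsto (fun z : ℕ => ∫ w, |(∫ x, f x * rz α z w x ∂μ) - Λ f w| ∂PO) atTop (𝓝 0)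

theorem exists_lim [IsFiniteMeasure μ] (hμs : ∀ᵐ x ∂μ, x ∈ Set.Icc (0:ℝ) 1) (hCM : CM α μ) (hα : 0 < α) (hf : Ok f) :
    ∃ L : Om → ℝ, Measurable L ∧ Integrable L PO ∧ ∫ w, L w ∂PO = ∫ x, f x ∂μ ∧
      Tendsto (fun z : ℕ => ∫ w, |Ps α μ f z (fun p : Sm z => w p) - L w| ∂PO) atTop (𝓝 0) := by
  set u : ℕ → (Om →₁[PO] ℝ) := fun z => (Ps_int (α := α) (μ := μ) hf z).toL1 _ with hu
  have hdist : ∀ z z', dist (u z) (u z') =
      ∫ w, |Ps α μ f z (fun p : Sm z => w p) - Ps α μ f z' (fun p : Sm z' => w p)| ∂PO := by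
    intro z z'
    rw [L1.dist_eq_integral_dist]
    refine integral_congr_ae ?_
    filter_upwards [(Ps_int (α := α) (μ := μ) hf z).coeFn_toL1, (Ps_int (α := α) (μ := μ) hf z').coeFn_toL1]
      with w hw hw'
    simp only [hu]
    rw [hw, hw', Real.dist_eq]
  have hcau : CauchySeq u := by
    rw [Metric.cauchySeq_iff]
    intro ε hε
    obtain ⟨z0, hz0⟩ := cauchy_est hμs hCM hα (ε := ε / 4) (by positivity)
    refine ⟨z0, fun m hm n hn => ?_⟩
    rw [hdist]
    refine lt_of_le_of_lt (hz0 m hm n hn f hf) ?_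
    linarith
  obtain ⟨U, hU⟩ := cauchySeq_tendsto_of_complete hcau
  have hdU : ∀ z, dist (u z) U = ∫ w, |Ps α μ f z (fun p : Sm z => w p) - U w| ∂PO := by
    intro z
    rw [L1.dist_eq_integral_dist]
    refine integral_congr_ae ?_
    filter_upwards [(Ps_int (α := α) (μ := μ) hf z).coeFn_toL1] with w hw
    simp only [hu]
    rw [hw, Real.dist_eq]
  have hlim : Tendsto (fun z : ℕ => ∫ w, |Ps α μ f z (fun p : Sm z => w p) - U w| ∂PO) atTop
      (𝓝 0) := by
    simp_rw [← hdU]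
    exact tendsto_iff_dist_tendsto_zero.1 hU
  have hUi : Integrable (U : Om → ℝ) PO := L1.integrable_coeFn U
  refine ⟨U, (Lp.stronglyMeasurable U).measurable, hUi, ?_, hlim⟩
  have hmean : ∀ z : ℕ, ∫ w, Ps α μ f z (fun p : Sm z => w p) ∂PO = ∫ x, f x ∂μ :=
    fun z => by rw [RZ.int_restr (Sm z) _ (Ps_cont hf z), Ps_mean hf]
  have h0 : |(∫ x, f x ∂μ) - ∫ w, U w ∂PO| ≤ 0 := by
    refine ge_of_tendsto' hlim fun z => ?_
    rw [← hmean z, ← integral_sub (Ps_int hf z) hUi]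
    exact abs_integral_le_integral_abs
  have h4 := abs_eq_zero.1 (le_antisymm h0 (abs_nonneg _))
  linarith

open Classical in
/-- existence of the masses -/
theorem lamM [IsFiniteMeasure μ] (hμs : ∀ᵐ x ∂μ, x ∈ Set.Icc (0:ℝ) 1) (hCM : CM α μ) (hα : 0 < α) :
    ∃ Λ : (ℝ → ℝ) → Om → ℝ, LimM α μ Λ := by
  refine ⟨fun f => if hf : Ok f then (exists_lim hμs hCM hα hf).choose else 0, ?_⟩
  intro f hf
  simp only [hf, dite_true]
  obtain ⟨a, b, c, d⟩ := (exists_lim hμs hCM hα hf).choose_spec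
  refine ⟨a, b, c, ?_⟩
  simp_rw [Ps_rz hα f]
  exact d

/-- the vector of the truncated masses -/
noncomputable def FV (α : ℝ) (μ : Measure ℝ) (z : ℕ) {n : ℕ} (f : Fin n → ℝ → ℝ) (x : UnitAddTorus (Sm z)) (j : Fin n) : ℝ :=
  Ps α μ (f j) z x

/-- convergence of the local moments for Lipschitz functions -/
theorem wassM [IsFiniteMeasure μ] (hμs : ∀ᵐ x ∂μ, x ∈ Set.Icc (0:ℝ) 1) (hCM : CM α μ) (ha0 : 0 < α)
    (Λ : (ℝ → ℝ) → Om → ℝ) (hΛ : LimM α μ Λ) (δ : ℝ → ℝ) (hδ : Pd δ) {n : ℕ} (f : Fin n → ℝ → ℝ)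
    (hf : ∀ j, Ok (f j)) (G : (Fin n → ℝ) → ℝ) (L : NNReal) (hL : LipschitzWith L G) :
    Integrable (fun w => G (fun j => Λ (f j) w)) PO ∧
    Tendsto (fun T : ℝ => (1 / T) * ∫ t in (0:ℝ)..T, G fun j => WI μ (f j) (Zn α (δ T)) t)
      atTop (𝓝 (∫ w, G (fun j => Λ (f j) w) ∂PO)) := by
  refine ⟨lip_int hL (measurable_pi_lambda _ fun j => (hΛ (f j) (hf j)).1) fun j => (hΛ (f j) (hf j)).2.1, ?_⟩
  rw [Metric.tendsto_nhds]
  intro η hη
  have hL0 : (0:ℝ) ≤ L := L.2
  have hn0 : (0:ℝ) ≤ n := Nat.cast_nonneg n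
  set ε2 : ℝ := η / (4 * (L * n + 1)) with hε2def
  have hε2 : 0 < ε2 := by positivity
  have hε3 : L * (n * ε2) ≤ η / 4 := by
    have e : L * (n * ε2) = (L * n) / (L * n + 1) * (η / 4) := by
      rw [hε2def]; field_simp
    rw [e]
    have : (L * n : ℝ) / (L * n + 1) ≤ 1 := by
      rw [div_le_one (by positivity)]; linarith
    nlinarith [this, hη]
  obtain ⟨z0, hz0⟩ := hCM ε2 hε2
  have hev : ∀ᶠ z : ℕ in atTop, ∀ j, ∫ w, |(∫ x, f j x * rz α z w x ∂μ) - Λ (f j) w| ∂PO < ε2 := by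
    rw [eventually_all]
    intro j
    exact ((hΛ (f j) (hf j)).2.2.2).eventually (Iio_mem_nhds hε2)
  obtain ⟨z, hz1, hz2⟩ := (hev.and (eventually_ge_atTop z0)).exists
  obtain ⟨lam, δ0, hlam, hδ0, hδ1, hX⟩ := hz0 z hz2
  have e0 : ∀ᶠ T : ℝ in atTop, δ T ≤ δ0 := hδ.t0.eventually (Iic_mem_nhds hδ0)
  have e1 : ∀ᶠ T : ℝ in atTop, lam ≤ δ T * Real.log T := hδ.tL.eventually_ge_atTop lam
  -- the random side
  have hFV : Continuous (FV α μ z f) := continuous_pi fun j => Ps_cont (hf j) z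
  set F : UnitAddTorus (Sm z) → ℝ := fun x => G (FV α μ z f x) with hF
  have hFc : Continuous F := hL.continuous.comp hFV
  obtain ⟨H0, hH0, hH⟩ := ERG.main (Sm z) (QC.Sm_prime z) F hFc (η / 8) (by positivity)
  have hrz : ∀ w : Om, (fun j => ∫ x, f j x * rz α z w x ∂μ) = FV α μ z f ((Sm z).restrict w) := by
    intro w
    funext j
    exact Ps_rz ha0 (f j) z w
  have hmY : Measurable fun w : Om => (fun j => ∫ x, f j x * rz α z w x ∂μ) := by
    have : (fun w : Om => (fun j => ∫ x, f j x * rz α z w x ∂μ)) = fun w => FV α μ z f ((Sm z).restrict w) := by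
      funext w; exact hrz w
    rw [this]
    exact (hFV.comp (restr_cont _)).measurable
  have hmW : Measurable fun w : Om => (fun j => Λ (f j) w) :=
    measurable_pi_lambda _ fun j => (hΛ (f j) (hf j)).1
  have hiY : ∀ j, Integrable (fun w : Om => ∫ x, f j x * rz α z w x ∂μ) PO := by
    intro j
    have : (fun w : Om => ∫ x, f j x * rz α z w x ∂μ) = fun w => FV α μ z f ((Sm z).restrict w) j := by
      funext w; exact congrFun (hrz w) j
    rw [this]
    have hc : Continuous fun w : Om => FV α μ z f ((Sm z).restrict w) j :=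
      (continuous_apply j).comp (hFV.comp (restr_cont _))
    exact hc.integrable_of_hasCompactSupport (HasCompactSupport.of_compactSpace _)
  have hR := random_side' hL hmY hmW hiY (fun j => (hΛ (f j) (hf j)).2.1) (fun j => (hz1 j).le)
  have hRF : ∫ w, G (fun j => ∫ x, f j x * rz α z w x ∂μ) ∂PO = ∫ x, F x ∂(HP (Sm z)) := by
    rw [← integral_restr hFc]
    refine integral_congr_ae (Eventually.of_forall fun w => ?_)
    simp only [hF]
    rw [hrz w]
  filter_upwards [hX, e0, e1, eventually_ge_atTop H0, eventually_gt_atTop (Real.exp 1)] with T hT h2 h3 c4 c5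
  have hT0 : (0:ℝ) < T := lt_trans (Real.exp_pos 1) c5
  have hlog : 1 < Real.log T := by
    rw [Real.lt_log_iff_exp_lt hT0]; exact c5
  have hδT : lam / Real.log T ≤ δ T := by
    rw [div_le_iff₀ (by linarith)]; exact h3
  have hδpos : 0 < δ T := lt_of_lt_of_le (by positivity) hδT
  have hZ := LAM.Zn_cont ha0 (h2.trans hδ1)
  have hm := QC.mz_cont α z
  have hV : Continuous fun t : ℝ => (fun j => WI μ (f j) (Zn α (δ T)) t) :=
    continuous_pi fun j => WI_cont hμs (hf j).m (hf j).b hZ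
  have hU : Continuous fun t : ℝ => (fun j => WI μ (f j) (mz α z) t) :=
    continuous_pi fun j => WI_cont hμs (hf j).m (hf j).b hm
  have hcl : ∀ j, ∫ t in (0:ℝ)..T, |WI μ (f j) (Zn α (δ T)) t - WI μ (f j) (mz α z) t| ≤ ε2 * T := by
    intro j
    have h4 := hT (δ T) hδT h2 (f j) (hf j).m (hf j).b
    refine le_trans (le_of_eq ?_) h4
    refine intervalIntegral.integral_congr fun t _ => ?_
    show |WI μ (f j) (Zn α (δ T)) t - WI μ (f j) (mz α z) t| = |∫ x, f j x * (Zn α (δ T) (t + x) - mz α z (t + x)) ∂μ|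
    congr 1
    unfold WI
    rw [← integral_sub (wint hμs (hf j).m (hf j).b hZ t) (wint hμs (hf j).m (hf j).b hm t)]
    refine integral_congr_ae (Eventually.of_forall fun x => ?_)
    show f j x * Zn α (δ T) (t + x) - f j x * mz α z (t + x) = f j x * (Zn α (δ T) (t + x) - mz α z (t + x))
    ring
  have hT1 := time_side hL hV hU hT0 hcl
  have hT2 := hH T c4 0
  rw [zero_add] at hT2
  have hT3 : (∫ u in (0:ℝ)..T, F (pt (Sm z) u)) = ∫ t in (0:ℝ)..T, G fun j => WI μ (f j) (mz α z) t := by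
    refine intervalIntegral.integral_congr fun t _ => ?_
    simp only [hF]
    congr 1
    funext j
    exact Ps_pt (f j) z t
  rw [hT3, ← hRF, div_eq_inv_mul, ← one_div] at hT2
  rw [Real.dist_eq]
  have t1 := abs_le.mp (hT1.trans hε3)
  have t2 := abs_le.mp hT2
  have t3 := abs_le.mp (hR.trans hε3)
  rw [abs_lt]
  constructor <;> linarith [t1.1, t1.2, t2.1, t2.2, t3.1, t3.2]

end Run7.h772.KH
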