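import Pool.Agent.N748.GC.ED
import Pool.Agent.Run7.h772.KH.Core
import Pool.Agent.Run7.h772.KH.Defs

set_option autoImplicit false

/-!
# Measures with bounded potential: balls, the singular kernel, the cells
-/

namespace Run7.h772.KH

open Finset Filter MeasureTheory Topology Pool.Agent.N748.GC
open Pool.Agent.N748.GC.ED (k0 k0_nonneg)

variable {s C0 : ℝ} {μ : Measure ℝ}

theorem FP.fin (h : FP s C0 μ) : IsFiniteMeasure μ := fin_of_mass h.mass

theorem FP.real_le (h : FP s C0 μ) : μ.real Set.univ ≤ 1 :=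
  ENNReal.toReal_le_of_le_ofReal zero_le_one (by rw [ENNReal.ofReal_one]; exact h.mass)

/-- points of a set of positive measure with a property that holds almost everywhere -/
theorem exists_good {P : ℝ → Prop} (h : ∀ᵐ u ∂μ, P u) {A : Set ℝ} (hA : μ A ≠ 0) : ∃ u ∈ A, P u := by
  by_contra hc
  push Not at hc
  refine hA (measure_mono_null (t := {u | ¬ P u}) (fun u hu => hc u hu) ?_)
  exact ae_iff.1 h

/-- no atoms -/
theorem FP.na (h : FP s C0 μ) (hs : 0 < s) (x : ℝ) : μ {x} = 0 := by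
  by_contra h0
  obtain ⟨u, hu, hP⟩ := exists_good h.pot h0
  rw [Set.mem_singleton_iff] at hu
  subst hu
  have h2 : ∫⁻ v in {u}, (ENNReal.ofReal |u - v|) ^ (-s) ∂μ ≤ ENNReal.ofReal C0 :=
    (setLIntegral_le_lintegral _ _).trans hP
  rw [lintegral_singleton, sub_self, abs_zero, ENNReal.ofReal_zero, ENNReal.zero_rpow_of_neg (by linarith),
    ENNReal.top_mul h0] at h2
  exact absurd h2 (not_le.2 ENNReal.ofReal_lt_top)

/-- balls -/
theorem FP.ball (h : FP s C0 μ) (hs : 0 < s) (hC : 0 ≤ C0) :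
    ∀ᵐ u ∂μ, ∀ r : ℝ, 0 < r → μ (Set.Icc (u - r) (u + r)) ≤ ENNReal.ofReal (C0 * r ^ s) := by
  filter_upwards [h.pot] with u hu r hr
  have h1 : (ENNReal.ofReal r) ^ (-s) * μ (Set.Icc (u - r) (u + r)) ≤ ENNReal.ofReal C0 := by
    rw [← setLIntegral_const]
    refine le_trans (setLIntegral_mono' measurableSet_Icc fun v hv => ?_) ((setLIntegral_le_lintegral _ _).trans hu)
    rw [ENNReal.rpow_neg, ENNReal.rpow_neg]
    refine ENNReal.inv_le_inv.2 (ENNReal.rpow_le_rpow (ENNReal.ofReal_le_ofReal ?_) hs.le)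
    rw [abs_le]
    constructor <;> linarith [hv.1, hv.2]
  have h2 : (ENNReal.ofReal r) ^ s = ENNReal.ofReal (r ^ s) := ENNReal.ofReal_rpow_of_pos hr
  have h3 : 0 < r ^ s := Real.rpow_pos_of_pos hr _
  rw [ENNReal.rpow_neg, h2, mul_comm, ← div_eq_mul_inv, ENNReal.div_le_iff (by simpa using h3) ENNReal.ofReal_ne_top,
    ← ENNReal.ofReal_mul hC] at h1
  exact h1

/-- intervals -/
theorem FP.cell (h : FP s C0 μ) (hs : 0 < s) (hC : 0 ≤ C0) {a b : ℝ} (hab : a < b) :
    μ.real (Set.Icc a b) ≤ C0 * (b - a) ^ s := by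
  have hba : 0 < b - a := by linarith
  by_cases h0 : μ (Set.Icc a b) = 0
  · rw [Measure.real, h0, ENNReal.toReal_zero]
    positivity
  obtain ⟨u, hu, hP⟩ := exists_good (h.ball hs hC) h0
  refine ENNReal.toReal_le_of_le_ofReal (by positivity) (le_trans (measure_mono ?_) (hP (b - a) hba))
  intro x hx
  constructor <;> linarith [hx.1, hx.2, hu.1, hu.2]

theorem k0_meas (L ζ : ℝ) : Measurable (k0 L ζ) := by
  unfold k0
  refine Measurable.ite (measurableSet_le (by fun_prop) measurable_const) (by fun_prop) measurable_const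

theorem k0_le {L ζ s : ℝ} (hL : 0 < L) (hζ : 0 < ζ) (hζs : ζ ≤ s) (h : ℝ) :
    ENNReal.ofReal (k0 L ζ h) ≤ ENNReal.ofReal (L ^ (-s)) * (ENNReal.ofReal |h|) ^ (-s) := by
  unfold k0
  split_ifs with h1
  · by_cases h0 : h = 0
    · rw [h0, abs_zero, zero_mul, Real.zero_rpow (by linarith), ENNReal.ofReal_zero]
      exact bot_le
    · have ha : 0 < |h| := abs_pos.2 h0
      rw [ENNReal.ofReal_rpow_of_pos ha, ← ENNReal.ofReal_mul (by positivity)]
      refine ENNReal.ofReal_le_ofReal ?_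
      calc (|h| * L) ^ (-ζ) ≤ (|h| * L) ^ (-s) :=
            Real.rpow_le_rpow_of_exponent_ge (by positivity) h1 (by linarith)
        _ = L ^ (-s) * |h| ^ (-s) := by rw [Real.mul_rpow ha.le hL.le, mul_comm]
  · rw [ENNReal.ofReal_zero]
    exact bot_le

/-- the singular part of the kernel -/
theorem FP.ker1 (h : FP s C0 μ) (hC : 0 ≤ C0) {L ζ : ℝ} (hL : 0 < L) (hζ : 0 < ζ) (hζs : ζ ≤ s) :
    ∀ᵐ u ∂μ, Integrable (fun v => k0 L ζ (u - v)) μ ∧ ∫ v, k0 L ζ (u - v) ∂μ ≤ C0 * L ^ (-s) := by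
  filter_upwards [h.pot] with u hu
  have hm : Measurable fun v => k0 L ζ (u - v) := (k0_meas L ζ).comp (measurable_const.sub measurable_id)
  have hb : ∫⁻ v, ENNReal.ofReal (k0 L ζ (u - v)) ∂μ ≤ ENNReal.ofReal (C0 * L ^ (-s)) := by
    calc ∫⁻ v, ENNReal.ofReal (k0 L ζ (u - v)) ∂μ
        ≤ ∫⁻ v, ENNReal.ofReal (L ^ (-s)) * (ENNReal.ofReal |u - v|) ^ (-s) ∂μ :=
          lintegral_mono fun v => k0_le hL hζ hζs _
      _ = ENNReal.ofReal (L ^ (-s)) * ∫⁻ v, (ENNReal.ofReal |u - v|) ^ (-s) ∂μ :=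
          lintegral_const_mul' _ _ ENNReal.ofReal_ne_top
      _ ≤ ENNReal.ofReal (L ^ (-s)) * ENNReal.ofReal C0 := by gcongr
      _ = ENNReal.ofReal (C0 * L ^ (-s)) := by
          rw [← ENNReal.ofReal_mul (by positivity), mul_comm]
  have hint : Integrable (fun v => k0 L ζ (u - v)) μ := by
    refine ⟨hm.aestronglyMeasurable, ?_⟩
    rw [hasFiniteIntegral_iff_ofReal (Eventually.of_forall fun v => k0_nonneg L ζ hL _)]
    exact hb.trans_lt ENNReal.ofReal_lt_top
  refine ⟨hint, ?_⟩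
  rw [integral_eq_lintegral_of_nonneg_ae (Eventually.of_forall fun v => k0_nonneg L ζ hL _) hm.aestronglyMeasurable]
  exact ENNReal.toReal_le_of_le_ofReal (by positivity) hb

theorem FP.ker2 (h : FP s C0 μ) (hC : 0 ≤ C0) {L ζ : ℝ} (hL : 0 < L) (hζ : 0 < ζ) (hζs : ζ ≤ s) :
    Integrable (fun p : ℝ × ℝ => k0 L ζ (p.1 - p.2)) (μ.prod μ) := by
  have := h.fin
  have hm : Measurable (fun p : ℝ × ℝ => k0 L ζ (p.1 - p.2)) :=
    (k0_meas L ζ).comp (measurable_fst.sub measurable_snd)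
  rw [integrable_prod_iff hm.aestronglyMeasurable]
  constructor
  · filter_upwards [h.ker1 hC hL hζ hζs] with u hu using hu.1
  · refine Integrable.of_bound (C := C0 * L ^ (-s)) ?_ ?_
    · exact hm.norm.stronglyMeasurable.integral_prod_right'.aestronglyMeasurable
    · filter_upwards [h.ker1 hC hL hζ hζs] with u hu
      rw [Real.norm_of_nonneg (integral_nonneg fun _ => norm_nonneg _)]
      refine le_trans (le_of_eq ?_) hu.2
      refine integral_congr_ae (Eventually.of_forall fun v => ?_)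
      exact Real.norm_of_nonneg (k0_nonneg L ζ hL _)

/-- the cells -/
def cell (n k : ℕ) : Set ℝ := Set.Icc (((k:ℝ) - 1) / n) (((k:ℝ) + 2) / n)

lemma cell_meas (n k : ℕ) : MeasurableSet (cell n k) := measurableSet_Icc

lemma cell_pt {n : ℕ} (hn : 0 < n) {ρ : ℝ} (hρ : ρ ≤ 1 / n) {u v : ℝ} (hu : u ∈ Set.Icc (0:ℝ) 1)
    (huv : |u - v| ≤ ρ) : ∃ k ∈ range n, u ∈ cell n k ∧ v ∈ cell n k := by
  have hn' : (0:ℝ) < n := by exact_mod_cast hn
  have h1 : (n:ℝ) * |u - v| ≤ 1 := by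
    have := huv.trans hρ
    rw [le_div_iff₀ hn'] at this
    linarith
  obtain ⟨h2, h3⟩ := abs_le.1 (show |(n:ℝ) * (u - v)| ≤ 1 by rw [abs_mul, abs_of_pos hn']; exact h1)
  obtain ⟨k, hk, h4, h5⟩ : ∃ k ∈ range n, (k:ℝ) ≤ n * u ∧ n * u ≤ k + 1 := by
    by_cases hc : ⌊(n:ℝ) * u⌋₊ < n
    · exact ⟨_, mem_range.2 hc, Nat.floor_le (mul_nonneg hn'.le hu.1), (Nat.lt_floor_add_one _).le⟩
    · refine ⟨n - 1, mem_range.2 (by omega), ?_, ?_⟩
      · have h6 : ((n - 1 : ℕ) : ℝ) ≤ n := by exact_mod_cast Nat.sub_le n 1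
        have h7 : (n:ℝ) ≤ ⌊(n:ℝ) * u⌋₊ := by exact_mod_cast not_lt.1 hc
        have h8 := Nat.floor_le (mul_nonneg hn'.le hu.1)
        linarith
      · have h6 : ((n - 1 : ℕ) : ℝ) + 1 = n := by
          rw [Nat.cast_sub hn]
          push_cast
          ring
        rw [h6]
        nlinarith [hu.2]
  refine ⟨k, hk, ⟨?_, ?_⟩, ⟨?_, ?_⟩⟩
  · rw [div_le_iff₀ hn']; linarith
  · rw [le_div_iff₀ hn']; linarith
  · rw [div_le_iff₀ hn']; linarith
  · rw [le_div_iff₀ hn']; linarith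

lemma cell_card {n : ℕ} (hn : 0 < n) (x : ℝ) : ∑ k ∈ range n, (cell n k).indicator (fun _ => (1:ℝ)) x ≤ 4 := by
  classical
  have hn' : (0:ℝ) < n := by exact_mod_cast hn
  have e1 : ∑ k ∈ range n, (cell n k).indicator (fun _ => (1:ℝ)) x = (((range n).filter fun k => x ∈ cell n k).card : ℝ) := by
    rw [Finset.card_filter]
    push_cast
    refine Finset.sum_congr rfl fun k _ => ?_
    by_cases hk : x ∈ cell n k
    · rw [Set.indicator_of_mem hk, if_pos hk]
    · rw [Set.indicator_of_notMem hk, if_neg hk]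
  rw [e1]
  have h1 : ((range n).filter fun k => x ∈ cell n k) ⊆ Finset.Icc ⌈(n:ℝ) * x - 2⌉₊ (⌈(n:ℝ) * x - 2⌉₊ + 3) := by
    intro k hk
    rw [Finset.mem_filter] at hk
    obtain ⟨-, h2, h3⟩ := hk
    rw [div_le_iff₀ hn'] at h2
    rw [le_div_iff₀ hn'] at h3
    rw [Finset.mem_Icc]
    constructor
    · rw [Nat.ceil_le]
      linarith
    · have h4 := Nat.le_ceil ((n:ℝ) * x - 2)
      have h5 : (k:ℝ) ≤ ((⌈(n:ℝ) * x - 2⌉₊ + 3 : ℕ) : ℝ) := by
        push_cast
        linarith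
      exact_mod_cast h5
  have h2 := Finset.card_le_card h1
  rw [Nat.card_Icc] at h2
  have h3 : ((range n).filter fun k => x ∈ cell n k).card ≤ 4 := by omega
  exact_mod_cast h3

/-- Jensen's inequality -/
lemma jens {ν : Measure ℝ} [IsFiniteMeasure ν] {g : ℝ → ℝ} (h0 : ∀ u, 0 ≤ g u) {q : ℝ} (hq : 1 ≤ q)
    (hi : Integrable g ν) (hiq : Integrable (fun u => g u ^ q) ν) :
    (∫ u, g u ∂ν) ^ q ≤ (ν.real Set.univ) ^ (q - 1) * ∫ u, g u ^ q ∂ν := by
  by_cases hν : ν.real Set.univ = 0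
  · have hz : ν = 0 := by
      rw [← Measure.measure_univ_eq_zero]
      exact (measureReal_eq_zero_iff).1 hν
    rw [hz]
    simp only [integral_zero_measure, mul_zero]
    rw [Real.zero_rpow (by linarith)]
  have hm : 0 < ν.real Set.univ := lt_of_le_of_ne measureReal_nonneg (Ne.symm hν)
  set m := ν.real Set.univ with hmd
  set t : ℝ := (∫ u, g u ∂ν) / m with ht
  have hI0 : 0 ≤ ∫ u, g u ∂ν := integral_nonneg h0
  have ht0 : 0 ≤ t := div_nonneg hI0 hm.le
  have htan : ∀ x : ℝ, 0 ≤ x → t ^ q + q * t ^ (q - 1) * (x - t) ≤ x ^ q := by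
    intro x hx
    rcases ht0.eq_or_lt with h | h
    · rw [← h]
      rcases hq.eq_or_lt with h' | h'
      · rw [← h']; simp
      · rw [Real.zero_rpow (by linarith), Real.zero_rpow (by linarith)]
        simp; positivity
    · have hb := one_add_mul_self_le_rpow_one_add (s := x / t - 1) (by
        have : 0 ≤ x / t := by positivity
        linarith) hq
      have e1 : 1 + (x / t - 1) = x / t := by ring
      rw [e1, Real.div_rpow hx h.le, le_div_iff₀ (by positivity)] at hb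
      refine le_trans (le_of_eq ?_) hb
      have e2 : t ^ q = t ^ (q - 1) * t := by
        rw [← Real.rpow_add_one h.ne']; congr 1; ring
      rw [e2]
      field_simp
  have hi2 : Integrable (fun u => g u - t) ν := hi.sub (integrable_const _)
  have h1 : ∫ u, (t ^ q + q * t ^ (q - 1) * (g u - t)) ∂ν ≤ ∫ u, g u ^ q ∂ν :=
    integral_mono ((integrable_const _).add (hi2.const_mul _)) hiq fun u => htan _ (h0 u)
  have h3 : (∫ u, g u ∂ν) = m * t := by rw [ht]; field_simp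
  have h2 : ∫ u, (t ^ q + q * t ^ (q - 1) * (g u - t)) ∂ν = m * t ^ q := by
    rw [integral_add (integrable_const _) (hi2.const_mul _), integral_const_mul, integral_sub hi (integrable_const _),
      integral_const, integral_const, h3, ← hmd]
    simp
  rw [h2] at h1
  rw [h3, Real.mul_rpow hm.le ht0]
  have h4 : m ^ q = m ^ (q - 1) * m := by
    rw [← Real.rpow_add_one hm.ne']; congr 1; ring
  rw [h4, mul_assoc]
  exact mul_le_mul_of_nonneg_left h1 (by positivity)

end Run7.h772.KH
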