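import Pool.Agent.Run7.h772.KH.Pot

set_option autoImplicit false

/-!
# The quadratic functional over a measure with bounded potential
-/

namespace Run7.h772.KH

open Finset Filter MeasureTheory Topology Pool.Agent.N748.GC
open Pool.Agent.N748.GC.ED (k0 k0_nonneg)

variable {s C0 : ℝ} {μ : Measure ℝ}

/-- continuous functions are bounded on the unit interval -/
lemma cbd {g : ℝ → ℝ} (hg : Continuous g) : ∃ B : ℝ, 0 ≤ B ∧ ∀ x ∈ Set.Icc (0:ℝ) 1, |g x| ≤ B := by
  obtain ⟨B, hB⟩ := (isCompact_Icc (a := (0:ℝ)) (b := 1)).exists_bound_of_continuousOn hg.continuousOn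
  exact ⟨|B|, abs_nonneg _, fun x hx => (hB x hx).trans (le_abs_self B)⟩

lemma cint [IsFiniteMeasure μ] (hμs : ∀ᵐ x ∂μ, x ∈ Set.Icc (0:ℝ) 1) {g : ℝ → ℝ} (hg : Continuous g) :
    Integrable g μ := by
  obtain ⟨B, hB0, hB⟩ := cbd hg
  refine Integrable.of_bound hg.aestronglyMeasurable B ?_
  filter_upwards [hμs] with x hx using hB x hx

/-- the quadratic functional for a general kernel -/
theorem quad_le (h : FP s C0 μ) (hC0 : 0 ≤ C0) {f g K : ℝ → ℝ} {Bd C e ρ L ζ : ℝ} (hg : Continuous g)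
    (hf0 : ∀ u, 0 ≤ f u) (hfg : ∀ u, f u ≤ g u) (hfB : ∀ u, f u ≤ Bd) (hK0 : ∀ h, 0 ≤ K h)
    (hL : 0 < L) (hζ : 0 < ζ) (hζs : ζ ≤ s) (hC : 0 ≤ C) (he : 0 ≤ e)
    (hK : ∀ h, K h ≤ C * k0 L ζ h + (if |h| ≤ ρ then C else 0) + e) {n : ℕ} (hn : 0 < n) (hρ : ρ ≤ 1 / n) :
    ∫ p : ℝ × ℝ, f p.1 * f p.2 * K (p.1 - p.2) ∂(μ.prod μ) ≤
      Bd * C * (C0 * L ^ (-s)) * (∫ u, g u ∂μ)
        + C * (∑ k ∈ range n, (∫ v in cell n k, g v ∂μ) ^ 2)
        + e * (∫ u, g u ∂μ) ^ 2 := by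
  have hfin := h.fin
  have hg0 : ∀ u, 0 ≤ g u := fun u => (hf0 u).trans (hfg u)
  have hBd : 0 ≤ Bd := (hf0 0).trans (hfB 0)
  have hgi := cint h.supp hg
  obtain ⟨B, hB0, hB⟩ := cbd hg
  have hs2 : ∀ᵐ p ∂(μ.prod μ), p.1 ∈ Set.Icc (0:ℝ) 1 ∧ p.2 ∈ Set.Icc (0:ℝ) 1 := by
    have k1 : ∀ᵐ p ∂(μ.prod μ), p.1 ∈ Set.Icc (0:ℝ) 1 := Measure.quasiMeasurePreserving_fst.ae h.supp
    have k2 : ∀ᵐ p ∂(μ.prod μ), p.2 ∈ Set.Icc (0:ℝ) 1 := Measure.quasiMeasurePreserving_snd.ae h.supp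
    filter_upwards [k1, k2] with p h1 h2 using ⟨h1, h2⟩
  -- the three parts of the majorant
  have i1 : Integrable (fun p : ℝ × ℝ => g p.1 * k0 L ζ (p.1 - p.2)) (μ.prod μ) := by
    refine (h.ker2 hC0 hL hζ hζs).bdd_mul (c := B) (hg.comp continuous_fst).aestronglyMeasurable ?_
    filter_upwards [hs2] with p hp using hB p.1 hp.1
  have hci : ∀ k : ℕ, Integrable ((cell n k).indicator g) μ := fun k => hgi.indicator (cell_meas n k)
  have i2 : ∀ k : ℕ, Integrable (fun p : ℝ × ℝ => (cell n k).indicator g p.1 * (cell n k).indicator g p.2) (μ.prod μ) :=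
    fun k => (hci k).mul_prod (hci k)
  have i2' : Integrable (fun p : ℝ × ℝ => ∑ k ∈ range n, (cell n k).indicator g p.1 * (cell n k).indicator g p.2)
      (μ.prod μ) := integrable_finsetSum _ fun k _ => i2 k
  have i3 : Integrable (fun p : ℝ × ℝ => g p.1 * g p.2) (μ.prod μ) := hgi.mul_prod hgi
  have iall : Integrable (fun p : ℝ × ℝ => Bd * C * (g p.1 * k0 L ζ (p.1 - p.2)) +
      C * (∑ k ∈ range n, (cell n k).indicator g p.1 * (cell n k).indicator g p.2) + e * (g p.1 * g p.2)) (μ.prod μ) :=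
    ((i1.const_mul _).add (i2'.const_mul _)).add (i3.const_mul _)
  have hcell0 : ∀ (k : ℕ) (x : ℝ), 0 ≤ (cell n k).indicator g x := fun k x => Set.indicator_nonneg (fun x _ => hg0 x) x
  have hpt : ∀ᵐ p ∂(μ.prod μ), f p.1 * f p.2 * K (p.1 - p.2) ≤ Bd * C * (g p.1 * k0 L ζ (p.1 - p.2)) +
      C * (∑ k ∈ range n, (cell n k).indicator g p.1 * (cell n k).indicator g p.2) + e * (g p.1 * g p.2) := by
    filter_upwards [hs2] with p hp
    have hk := k0_nonneg L ζ hL (p.1 - p.2)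
    have f1 := hf0 p.1
    have f2 := hf0 p.2
    have g1 := hg0 p.1
    have g2 := hg0 p.2
    have hmid : f p.1 * f p.2 * (if |p.1 - p.2| ≤ ρ then C else 0) ≤
        C * (∑ k ∈ range n, (cell n k).indicator g p.1 * (cell n k).indicator g p.2) := by
      have hsum0 : 0 ≤ ∑ k ∈ range n, (cell n k).indicator g p.1 * (cell n k).indicator g p.2 :=
        Finset.sum_nonneg fun k _ => mul_nonneg (hcell0 k _) (hcell0 k _)
      split_ifs with hc
      · obtain ⟨k, hk, hk1, hk2⟩ := cell_pt hn hρ hp.1 hc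
        have h1 : (cell n k).indicator g p.1 * (cell n k).indicator g p.2 ≤
            ∑ k ∈ range n, (cell n k).indicator g p.1 * (cell n k).indicator g p.2 :=
          Finset.single_le_sum (f := fun k => (cell n k).indicator g p.1 * (cell n k).indicator g p.2)
            (fun k _ => mul_nonneg (hcell0 k _) (hcell0 k _)) hk
        rw [Set.indicator_of_mem hk1, Set.indicator_of_mem hk2] at h1
        have h2 : f p.1 * f p.2 ≤ g p.1 * g p.2 := mul_le_mul (hfg _) (hfg _) f2 g1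
        calc f p.1 * f p.2 * C ≤ g p.1 * g p.2 * C := mul_le_mul_of_nonneg_right h2 hC
          _ = C * (g p.1 * g p.2) := by ring
          _ ≤ _ := mul_le_mul_of_nonneg_left h1 hC
      · rw [mul_zero]
        exact mul_nonneg hC hsum0
    calc f p.1 * f p.2 * K (p.1 - p.2)
        ≤ f p.1 * f p.2 * (C * k0 L ζ (p.1 - p.2) + (if |p.1 - p.2| ≤ ρ then C else 0) + e) :=
          mul_le_mul_of_nonneg_left (hK _) (mul_nonneg f1 f2)
      _ = C * (f p.1 * f p.2 * k0 L ζ (p.1 - p.2)) + f p.1 * f p.2 * (if |p.1 - p.2| ≤ ρ then C else 0) +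
          e * (f p.1 * f p.2) := by ring
      _ ≤ C * (g p.1 * Bd * k0 L ζ (p.1 - p.2)) +
          C * (∑ k ∈ range n, (cell n k).indicator g p.1 * (cell n k).indicator g p.2) + e * (g p.1 * g p.2) := by
          refine add_le_add (add_le_add ?_ hmid) ?_
          · refine mul_le_mul_of_nonneg_left ?_ hC
            exact mul_le_mul_of_nonneg_right (mul_le_mul (hfg _) (hfB _) f2 g1) hk
          · exact mul_le_mul_of_nonneg_left (mul_le_mul (hfg _) (hfg _) f2 g1) he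
      _ = _ := by ring
  refine (integral_mono_of_nonneg (Eventually.of_forall fun p =>
    mul_nonneg (mul_nonneg (hf0 _) (hf0 _)) (hK0 _)) iall hpt).trans ?_
  have i12 : Integrable (fun p : ℝ × ℝ => Bd * C * (g p.1 * k0 L ζ (p.1 - p.2)) +
      C * (∑ k ∈ range n, (cell n k).indicator g p.1 * (cell n k).indicator g p.2)) (μ.prod μ) :=
    (i1.const_mul _).add (i2'.const_mul _)
  rw [integral_add i12 (i3.const_mul _),
    integral_add (i1.const_mul _) (i2'.const_mul _), integral_const_mul, integral_const_mul, integral_const_mul,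
    integral_finsetSum _ fun k _ => i2 k]
  have e3 : ∫ p : ℝ × ℝ, g p.1 * g p.2 ∂(μ.prod μ) = (∫ u, g u ∂μ) ^ 2 := by
    rw [integral_prod_mul g g, sq]
  have e2 : ∀ k : ℕ, ∫ p : ℝ × ℝ, (cell n k).indicator g p.1 * (cell n k).indicator g p.2 ∂(μ.prod μ) =
      (∫ v in cell n k, g v ∂μ) ^ 2 := by
    intro k
    rw [integral_prod_mul ((cell n k).indicator g) ((cell n k).indicator g), sq, integral_indicator (cell_meas n k)]
  have e1 : ∫ p : ℝ × ℝ, g p.1 * k0 L ζ (p.1 - p.2) ∂(μ.prod μ) ≤ C0 * L ^ (-s) * ∫ u, g u ∂μ := by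
    rw [integral_prod _ i1, ← integral_const_mul]
    refine integral_mono_ae i1.integral_prod_left (hgi.const_mul _) ?_
    filter_upwards [h.ker1 hC0 hL hζ hζs] with u hu
    show ∫ v, g u * k0 L ζ (u - v) ∂μ ≤ C0 * L ^ (-s) * g u
    rw [integral_const_mul, mul_comm]
    exact mul_le_mul_of_nonneg_right hu.2 (hg0 u)
  rw [e3]
  simp only [e2]
  refine add_le_add (add_le_add ?_ le_rfl) le_rfl
  calc Bd * C * ∫ p : ℝ × ℝ, g p.1 * k0 L ζ (p.1 - p.2) ∂(μ.prod μ) ≤ Bd * C * (C0 * L ^ (-s) * ∫ u, g u ∂μ) :=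
        mul_le_mul_of_nonneg_left e1 (mul_nonneg hBd hC)
    _ = _ := by ring

/-- the masses of the cells -/
theorem cells_le (h : FP s C0 μ) (hs : 0 < s) (hC0 : 0 ≤ C0) {g : ℝ → ℝ} (hg : Continuous g) (hg0 : ∀ u, 0 ≤ g u) {n : ℕ}
    (hn : 0 < n) {q : ℝ} (hq : 1 ≤ q) (hq2 : q ≤ 2) :
    (∑ k ∈ range n, (∫ v in cell n k, g v ∂μ) ^ 2) ^ (q / 2) ≤
      (C0 * (3 / (n:ℝ)) ^ s) ^ (q - 1) * (4 * ∫ u, g u ^ q ∂μ) := by
  have hfin := h.fin
  have hn' : (0:ℝ) < n := by exact_mod_cast hn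
  have hgi := cint h.supp hg
  have hgq : Continuous fun u => g u ^ q := hg.rpow_const fun u => Or.inr (by linarith)
  have hgqi := cint h.supp hgq
  have hW0 : ∀ k, 0 ≤ ∫ v in cell n k, g v ∂μ := fun k => integral_nonneg hg0
  have h1 := Pool.Agent.N748.GC.ED.rpow_sum_le (range n) (fun k => (∫ v in cell n k, g v ∂μ) ^ 2) (fun k => sq_nonneg _)
    (q := q / 2) (by linarith) (by linarith) (by linarith)
  refine h1.trans ?_
  have e1 : ∀ k, ((∫ v in cell n k, g v ∂μ) ^ 2) ^ (q / 2) = (∫ v in cell n k, g v ∂μ) ^ q := by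
    intro k
    rw [← Real.rpow_natCast, ← Real.rpow_mul (hW0 k)]
    congr 1
    push_cast; ring
  simp only [e1]
  have h2 : ∀ k, (∫ v in cell n k, g v ∂μ) ^ q ≤ (C0 * (3 / (n:ℝ)) ^ s) ^ (q - 1) * ∫ v in cell n k, g v ^ q ∂μ := by
    intro k
    have h3 := jens (ν := μ.restrict (cell n k)) hg0 hq hgi.restrict hgqi.restrict
    refine h3.trans (mul_le_mul_of_nonneg_right ?_ (integral_nonneg fun v => Real.rpow_nonneg (hg0 v) _))
    refine Real.rpow_le_rpow measureReal_nonneg ?_ (by linarith)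
    rw [measureReal_restrict_apply MeasurableSet.univ, Set.univ_inter]
    have h4 := h.cell hs hC0 (a := ((k:ℝ) - 1) / n) (b := ((k:ℝ) + 2) / n) (div_lt_div_of_pos_right (by linarith) hn')
    have e2 : ((k:ℝ) + 2) / n - ((k:ℝ) - 1) / n = 3 / n := by ring
    rw [e2] at h4
    exact h4
  refine (Finset.sum_le_sum fun k _ => h2 k).trans ?_
  rw [← Finset.mul_sum]
  refine mul_le_mul_of_nonneg_left ?_ (by positivity)
  have hci : ∀ k : ℕ, Integrable ((cell n k).indicator fun v => g v ^ q) μ := fun k => hgqi.indicator (cell_meas n k)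
  have e3 : ∑ k ∈ range n, ∫ v in cell n k, g v ^ q ∂μ = ∫ v, ∑ k ∈ range n, (cell n k).indicator (fun v => g v ^ q) v ∂μ := by
    rw [integral_finsetSum _ fun k _ => hci k]
    refine Finset.sum_congr rfl fun k _ => ?_
    rw [integral_indicator (cell_meas n k)]
  rw [e3, ← integral_const_mul]
  refine integral_mono (integrable_finsetSum _ fun k _ => hci k) (hgqi.const_mul _) fun v => ?_
  show ∑ k ∈ range n, (cell n k).indicator (fun v => g v ^ q) v ≤ 4 * g v ^ q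
  have h5 : 0 ≤ g v ^ q := Real.rpow_nonneg (hg0 v) _
  have e4 : ∀ k, (cell n k).indicator (fun v => g v ^ q) v = (cell n k).indicator (fun _ => (1:ℝ)) v * g v ^ q := by
    intro k
    by_cases hk : v ∈ cell n k
    · rw [Set.indicator_of_mem hk, Set.indicator_of_mem hk, one_mul]
    · rw [Set.indicator_of_notMem hk, Set.indicator_of_notMem hk, zero_mul]
  simp only [e4]
  rw [← Finset.sum_mul]
  exact mul_le_mul_of_nonneg_right (cell_card hn v) h5

end Run7.h772.KH
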