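import Pool.Agent.Run7.h772.KH.First
import Pool.Agent.H402R2.SubMean

set_option autoImplicit false

/-!
# Local maxima of the moment weight: sub-mean value property and time averages
-/

namespace Run7.h772.KH

open Finset Filter MeasureTheory Topology Complex Metric
open scoped ENNReal
open Pool.Agent.N748.GC
open Pool.Agent.Y755 Pool.Agent.W184.NZ
open Pool.Agent.W184 (zn zn_nonneg zn_cont zn_le')
open Pool.Agent.H306R2 (aF aF_pos)

lemma zeta_meas : Measurable riemannZeta :=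
  measurable_of_continuousOn_compl_singleton 1 fun s hs => (differentiableAt_riemannZeta hs).continuousAt.continuousWithinAt

/-- the integral of the weight over a box of side `δ` next to the segment `1/2 + δ + i [t+a, t+a+δ]` -/
noncomputable def bx (q δ a t : ℝ) : ℝ≥0∞ :=
  ∫⁻ s in Set.Icc (δ / 2) (3 * δ / 2), ∫⁻ v in Set.Icc (a - δ / 2) (a + 3 * δ / 2), ENNReal.ofReal (zn (1 / 2 + s) (t + v) ^ q)

lemma znm3 (q : ℝ) : Measurable fun r : ℝ × ℝ × ℝ => ENNReal.ofReal (zn (1 / 2 + r.1) (r.2.1 + r.2.2) ^ q) := by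
  unfold zn
  refine Measurable.ennreal_ofReal (Measurable.pow_const (Measurable.norm (zeta_meas.comp ?_)) q)
  fun_prop

lemma sm {q δ : ℝ} (hq : 0 < q) (hδ : 0 < δ) (hδ' : δ ≤ 1 / 16) (t x a : ℝ) (ha : a ≤ x) (hb : x ≤ a + δ) :
    ENNReal.ofReal (zn (1 / 2 + δ) (t + x) ^ q * (Real.pi * (δ / 2) ^ 2)) ≤ bx q δ a t := by
  set g : ℂ → ℂ := fun z => riemannZeta (1 / 2 + z + t * I) with hg
  have hd : DifferentiableOn ℂ g (ball ((δ:ℂ) + x * I) (δ / 2)) := by
    intro z hz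
    refine DifferentiableAt.differentiableWithinAt ?_
    have h1 : (1:ℂ) / 2 + z + t * I ≠ 1 := by
      intro h
      have h2 := congrArg Complex.re h
      simp at h2
      have h3 : |(z - ((δ:ℂ) + x * I)).re| ≤ ‖z - ((δ:ℂ) + x * I)‖ := abs_re_le_norm _
      rw [mem_ball, dist_eq_norm] at hz
      simp at h3
      have := (abs_le.mp h3).2
      linarith
    exact (differentiableAt_riemannZeta h1).comp z (by fun_prop)
  have h1 := Pool.Agent.H402R2.SubMean.rpow_mul_le_lintegral (g := g) (w := (δ:ℂ) + x * I) (ρ := δ / 2) (p := q)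
    (by linarith) hq hd
  have e1 : ‖g ((δ:ℂ) + x * I)‖ = zn (1 / 2 + δ) (t + x) := by
    simp only [hg, zn]
    congr 2
    push_cast
    ring
  rw [e1] at h1
  refine h1.trans ?_
  have h2 : ball ((δ:ℂ) + x * I) (δ / 2) ⊆ measurableEquivRealProd ⁻¹'
      (Set.Icc (δ / 2) (3 * δ / 2) ×ˢ Set.Icc (a - δ / 2) (a + 3 * δ / 2)) := by
    intro z hz
    rw [mem_ball, dist_eq_norm] at hz
    have h3 : |(z - ((δ:ℂ) + x * I)).re| ≤ ‖z - ((δ:ℂ) + x * I)‖ := abs_re_le_norm _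
    have h4 : |(z - ((δ:ℂ) + x * I)).im| ≤ ‖z - ((δ:ℂ) + x * I)‖ := abs_im_le_norm _
    simp at h3 h4
    have h5 := abs_le.mp h3
    have h6 := abs_le.mp h4
    simp only [Set.mem_preimage, measurableEquivRealProd_apply, Set.mem_prod, Set.mem_Icc]
    refine ⟨⟨by linarith [h5.1], by linarith [h5.2]⟩, ⟨by linarith [h6.1], by linarith [h6.2]⟩⟩
  refine (lintegral_mono_set h2).trans ?_
  have h3 : ∀ z : ℂ, ‖g z‖ₑ ^ q = (fun r : ℝ × ℝ => ENNReal.ofReal (zn (1 / 2 + r.1) (t + r.2) ^ q))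
      (measurableEquivRealProd z) := by
    intro z
    simp only [measurableEquivRealProd_apply]
    rw [← ofReal_norm, ENNReal.ofReal_rpow_of_nonneg (norm_nonneg _) hq.le]
    congr 2
    simp only [hg, zn]
    congr 2
    apply Complex.ext <;> simp
    ring
  simp only [h3]
  have hm : Measurable fun r : ℝ × ℝ => ENNReal.ofReal (zn (1 / 2 + r.1) (t + r.2) ^ q) :=
    (znm3 q).comp (g := fun r : ℝ × ℝ × ℝ => ENNReal.ofReal (zn (1 / 2 + r.1) (r.2.1 + r.2.2) ^ q))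
      (f := fun r : ℝ × ℝ => (r.1, t, r.2)) (by fun_prop)
  rw [Complex.volume_preserving_equiv_real_prod.setLIntegral_comp_preimage (measurableSet_Icc.prod measurableSet_Icc) hm]
  rw [Measure.volume_eq_prod, setLIntegral_prod _ hm.aemeasurable]
  exact le_rfl

lemma bx_time {β : ℝ} (h0 : 0 < β) (h2 : β ≤ 2) : ∃ lam δ0 : ℝ, 1 ≤ lam ∧ 0 < δ0 ∧ δ0 ≤ 1 / 16 ∧
    ∀ᶠ T : ℝ in atTop, ∀ δ : ℝ, lam / Real.log T ≤ δ → δ ≤ δ0 → ∀ a ∈ Set.Icc (0:ℝ) 1,
    ∫⁻ t in Set.Icc 1 T, bx (2 * β) δ a t ≤ ENNReal.ofReal (160 * aF β * δ ^ (2 - β ^ 2) * T) := by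
  obtain ⟨lam, δ0, h1, h3, h4, hev⟩ := first h0 h2
  refine ⟨2 * lam, δ0 / 2, by linarith, by linarith, by linarith, ?_⟩
  have ht : Tendsto (fun X : ℝ => X + 1) atTop atTop := tendsto_atTop_add_const_right _ _ tendsto_id
  have ht' : Tendsto (fun X : ℝ => X + 1) atTop atTop := ht
  have haF := aF_pos h0
  filter_upwards [ht.eventually hev, eventually_ge_atTop 256] with T g1 hT δ hd1 hd2 a ha
  have hL0 : 0 < Real.log T := Real.log_pos (by linarith)
  have hδp : 0 < δ := lt_of_lt_of_le (div_pos (by linarith) hL0) hd1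
  have key : ∀ s ∈ Set.Icc (δ / 2) (3 * δ / 2), ∀ v ∈ Set.Icc (a - δ / 2) (a + 3 * δ / 2),
      ∫⁻ t in Set.Icc 1 T, ENNReal.ofReal (zn (1 / 2 + s) (t + v) ^ (2 * β)) ≤
      ENNReal.ofReal (80 * aF β * δ ^ (- β ^ 2) * T) := by
    intro s hs v hv
    have hs0 : 0 < s := by linarith [hs.1]
    have hs1 : lam / Real.log (T + 1) ≤ s := by
      have e1 : lam / Real.log (T + 1) ≤ lam / Real.log T :=
        div_le_div_of_nonneg_left (by linarith) hL0 (Real.log_le_log (by linarith) (by linarith))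
      have e2 : lam / Real.log T = (2 * lam / Real.log T) / 2 := by ring
      linarith [hs.1]
    have hs2 : s ≤ δ0 := by linarith [hs.2]
    have h5 := g1 s hs1 hs2
    have hzc : Continuous fun u => zn (1 / 2 + s) u ^ (2 * β) := znp_cont (by linarith) (by linarith)
    have hv1 : -(1/8) ≤ v := by linarith [hv.1, ha.1]
    have hv2 : v ≤ 1 + 1/8 := by linarith [hv.2, ha.2]
    have e1 : ∫⁻ t in Set.Icc 1 T, ENNReal.ofReal (zn (1 / 2 + s) (t + v) ^ (2 * β)) =
        ENNReal.ofReal (∫ t in Set.Icc 1 T, zn (1 / 2 + s) (t + v) ^ (2 * β)) := by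
      rw [ofReal_integral_eq_lintegral_ofReal]
      · exact ((hzc.comp (by fun_prop : Continuous fun t : ℝ => t + v)).continuousOn.integrableOn_Icc)
      · exact Eventually.of_forall fun u => Real.rpow_nonneg (zn_nonneg _ _) _
    rw [e1]
    refine ENNReal.ofReal_le_ofReal ?_
    rw [integral_Icc_eq_integral_Ioc, ← intervalIntegral.integral_of_le (by linarith),
      intervalIntegral.integral_comp_add_right (fun u => zn (1 / 2 + s) u ^ (2 * β)) v]
    have e2 : ∫ u in (1 + v)..(T + v), zn (1 / 2 + s) u ^ (2 * β) ≤ ∫ u in (0:ℝ)..(T + 1 + 1), zn (1 / 2 + s) u ^ (2 * β) :=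
      intervalIntegral.integral_mono_interval (by linarith) (by linarith) (by linarith)
        (Eventually.of_forall fun u => Real.rpow_nonneg (zn_nonneg _ _) _) (hzc.intervalIntegrable _ _)
    refine e2.trans ?_
    have e3 : ∫ u in (0:ℝ)..(T + 1 + 1), Zn β s u = (2 * s) ^ (β ^ 2) / aF β * ∫ u in (0:ℝ)..(T + 1 + 1), zn (1 / 2 + s) u ^ (2 * β) := by
      rw [← intervalIntegral.integral_const_mul]
      refine intervalIntegral.integral_congr fun u _ => ?_
      exact Zn_eq β s u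
    rw [e3] at h5
    have hp0 : 0 < (2 * s) ^ (β ^ 2) := by positivity
    have e4 : ∫ u in (0:ℝ)..(T + 1 + 1), zn (1 / 2 + s) u ^ (2 * β) ≤ aF β * (2 * s) ^ (-β ^ 2) * (40 * (T + 1)) := by
      have e5 : ∫ u in (0:ℝ)..(T + 1 + 1), zn (1 / 2 + s) u ^ (2 * β) = aF β * (2 * s) ^ (-β ^ 2) *
          ((2 * s) ^ (β ^ 2) / aF β * ∫ u in (0:ℝ)..(T + 1 + 1), zn (1 / 2 + s) u ^ (2 * β)) := by
        rw [Real.rpow_neg (by positivity)]
        field_simp
      rw [e5]
      exact mul_le_mul_of_nonneg_left h5 (by positivity)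
    refine e4.trans ?_
    have e6 : (2 * s) ^ (-β ^ 2) ≤ δ ^ (-β ^ 2) :=
      Real.rpow_le_rpow_of_nonpos hδp (by linarith [hs.1]) (by nlinarith [sq_nonneg β])
    have e7 : 40 * (T + 1) ≤ 80 * T := by linarith
    calc aF β * (2 * s) ^ (-β ^ 2) * (40 * (T + 1)) ≤ aF β * δ ^ (-β ^ 2) * (80 * T) := by gcongr
      _ = _ := by ring
  have hm := znm3 (2 * β)
  have sw1 : ∫⁻ t in Set.Icc 1 T, bx (2 * β) δ a t = ∫⁻ s in Set.Icc (δ / 2) (3 * δ / 2),
      ∫⁻ v in Set.Icc (a - δ / 2) (a + 3 * δ / 2), ∫⁻ t in Set.Icc 1 T, ENNReal.ofReal (zn (1 / 2 + s) (t + v) ^ (2 * β)) := by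
    unfold bx
    rw [lintegral_lintegral_swap]
    · refine lintegral_congr fun s => ?_
      rw [lintegral_lintegral_swap]
      exact (hm.comp (g := fun r : ℝ × ℝ × ℝ => ENNReal.ofReal (zn (1 / 2 + r.1) (r.2.1 + r.2.2) ^ (2 * β)))
        (f := fun r : ℝ × ℝ => (s, r.1, r.2)) (by fun_prop)).aemeasurable
    · refine Measurable.aemeasurable ?_
      have : Measurable fun r : (ℝ × ℝ) × ℝ => ENNReal.ofReal (zn (1 / 2 + r.1.2) (r.1.1 + r.2) ^ (2 * β)) :=
        hm.comp (g := fun r : ℝ × ℝ × ℝ => ENNReal.ofReal (zn (1 / 2 + r.1) (r.2.1 + r.2.2) ^ (2 * β)))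
          (f := fun r : (ℝ × ℝ) × ℝ => (r.1.2, r.1.1, r.2)) (by fun_prop)
      exact this.lintegral_prod_right'
  rw [sw1]
  have hT0 : 0 < T := by linarith
  calc ∫⁻ s in Set.Icc (δ / 2) (3 * δ / 2), ∫⁻ v in Set.Icc (a - δ / 2) (a + 3 * δ / 2),
        ∫⁻ t in Set.Icc 1 T, ENNReal.ofReal (zn (1 / 2 + s) (t + v) ^ (2 * β))
      ≤ ∫⁻ s in Set.Icc (δ / 2) (3 * δ / 2), ∫⁻ v in Set.Icc (a - δ / 2) (a + 3 * δ / 2),
        ENNReal.ofReal (80 * aF β * δ ^ (- β ^ 2) * T) :=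
        setLIntegral_mono' measurableSet_Icc fun s hs => setLIntegral_mono' measurableSet_Icc fun v hv => key s hs v hv
    _ = ENNReal.ofReal (160 * aF β * δ ^ (2 - β ^ 2) * T) := by
        rw [setLIntegral_const, setLIntegral_const, Real.volume_Icc, Real.volume_Icc,
          show a + 3 * δ / 2 - (a - δ / 2) = 2 * δ by ring, show 3 * δ / 2 - δ / 2 = δ by ring,
          ← ENNReal.ofReal_mul (by positivity), ← ENNReal.ofReal_mul (by positivity)]
        congr 1
        rw [sub_eq_add_neg 2, Real.rpow_add hδp, Real.rpow_two]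
        ring

end Run7.h772.KH
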