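import Pool.Agent.Run7.h772.KH.Fin

set_option autoImplicit false

/-!
# Thick points over a measure, and the maximum over a set
-/

namespace Run7.h772.KH

open Finset Filter MeasureTheory Topology Pool.Agent.N748.GC
open scoped ENNReal
open Pool.Agent.Y755 Pool.Agent.W184.NZ
open Pool.Agent.W184 (zn zn_nonneg zn_cont zn_le')

variable {μ : Measure ℝ} {δ : ℝ → ℝ}

lemma split_pt {Z a b V h : ℝ} (hZ : 0 ≤ Z) (ha : 0 < a) (hb : 0 < b) (hV : 0 < V) (h0 : 0 < h) (hhV : h < V) (i : ℝ)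
    (hi : i = if a ≤ Z then (1:ℝ) else 0) :
    Z ^ (2 * V) ≤ b ^ (2 * V) * i + a ^ (2 * h) * Z ^ (2 * (V - h)) + b ^ (-(2 * h)) * Z ^ (2 * (V + h)) := by
  have q1 : 0 ≤ b ^ (2 * V) := Real.rpow_nonneg hb.le _
  have q2 : 0 ≤ a ^ (2 * h) * Z ^ (2 * (V - h)) := mul_nonneg (Real.rpow_nonneg ha.le _) (Real.rpow_nonneg hZ _)
  have q3 : 0 ≤ b ^ (-(2 * h)) * Z ^ (2 * (V + h)) := mul_nonneg (Real.rpow_nonneg hb.le _) (Real.rpow_nonneg hZ _)
  rcases lt_or_ge Z a with h1 | h1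
  · rw [hi, if_neg (not_le.mpr h1), mul_zero, zero_add]
    have e1 : Z ^ (2 * V) = Z ^ (2 * h) * Z ^ (2 * (V - h)) := by
      rw [← Real.rpow_add_of_nonneg hZ (by positivity) (by linarith)]
      congr 1
      ring
    have e2 : Z ^ (2 * h) ≤ a ^ (2 * h) := Real.rpow_le_rpow hZ h1.le (by positivity)
    rw [e1]
    have := mul_le_mul_of_nonneg_right e2 (Real.rpow_nonneg hZ (2 * (V - h)))
    linarith
  · rw [hi, if_pos h1, mul_one]
    rcases le_or_gt Z b with h2 | h2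
    · have := Real.rpow_le_rpow hZ h2 (show 0 ≤ 2 * V by positivity)
      linarith
    · have hZ0 : 0 < Z := hb.trans h2
      have e1 : Z ^ (2 * V) = Z ^ (-(2 * h)) * Z ^ (2 * (V + h)) := by
        rw [← Real.rpow_add hZ0]
        congr 1
        ring
      have e2 : Z ^ (-(2 * h)) ≤ b ^ (-(2 * h)) := Real.rpow_le_rpow_of_nonpos hb h2.le (by linarith)
      rw [e1]
      have := mul_le_mul_of_nonneg_right e2 (Real.rpow_nonneg hZ (2 * (V + h)))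
      linarith

theorem thick_low [IsFiniteMeasure μ] (hμs : ∀ᵐ x ∂μ, x ∈ Set.Icc (0:ℝ) 1) {r V0 : ℝ} (hV0 : 0 < V0) (hVr : V0 < r)
    (hr1 : r ≤ 1) (hL : ∀ s : ℝ, s < r ^ 2 → μ (above μ s) ≠ 0) (hδ : Pd δ) {e : ℝ} (he : 0 < e) :
    AA fun T t => δ T ^ (V0 ^ 2 + e) ≤ μ.real {x | δ T ^ (-V0) ≤ zn (1 / 2 + δ T) (t + x)} := by
  obtain ⟨a, ha⟩ : ∃ a : ℝ, a = min ((r - V0) / 2) (min 1 (e / 16)) := ⟨_, rfl⟩
  have a0 : 0 < a := by rw [ha]; exact lt_min (by linarith) (lt_min one_pos (by positivity))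
  have a1 : a ≤ (r - V0) / 2 := by rw [ha]; exact min_le_left _ _
  have a2 : a ≤ 1 := by rw [ha]; exact (min_le_right _ _).trans (min_le_left _ _)
  have a3 : a ≤ e / 16 := by rw [ha]; exact (min_le_right _ _).trans (min_le_right _ _)
  obtain ⟨V, hV⟩ : ∃ V : ℝ, V = V0 + a := ⟨_, rfl⟩
  have hVp : 0 < V := by rw [hV]; linarith
  have hVr' : V < r := by rw [hV]; linarith
  obtain ⟨h, hh⟩ : ∃ h : ℝ, h = a / 2 := ⟨_, rfl⟩
  have h0 : 0 < h := by rw [hh]; positivity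
  have hhV : h < V := by rw [hh, hV]; linarith
  obtain ⟨e1, he1⟩ : ∃ e1 : ℝ, e1 = a ^ 2 / 8 := ⟨_, rfl⟩
  have he10 : 0 < e1 := by rw [he1]; positivity
  have g1 := AA_low hμs hVp (by linarith) (hL (V ^ 2) (by nlinarith)) hδ he10
  have g2 := AA_up (μ := μ) hμs (show 0 < V - h by linarith) (by linarith) hδ he10
  have g3 := AA_up (μ := μ) hμs (show 0 < V + h by linarith) (by rw [hh]; linarith) hδ he10
  refine ((g1.and g2).and g3).mono ?_
  filter_upwards [Pd.pos hδ, hδ.t0.eventually_le_const (show (0:ℝ) < 1 / 4 by norm_num),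
    Pd.small hδ 4 (show -V ^ 2 + e1 < -V ^ 2 + 5 * a ^ 2 / 8 by rw [he1]; nlinarith [sq_pos_of_pos a0]),
    Pd.small hδ 2 (show V ^ 2 + 2 * V * a + e1 < V0 ^ 2 + e by
      rw [hV, he1]
      nlinarith [mul_nonneg a0.le (show 0 ≤ 1 - a by linarith), mul_nonneg a0.le (show 0 ≤ 1 - V0 by linarith)])]
    with T d1 d2 s1 s2 t ⟨⟨g4, g5⟩, g6⟩
  have hA : MeasurableSet {x | δ T ^ (-V0) ≤ zn (1 / 2 + δ T) (t + x)} := by
    have : Measurable fun x : ℝ => zn (1 / 2 + δ T) (t + x) := by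
      unfold zn
      refine Measurable.norm (zeta_meas.comp ?_)
      fun_prop
    exact measurableSet_le measurable_const this
  set A := {x | δ T ^ (-V0) ≤ zn (1 / 2 + δ T) (t + x)} with hAd
  obtain ⟨bb, hbb⟩ : ∃ bb : ℝ, bb = δ T ^ (-V - a) := ⟨_, rfl⟩
  obtain ⟨aa', haa⟩ : ∃ aa' : ℝ, aa' = δ T ^ (-V0) := ⟨_, rfl⟩
  have hbb0 : 0 < bb := by rw [hbb]; exact Real.rpow_pos_of_pos d1 _
  have haa0 : 0 < aa' := by rw [haa]; exact Real.rpow_pos_of_pos d1 _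
  have i1 : Integrable (fun x => bb ^ (2 * V) * A.indicator (fun _ => (1:ℝ)) x) μ :=
    ((integrable_const (1:ℝ)).indicator hA).const_mul _
  have i2 : Integrable (fun x => aa' ^ (2 * h) * zn (1 / 2 + δ T) (t + x) ^ (2 * (V - h))) μ :=
    (cint hμs (znx_cont (by linarith) (by linarith))).const_mul _
  have i3 : Integrable (fun x => bb ^ (-(2 * h)) * zn (1 / 2 + δ T) (t + x) ^ (2 * (V + h))) μ :=
    (cint hμs (znx_cont (by linarith) (by linarith))).const_mul _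
  have k1 : SS μ V (δ T) t ≤ bb ^ (2 * V) * μ.real A + aa' ^ (2 * h) * SS μ (V - h) (δ T) t +
      bb ^ (-(2 * h)) * SS μ (V + h) (δ T) t := by
    have k2 : SS μ V (δ T) t ≤ ∫ x, (bb ^ (2 * V) * A.indicator (fun _ => (1:ℝ)) x +
        aa' ^ (2 * h) * zn (1 / 2 + δ T) (t + x) ^ (2 * (V - h)) +
        bb ^ (-(2 * h)) * zn (1 / 2 + δ T) (t + x) ^ (2 * (V + h))) ∂μ := by
      unfold SS
      refine integral_mono (cint hμs (znx_cont hVp (by linarith))) ((i1.add i2).add i3) fun x => ?_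
      refine split_pt (zn_nonneg _ _) haa0 hbb0 hVp h0 hhV _ ?_
      rw [haa]
      rfl
    refine k2.trans (le_of_eq ?_)
    have i12 : Integrable (fun x => bb ^ (2 * V) * A.indicator (fun _ => (1:ℝ)) x +
        aa' ^ (2 * h) * zn (1 / 2 + δ T) (t + x) ^ (2 * (V - h))) μ := i1.add i2
    rw [integral_add i12 i3, integral_add i1 i2, integral_const_mul, integral_const_mul, integral_const_mul,
      integral_indicator hA, setIntegral_const, smul_eq_mul, mul_one]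
    rfl
  have k3 : aa' ^ (2 * h) * SS μ (V - h) (δ T) t ≤ δ T ^ (-V ^ 2 + 5 * a ^ 2 / 8) := by
    calc aa' ^ (2 * h) * SS μ (V - h) (δ T) t ≤ aa' ^ (2 * h) * δ T ^ (-(V - h) ^ 2 - e1) :=
          mul_le_mul_of_nonneg_left g5 (Real.rpow_nonneg haa0.le _)
      _ = δ T ^ (-V ^ 2 + 5 * a ^ 2 / 8) := by
          rw [haa, ← Real.rpow_mul d1.le, ← Real.rpow_add d1]
          congr 1
          rw [hh, he1, hV]
          ring
  have k4 : bb ^ (-(2 * h)) * SS μ (V + h) (δ T) t ≤ δ T ^ (-V ^ 2 + 5 * a ^ 2 / 8) := by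
    calc bb ^ (-(2 * h)) * SS μ (V + h) (δ T) t ≤ bb ^ (-(2 * h)) * δ T ^ (-(V + h) ^ 2 - e1) :=
          mul_le_mul_of_nonneg_left g6 (Real.rpow_nonneg hbb0.le _)
      _ = δ T ^ (-V ^ 2 + 5 * a ^ 2 / 8) := by
          rw [hbb, ← Real.rpow_mul d1.le, ← Real.rpow_add d1]
          congr 1
          rw [hh, he1]
          ring
  have k5 : δ T ^ (-V ^ 2 + e1) / 2 ≤ bb ^ (2 * V) * μ.real A := by linarith
  have k6 : bb ^ (2 * V) = δ T ^ (-(2 * V * (V + a))) := by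
    rw [hbb, ← Real.rpow_mul d1.le]
    congr 1
    ring
  have k7 : δ T ^ (V ^ 2 + 2 * V * a + e1) / 2 ≤ μ.real A := by
    have k8 : δ T ^ (2 * V * (V + a)) * (δ T ^ (-V ^ 2 + e1) / 2) ≤ δ T ^ (2 * V * (V + a)) * (bb ^ (2 * V) * μ.real A) :=
      mul_le_mul_of_nonneg_left k5 (Real.rpow_nonneg d1.le _)
    have k9 : δ T ^ (2 * V * (V + a)) * (bb ^ (2 * V) * μ.real A) = μ.real A := by
      rw [k6, ← mul_assoc, ← Real.rpow_add d1, add_neg_cancel, Real.rpow_zero, one_mul]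
    have k10 : δ T ^ (2 * V * (V + a)) * (δ T ^ (-V ^ 2 + e1) / 2) = δ T ^ (V ^ 2 + 2 * V * a + e1) / 2 := by
      rw [← mul_div_assoc, ← Real.rpow_add d1]
      congr 2
      ring
    rw [k9, k10] at k8
    exact k8
  linarith

theorem thick_up [IsFiniteMeasure μ] (hμs : ∀ᵐ x ∂μ, x ∈ Set.Icc (0:ℝ) 1) {V : ℝ} (hV0 : 0 < V) (hV1 : V ≤ 2)
    (hδ : Pd δ) {e : ℝ} (he : 0 < e) :
    AA fun T t => μ.real {x | δ T ^ (-V) ≤ zn (1 / 2 + δ T) (t + x)} ≤ δ T ^ (V ^ 2 - e) := by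
  refine (AA_up (μ := μ) hμs hV0 hV1 hδ he).mono ?_
  filter_upwards [Pd.pos hδ, hδ.t0.eventually_le_const (show (0:ℝ) < 1 / 4 by norm_num)] with T d1 d2 t g1
  have hz := fun x => zn_nonneg (1 / 2 + δ T) (t + x)
  have hb0 : 0 < δ T ^ (-V) := Real.rpow_pos_of_pos d1 _
  have h1 := mul_meas_ge_le_integral_of_nonneg (μ := μ) (f := fun x => zn (1 / 2 + δ T) (t + x) ^ (2 * V))
    (Eventually.of_forall fun x => Real.rpow_nonneg (hz x) _) (cint hμs (znx_cont hV0 (by linarith))) ((δ T ^ (-V)) ^ (2 * V))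
  have h2 : μ.real {x | δ T ^ (-V) ≤ zn (1 / 2 + δ T) (t + x)} ≤
      μ.real {x | (δ T ^ (-V)) ^ (2 * V) ≤ zn (1 / 2 + δ T) (t + x) ^ (2 * V)} := by
    refine measureReal_mono fun x hx => ?_
    exact Real.rpow_le_rpow hb0.le hx (by positivity)
  have h3 : (δ T ^ (-V)) ^ (2 * V) * μ.real {x | δ T ^ (-V) ≤ zn (1 / 2 + δ T) (t + x)} ≤ δ T ^ (-V ^ 2 - e) :=
    (mul_le_mul_of_nonneg_left h2 (Real.rpow_nonneg hb0.le _)).trans (h1.trans g1)
  have h4 : (δ T ^ (-V)) ^ (2 * V) = δ T ^ (-(2 * V ^ 2)) := by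
    rw [← Real.rpow_mul d1.le]
    congr 1
    ring
  rw [h4] at h3
  have h5 := mul_le_mul_of_nonneg_left h3 (Real.rpow_nonneg d1.le (2 * V ^ 2))
  rw [← mul_assoc, ← Real.rpow_add d1, add_neg_cancel, Real.rpow_zero, one_mul, ← Real.rpow_add d1,
    show 2 * V ^ 2 + (-V ^ 2 - e) = V ^ 2 - e by ring] at h5
  exact h5

end Run7.h772.KH
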