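import Pool.Agent.Run7.h772.KH.ZO
import Pool.Agent.Run7.h772.KH.Deg4

set_option autoImplicit false

/-!
# Typical size of the local moments: bounds in probability
-/

namespace Run7.h772.KH

open Finset Filter MeasureTheory Topology Pool.Agent.N748.GC
open scoped ENNReal
open Pool.Agent.W184 (zn zn_nonneg zn_cont zn_le')
open Pool.Agent.H306R2 (aF aF_pos)

variable {μ : Measure ℝ} {α : ℝ}

/-- the limit over the part above, positive -/
theorem exists_LP [IsFiniteMeasure μ] (hμs : ∀ᵐ x ∂μ, x ∈ Set.Icc (0:ℝ) 1) (h0 : 0 < α) (h1 : α < 1) :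
    ∃ Λ : (ℝ → ℝ) → Om → ℝ, LimM α (μ.restrict (above μ (α ^ 2))) Λ ∧
      (μ (above μ (α ^ 2)) ≠ 0 → ∀ᵐ w ∂PO, 0 < Λ (fun _ => 1) w) := by
  have hνs : ∀ᵐ x ∂(μ.restrict (above μ (α ^ 2))), x ∈ Set.Icc (0:ℝ) 1 := ae_restrict_of_ae hμs
  have hCM : CM α (μ.restrict (above μ (α ^ 2))) := CM_above hμs h0 h1
  have hex : ∀ f : ℝ → ℝ, ∃ L : Om → ℝ, Ok f → Measurable L ∧ Integrable L PO ∧
      ∫ w, L w ∂PO = ∫ x, f x ∂(μ.restrict (above μ (α ^ 2))) ∧
      Tendsto (fun z : ℕ => ∫ w, |(∫ x, f x * rz α z w x ∂(μ.restrict (above μ (α ^ 2)))) - L w| ∂PO) atTop (𝓝 0) := by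
    intro f
    by_cases hf : Ok f
    · obtain ⟨L, h1, h2, h3, h4⟩ := exists_lim hνs hCM h0 hf
      refine ⟨L, fun _ => ⟨h1, h2, h3, ?_⟩⟩
      refine h4.congr fun z => ?_
      refine integral_congr_ae (Eventually.of_forall fun w => ?_)
      show |Ps α (μ.restrict (above μ (α ^ 2))) f z (fun p : Sm z => w p) - L w| =
        |(∫ x, f x * rz α z w x ∂(μ.restrict (above μ (α ^ 2)))) - L w|
      rw [Ps_rz h0]
    · exact ⟨fun _ => 0, fun h => absurd h hf⟩
  choose Λ hΛ using hex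
  have hok : Ok (fun _ : ℝ => (1:ℝ)) := ⟨measurable_const, fun _ => by simp⟩
  refine ⟨Λ, fun f hf => hΛ f hf, fun hpos => ?_⟩
  obtain ⟨a1, a2, a3, a4⟩ := hΛ (fun _ => 1) hok
  simp only [one_mul] at a4
  refine lim_pos h0 a1 a2 a4 ?_ ?_ ?_
  · intro z
    have h := Ps_int (α := α) (μ := μ.restrict (above μ (α ^ 2))) hok z
    refine h.congr (Eventually.of_forall fun w => ?_)
    show Ps α (μ.restrict (above μ (α ^ 2))) (fun _ => 1) z (fun p : Sm z => w p) = ∫ x, rz α z w x ∂(μ.restrict (above μ (α ^ 2)))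
    rw [← Ps_rz h0]
    simp only [one_mul]
  · intro z w
    have hM := QC.M0_cont α (QC.Sm_prime z)
    obtain ⟨B, hB0, hB⟩ := tbd hM
    have e1 : (fun x => rz α z w x) = fun x => M0 α (Sm z) ((fun p : Sm z => w p) + pt (Sm z) x) := by
      funext x
      exact RZ.main α h0 z w x
    rw [e1]
    refine Integrable.of_bound (C := B) ?_ (Eventually.of_forall fun x => hB _)
    exact (hM.comp (continuous_const.add (Pool.Agent.N748.GC.LAM.pt_cont _))).aestronglyMeasurable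
  · rw [a3]
    simp only [integral_const, smul_eq_mul, mul_one, Measure.real, Measure.restrict_apply_univ]
    exact ENNReal.toReal_pos hpos (measure_ne_top _ _)

theorem exists_pos [IsFiniteMeasure μ] (hμs : ∀ᵐ x ∂μ, x ∈ Set.Icc (0:ℝ) 1) (h0 : 0 < α) (h1 : α < 1)
    (hpos : μ (above μ (α ^ 2)) ≠ 0) : ∃ Λ : (ℝ → ℝ) → Om → ℝ, LimM α (μ.restrict (above μ (α ^ 2))) Λ ∧
      ∀ᵐ w ∂PO, 0 < Λ (fun _ => 1) w := by
  obtain ⟨Λ, h2, h3⟩ := exists_LP hμs h0 h1
  exact ⟨Λ, h2, h3 hpos⟩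

/-- lower bound in probability -/
theorem low_prob [IsFiniteMeasure μ] (hμs : ∀ᵐ x ∂μ, x ∈ Set.Icc (0:ℝ) 1) (h0 : 0 < α) (h1 : α < 1)
    (hpos : μ (above μ (α ^ 2)) ≠ 0) {δ : ℝ → ℝ} (hδ : Pd δ) {ε : ℝ} (hε : 0 < ε) : ∃ c : ℝ, 0 < c ∧
    ∀ᶠ T : ℝ in atTop, volume {t ∈ Set.Icc 0 T | WI μ (fun _ => 1) (Zn α (δ T)) t ≤ c} ≤ ENNReal.ofReal (ε * T) := by
  obtain ⟨Λ, hΛ, hp⟩ := exists_pos hμs h0 h1 hpos
  have hS := above_meas (μ := μ) (show 0 < α ^ 2 by positivity)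
  set ν := μ.restrict (above μ (α ^ 2)) with hν
  have hνs : ∀ᵐ x ∂ν, x ∈ Set.Icc (0:ℝ) 1 := ae_restrict_of_ae hμs
  have hok : Ok (fun _ : ℝ => (1:ℝ)) := ⟨measurable_const, fun _ => by simp⟩
  obtain ⟨a1, a2, a3, a4⟩ := hΛ (fun _ => 1) hok
  -- the cut-off
  have hct : ∀ n : ℕ, ∀ y : ℝ, ct (1 / ((n:ℝ) + 1)) y = max 0 (min 1 (2 - y * ((n:ℝ) + 1))) := by
    intro n y
    unfold ct
    rw [div_div_eq_mul_div, div_one]
  have hctn : ∀ n : ℕ, ∀ y : ℝ, 0 ≤ ct (1 / ((n:ℝ) + 1)) y ∧ ct (1 / ((n:ℝ) + 1)) y ≤ 1 := by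
    intro n y
    rw [hct]
    exact ⟨le_max_left _ _, max_le zero_le_one (min_le_left _ _)⟩
  have hctc : ∀ n : ℕ, Continuous (ct (1 / ((n:ℝ) + 1))) := by
    intro n
    have : ct (1 / ((n:ℝ) + 1)) = fun y => max 0 (min 1 (2 - y * ((n:ℝ) + 1))) := funext fun y => hct n y
    rw [this]
    fun_prop
  have hlim : Tendsto (fun n : ℕ => ∫ w, ct (1 / ((n:ℝ) + 1)) (Λ (fun _ => 1) w) ∂PO) atTop (𝓝 0) := by
    have h := tendsto_integral_of_dominated_convergence (μ := PO) (F := fun n : ℕ => fun w => ct (1 / ((n:ℝ) + 1)) (Λ (fun _ => 1) w))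
      (f := fun _ => (0:ℝ)) (fun _ => 1) (fun n => ((hctc n).measurable.comp a1).aestronglyMeasurable) (integrable_const _)
      (fun n => Eventually.of_forall fun w => by
        rw [Real.norm_eq_abs, abs_of_nonneg (hctn n _).1]; exact (hctn n _).2) (by
        filter_upwards [hp] with w hw
        refine tendsto_const_nhds.congr' ?_
        have e1 : Tendsto (fun n : ℕ => Λ (fun _ => 1) w * ((n:ℝ) + 1)) atTop atTop :=
          (tendsto_natCast_atTop_atTop.atTop_add tendsto_const_nhds).const_mul_atTop hw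
        filter_upwards [e1.eventually_ge_atTop 2] with n hn
        rw [hct, min_eq_right (by linarith), max_eq_left (by linarith)])
    simpa using h
  obtain ⟨n, hn⟩ := (hlim.eventually_lt_const (show 0 < ε / 2 by positivity)).exists
  obtain ⟨c, hc⟩ : ∃ c : ℝ, c = 1 / ((n:ℝ) + 1) := ⟨_, rfl⟩
  have hc0 : 0 < c := by rw [hc]; positivity
  refine ⟨c, hc0, ?_⟩
  have hlip : LipschitzWith (Real.toNNReal ((n:ℝ) + 1)) fun y : Fin 1 → ℝ => ct c (y 0) := by
    refine LipschitzWith.of_dist_le_mul fun x y => ?_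
    rw [Real.coe_toNNReal _ (by positivity), hc, hct, hct]
    have e1 : |x 0 - y 0| ≤ dist x y := by rw [← Real.dist_eq]; exact dist_le_pi_dist x y 0
    rw [Real.dist_eq]
    have e2 : |max 0 (min 1 (2 - x 0 * ((n:ℝ) + 1))) - max 0 (min 1 (2 - y 0 * ((n:ℝ) + 1)))| ≤
        |(2 - x 0 * ((n:ℝ) + 1)) - (2 - y 0 * ((n:ℝ) + 1))| := by
      have e3 := abs_max_sub_max_le_max (0:ℝ) (min 1 (2 - x 0 * ((n:ℝ) + 1))) 0 (min 1 (2 - y 0 * ((n:ℝ) + 1)))
      have e4 := abs_min_sub_min_le_max (1:ℝ) (2 - x 0 * ((n:ℝ) + 1)) 1 (2 - y 0 * ((n:ℝ) + 1))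
      refine e3.trans (max_le (by simp) (e4.trans (max_le (by simp) le_rfl)))
    refine e2.trans ?_
    rw [show (2 - x 0 * ((n:ℝ) + 1)) - (2 - y 0 * ((n:ℝ) + 1)) = -(((n:ℝ) + 1) * (x 0 - y 0)) by ring, abs_neg, abs_mul,
      abs_of_pos (show (0:ℝ) < (n:ℝ) + 1 by positivity)]
    gcongr
  have hw := (wassM hνs (CM_above hμs h0 h1) h0 Λ hΛ δ hδ (n := 1) (fun _ => fun _ => 1) (fun _ => hok)
    (fun y => ct c (y 0)) _ hlip).2
  simp only at hw
  rw [← hc] at hn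
  filter_upwards [hw.eventually_lt_const hn, hδ.t0.eventually_le_const (show (0:ℝ) < 1 / 4 by norm_num), eventually_ge_atTop 256,
    hδ.tL.eventually_gt_atTop 0] with T g1 g2 hT g5
  have hL1 : 0 < Real.log T := Real.log_pos (by linarith)
  have hT0 : 0 < T := by linarith
  have hδp : 0 < δ T := by
    by_contra hcon
    push Not at hcon
    nlinarith
  have hZc := Zn_cont' (δ := δ T) h0 (by linarith)
  have hWc : Continuous (WI ν (fun _ => 1) (Zn α (δ T))) := WI_cont hνs measurable_const (fun _ => by simp) hZc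
  have hle : ∀ t, WI ν (fun _ => 1) (Zn α (δ T)) t ≤ WI μ (fun _ => 1) (Zn α (δ T)) t := by
    intro t
    unfold WI
    exact setIntegral_le_integral (wint hμs measurable_const (fun _ => by simp) hZc t)
      (Eventually.of_forall fun x => by
        show (0:ℝ) ≤ 1 * Zn α (δ T) (t + x)
        rw [one_mul]; exact Zn_nonneg h0 hδp.le _)
  have hcc : Continuous fun t => ct c (WI ν (fun _ => 1) (Zn α (δ T)) t) := by
    have := hctc n
    rw [← hc] at this
    exact this.comp hWc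
  have hA : MeasurableSet {t | WI ν (fun _ => 1) (Zn α (δ T)) t ≤ c} := measurableSet_le hWc.measurable measurable_const
  have h3 : volume {t ∈ Set.Icc 0 T | WI μ (fun _ => 1) (Zn α (δ T)) t ≤ c} ≤
      ENNReal.ofReal (∫ t in (0:ℝ)..T, ct c (WI ν (fun _ => 1) (Zn α (δ T)) t)) := by
    rw [intervalIntegral.integral_of_le hT0.le, ← integral_Icc_eq_integral_Ioc,
      ofReal_integral_eq_lintegral_ofReal hcc.continuousOn.integrableOn_Icc
        (Eventually.of_forall fun t => by have := (hctn n (WI ν (fun _ => 1) (Zn α (δ T)) t)).1; rwa [← hc] at this)]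
    calc volume {t ∈ Set.Icc 0 T | WI μ (fun _ => 1) (Zn α (δ T)) t ≤ c}
        ≤ (volume.restrict (Set.Icc 0 T)) {t | WI ν (fun _ => 1) (Zn α (δ T)) t ≤ c} := by
          rw [Measure.restrict_apply hA]
          refine measure_mono ?_
          rintro t ⟨ht1, ht2⟩
          exact ⟨(hle t).trans ht2, ht1⟩
      _ = ∫⁻ t in Set.Icc 0 T, {t | WI ν (fun _ => 1) (Zn α (δ T)) t ≤ c}.indicator 1 t := (lintegral_indicator_one hA).symm
      _ ≤ ∫⁻ t in Set.Icc 0 T, ENNReal.ofReal (ct c (WI ν (fun _ => 1) (Zn α (δ T)) t)) := by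
          refine lintegral_mono fun t => ?_
          by_cases ht : WI ν (fun _ => 1) (Zn α (δ T)) t ≤ c
          · rw [Set.indicator_of_mem (show t ∈ {t | WI ν (fun _ => 1) (Zn α (δ T)) t ≤ c} from ht), Pi.one_apply,
              ← ENNReal.ofReal_one]
            refine ENNReal.ofReal_le_ofReal ?_
            unfold ct
            have e1 : WI ν (fun _ => 1) (Zn α (δ T)) t / c ≤ 1 := (div_le_one hc0).mpr ht
            refine le_max_of_le_right (le_min le_rfl (by linarith))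
          · rw [Set.indicator_of_notMem (show t ∉ {t | WI ν (fun _ => 1) (Zn α (δ T)) t ≤ c} from ht)]
            exact zero_le
  refine h3.trans (ENNReal.ofReal_le_ofReal ?_)
  have h4 : (1 / T) * ∫ t in (0:ℝ)..T, ct c (WI ν (fun _ => 1) (Zn α (δ T)) t) < ε / 2 := g1
  rw [one_div, inv_mul_lt_iff₀ hT0] at h4
  nlinarith

end Run7.h772.KH
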