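import Pool.Agent.Run7.h772.KH.Typ

set_option autoImplicit false

/-!
# Typical size of the local moments over a measure
-/

namespace Run7.h772.KH

open Finset Filter MeasureTheory Topology Pool.Agent.N748.GC
open scoped ENNReal
open Pool.Agent.Y755 Pool.Agent.W184.NZ
open Pool.Agent.W184 (zn zn_nonneg zn_cont zn_le')
open Pool.Agent.H306R2 (aF aF_pos)

variable {μ : Measure ℝ} {α : ℝ} {δ : ℝ → ℝ}

/-- for almost all `t ≤ T` -/
def AA (Q : ℝ → ℝ → Prop) : Prop :=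
  ∀ ε : ℝ, 0 < ε → ∀ᶠ T : ℝ in atTop, volume {t ∈ Set.Icc 0 T | ¬ Q T t} ≤ ENNReal.ofReal (ε * T)

lemma AA.mono {Q Q' : ℝ → ℝ → Prop} (h : AA Q) (h2 : ∀ᶠ T : ℝ in atTop, ∀ t, Q T t → Q' T t) : AA Q' := by
  intro ε hε
  filter_upwards [h ε hε, h2] with T g1 g2
  refine le_trans (measure_mono ?_) g1
  rintro t ⟨ht1, ht2⟩
  exact ⟨ht1, fun h => ht2 (g2 t h)⟩

lemma AA.and {Q Q' : ℝ → ℝ → Prop} (h : AA Q) (h2 : AA Q') : AA fun T t => Q T t ∧ Q' T t := by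
  intro ε hε
  filter_upwards [h (ε / 2) (by positivity), h2 (ε / 2) (by positivity), eventually_gt_atTop 0] with T g1 g2 hT
  have e1 : {t ∈ Set.Icc 0 T | ¬ (Q T t ∧ Q' T t)} ⊆ {t ∈ Set.Icc 0 T | ¬ Q T t} ∪ {t ∈ Set.Icc 0 T | ¬ Q' T t} := by
    rintro t ⟨ht1, ht2⟩
    by_cases h : Q T t
    · exact Or.inr ⟨ht1, fun h' => ht2 ⟨h, h'⟩⟩
    · exact Or.inl ⟨ht1, h⟩
  refine (measure_mono e1).trans ((measure_union_le _ _).trans ((add_le_add g1 g2).trans ?_))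
  rw [← ENNReal.ofReal_add (by positivity) (by positivity)]
  exact ENNReal.ofReal_le_ofReal (by linarith)

lemma AA.of_one {Q : ℝ → ℝ → Prop} (h : ∀ ε : ℝ, 0 < ε → ∀ᶠ T : ℝ in atTop,
    volume {t ∈ Set.Icc 1 T | ¬ Q T t} ≤ ENNReal.ofReal (ε * T)) : AA Q := by
  intro ε hε
  filter_upwards [h (ε / 2) (by positivity), eventually_ge_atTop (2 / ε), eventually_gt_atTop 0] with T g1 g2 hT
  have h7 : (1:ℝ≥0∞) ≤ ENNReal.ofReal (ε / 2 * T) := by
    rw [← ENNReal.ofReal_one]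
    refine ENNReal.ofReal_le_ofReal ?_
    rw [div_le_iff₀ hε] at g2
    linarith
  have e1 : {t ∈ Set.Icc 0 T | ¬ Q T t} = {t | ¬ Q T t} ∩ Set.Icc 0 T := by
    ext t; simp only [Set.mem_ofPred_eq, Set.mem_inter_iff]; tauto
  have e2 : {t ∈ Set.Icc 1 T | ¬ Q T t} = {t | ¬ Q T t} ∩ Set.Icc 1 T := by
    ext t; simp only [Set.mem_ofPred_eq, Set.mem_inter_iff]; tauto
  rw [e1]
  rw [e2] at g1
  refine (split_vol _ _).trans ((add_le_add h7 g1).trans ?_)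
  rw [← ENNReal.ofReal_add (by positivity) (by positivity)]
  exact ENNReal.ofReal_le_ofReal (by linarith)

lemma Pd.pos (hδ : Pd δ) : ∀ᶠ T : ℝ in atTop, 0 < δ T := by
  filter_upwards [hδ.tL.eventually_gt_atTop 0, eventually_ge_atTop 256] with T g1 hT
  have hL1 : 0 < Real.log T := Real.log_pos (by linarith)
  by_contra hcon
  push Not at hcon
  nlinarith

lemma Pd.small (hδ : Pd δ) (C : ℝ) {a b : ℝ} (hab : b < a) : ∀ᶠ T : ℝ in atTop, C * δ T ^ a ≤ δ T ^ b := by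
  have hlim : Tendsto (fun x : ℝ => C * x ^ (a - b)) (𝓝 0) (𝓝 0) := by
    have : Tendsto (fun x : ℝ => x ^ (a - b)) (𝓝 0) (𝓝 (0 ^ (a - b))) :=
      (Real.continuousAt_rpow_const _ _ (Or.inr (by linarith))).tendsto
    rw [Real.zero_rpow (by linarith)] at this
    simpa using this.const_mul C
  filter_upwards [Pd.pos hδ, (hlim.comp hδ.t0).eventually_le_const (show (0:ℝ) < 1 by norm_num)] with T g1 g2
  have g3 : C * δ T ^ (a - b) ≤ 1 := g2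
  calc C * δ T ^ a = (C * δ T ^ (a - b)) * δ T ^ b := by
        rw [mul_assoc, ← Real.rpow_add g1]; congr 2; ring
    _ ≤ 1 * δ T ^ b := mul_le_mul_of_nonneg_right g3 (by positivity)
    _ = δ T ^ b := one_mul _

/-- the local moment -/
noncomputable def SS (μ : Measure ℝ) (k d t : ℝ) : ℝ := ∫ x, zn (1 / 2 + d) (t + x) ^ (2 * k) ∂μ

lemma WI_SS (μ : Measure ℝ) (k d t : ℝ) : WI μ (fun _ => 1) (Zn k d) t = (2 * d) ^ (k ^ 2) / aF k * SS μ k d t := by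
  unfold WI SS
  rw [← integral_const_mul]
  refine integral_congr_ae (Eventually.of_forall fun x => ?_)
  show 1 * Zn k d (t + x) = _
  rw [one_mul, Zn_eq]

lemma SS_nonneg (μ : Measure ℝ) (k d t : ℝ) : 0 ≤ SS μ k d t :=
  integral_nonneg fun _ => Real.rpow_nonneg (zn_nonneg _ _) _

lemma SS_WI {k d : ℝ} (hk : 0 < k) (hd : 0 < d) (μ : Measure ℝ) (t : ℝ) :
    SS μ k d t = aF k * 2 ^ (-k ^ 2) * d ^ (-k ^ 2) * WI μ (fun _ => 1) (Zn k d) t := by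
  have ha := aF_pos hk
  rw [WI_SS, Real.mul_rpow (by norm_num) hd.le, Real.rpow_neg hd.le, Real.rpow_neg (by norm_num)]
  field_simp

theorem AA_low [IsFiniteMeasure μ] (hμs : ∀ᵐ x ∂μ, x ∈ Set.Icc (0:ℝ) 1) (h0 : 0 < α) (h1 : α < 1)
    (hpos : μ (above μ (α ^ 2)) ≠ 0) (hδ : Pd δ) {e : ℝ} (he : 0 < e) :
    AA fun T t => δ T ^ (-α ^ 2 + e) ≤ SS μ α (δ T) t := by
  have ha := aF_pos h0
  intro ε hε
  obtain ⟨c, hc, hev⟩ := low_prob hμs h0 h1 hpos hδ hε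
  filter_upwards [hev, Pd.pos hδ, Pd.small hδ (1 / (aF α * 2 ^ (-α ^ 2) * c)) (show -α ^ 2 < -α ^ 2 + e by linarith)] with T g1 g2 g3
  refine le_trans (measure_mono ?_) g1
  rintro t ⟨ht1, ht2⟩
  refine ⟨ht1, ?_⟩
  push Not at ht2
  by_contra hcon
  push Not at hcon
  rw [SS_WI h0 g2] at ht2
  have h3 : δ T ^ (-α ^ 2 + e) ≤ aF α * 2 ^ (-α ^ 2) * c * δ T ^ (-α ^ 2) := by
    rw [one_div, inv_mul_le_iff₀ (by positivity)] at g3
    exact g3
  have h4 : aF α * 2 ^ (-α ^ 2) * c * δ T ^ (-α ^ 2) ≤ aF α * 2 ^ (-α ^ 2) * δ T ^ (-α ^ 2) * WI μ (fun _ => 1) (Zn α (δ T)) t := by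
    calc aF α * 2 ^ (-α ^ 2) * c * δ T ^ (-α ^ 2) = aF α * 2 ^ (-α ^ 2) * δ T ^ (-α ^ 2) * c := by ring
      _ ≤ _ := mul_le_mul_of_nonneg_left hcon.le (by positivity)
  linarith

theorem AA_up [IsFiniteMeasure μ] (hμs : ∀ᵐ x ∂μ, x ∈ Set.Icc (0:ℝ) 1) (h0 : 0 < α) (h1 : α ≤ 2)
    (hδ : Pd δ) {e : ℝ} (he : 0 < e) : AA fun T t => SS μ α (δ T) t ≤ δ T ^ (-α ^ 2 - e) := by
  have ha := aF_pos h0
  refine AA.of_one fun ε hε => ?_
  obtain ⟨lam, δ0, hl1, hd0, hd16, hbad⟩ := bad_avg (μ := μ) hμs h0 h1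
  set M : ℝ := μ.real Set.univ with hM
  have hM0 : 0 ≤ M := measureReal_nonneg
  have hμM : μ Set.univ = ENNReal.ofReal M := by
    rw [hM, Measure.real, ENNReal.ofReal_toReal (measure_ne_top _ _)]
  obtain ⟨C, hC⟩ : ∃ C : ℝ, C = 40 * (M + 1) / ε := ⟨_, rfl⟩
  have hC0 : 0 < C := by rw [hC]; positivity
  filter_upwards [hbad, Pd.pos hδ, Pd.small hδ (aF α * 2 ^ (-α ^ 2) * C) (show -α ^ 2 - e < -α ^ 2 by linarith),
    hδ.t0.eventually_le_const hd0, eventually_ge_atTop 256, hδ.tL.eventually_ge_atTop lam] with T g1 g2 g3 g4 hT g5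
  have hL0 : 0 < Real.log T := Real.log_pos (by linarith)
  have hd1 : lam / Real.log T ≤ δ T := by rw [div_le_iff₀ hL0]; exact g5
  have hZc := Zn_cont' (δ := δ T) h0 (by linarith)
  have h2 := g1 (δ T) hd1 g4 Set.univ MeasurableSet.univ
  have e2 := mul_meas_ge_le_lintegral (μ := volume.restrict (Set.Icc 1 T)) (U_meas μ hZc Set.univ) (ENNReal.ofReal C)
  have e1 : {t ∈ Set.Icc 1 T | ¬ (SS μ α (δ T) t ≤ δ T ^ (-α ^ 2 - e))} ⊆
      {t | ENNReal.ofReal C ≤ ∫⁻ x in Set.univ, ENNReal.ofReal (Zn α (δ T) (t + x)) ∂μ} ∩ Set.Icc 1 T := by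
    rintro t ⟨ht1, ht2⟩
    refine ⟨?_, ht1⟩
    show ENNReal.ofReal C ≤ ∫⁻ x in Set.univ, ENNReal.ofReal (Zn α (δ T) (t + x)) ∂μ
    rw [setLIntegral_univ, ← WI_lint hμs hZc (fun x => Zn_nonneg h0 g2.le x)]
    refine ENNReal.ofReal_le_ofReal ?_
    by_contra hcon
    push Not at hcon
    refine ht2 (le_trans ?_ g3)
    rw [SS_WI h0 g2]
    calc aF α * 2 ^ (-α ^ 2) * δ T ^ (-α ^ 2) * WI μ (fun _ => 1) (Zn α (δ T)) t
        ≤ aF α * 2 ^ (-α ^ 2) * δ T ^ (-α ^ 2) * C := mul_le_mul_of_nonneg_left hcon.le (by positivity)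
      _ = _ := by ring
  have h3 : ENNReal.ofReal C * volume {t ∈ Set.Icc 1 T | ¬ (SS μ α (δ T) t ≤ δ T ^ (-α ^ 2 - e))} ≤
      ENNReal.ofReal C * ENNReal.ofReal (ε * T) := by
    calc ENNReal.ofReal C * volume {t ∈ Set.Icc 1 T | ¬ (SS μ α (δ T) t ≤ δ T ^ (-α ^ 2 - e))}
        ≤ ∫⁻ t in Set.Icc 1 T, ∫⁻ x in Set.univ, ENNReal.ofReal (Zn α (δ T) (t + x)) ∂μ := by
          refine le_trans ?_ e2
          rw [Measure.restrict_apply' measurableSet_Icc]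
          exact mul_le_mul_right (measure_mono e1) _
      _ ≤ ENNReal.ofReal (40 * T) * μ Set.univ := h2
      _ ≤ ENNReal.ofReal C * ENNReal.ofReal (ε * T) := by
          rw [hμM, ← ENNReal.ofReal_mul (by positivity), ← ENNReal.ofReal_mul (by positivity)]
          refine ENNReal.ofReal_le_ofReal ?_
          have e3 : C * (ε * T) = 40 * (M + 1) * T := by rw [hC]; field_simp
          rw [e3]
          nlinarith
  exact (ENNReal.mul_le_mul_iff_right (by simpa using hC0) ENNReal.ofReal_ne_top).mp h3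

/-- coverings: `E` is covered by at most `d^(-D-e)` grid intervals of length `d` -/
def Cov (E : Set ℝ) (D : ℝ) : Prop := ∀ e : ℝ, 0 < e → ∃ d0 : ℝ, 0 < d0 ∧ ∀ d : ℝ, 0 < d → d ≤ d0 →
  ∃ G : Finset ℤ, (∀ j ∈ G, 0 ≤ j ∧ (j:ℝ) * d ≤ 1) ∧ (#G : ℝ) ≤ d ^ (-D - e) ∧ E ⊆ ⋃ j ∈ G, Ij d j

theorem AA_froz [IsFiniteMeasure μ] (hμs : ∀ᵐ x ∂μ, x ∈ Set.Icc (0:ℝ) 1) {E : Set ℝ} {r k : ℝ} (hr0 : 0 < r) (hr1 : r ≤ 1)
    (hE : Cov E (r ^ 2)) (hμE : μ Eᶜ = 0) (hk : r < k) (hδ : Pd δ) {e : ℝ} (he : 0 < e) :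
    AA fun T t => SS μ k (δ T) t ≤ δ T ^ (-(2 * k * r - r ^ 2) - e) := by
  have hk0 : 0 < k := hr0.trans hk
  have ha := aF_pos hk0
  obtain ⟨p, hp⟩ : ∃ p : ℝ, p = r / k := ⟨_, rfl⟩
  have hp0 : 0 < p := by rw [hp]; positivity
  have hp1 : p < 1 := by rw [hp, div_lt_one hk0]; exact hk
  have hkp : k * p = r := by rw [hp]; field_simp
  obtain ⟨lam, δ0, K, h1, h2, h3, hK, hev⟩ := good_avg (μ := μ) hk0 hp0 hp1.le (by rw [hkp]; linarith)
  obtain ⟨d0, hd0, hcov⟩ := hE (p * e / 4) (by positivity)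
  refine AA.of_one fun ε hε => ?_
  filter_upwards [hev, Pd.pos hδ, hδ.t0.eventually_le_const hd0, Pd.small hδ (aF k * 2 ^ (-k ^ 2))
    (show -(2 * k * r - r ^ 2) - e < -(2 * k * r - r ^ 2) - e / 2 by linarith),
    hδ.t0.eventually_le_const h2, eventually_ge_atTop 256, hδ.tL.eventually_ge_atTop lam,
    Pd.small hδ (K / ε) (show p * ((k - r) ^ 2 - e / 2) < (1 - p) * (k ^ 2 * p - r ^ 2 - p * e / 4) by
      have e1 : (1 - p) * (k ^ 2 * p - r ^ 2) = p * (k - r) ^ 2 := by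
        have : r = k * p := hkp.symm
        rw [this]; ring
      have e2 : 0 < p * e := mul_pos hp0 he
      have e3 : (1 - p) * (p * e / 4) ≤ 1 * (p * e / 4) := mul_le_mul_of_nonneg_right (by linarith) (by linarith)
      have e4 : (1 - p) * (k ^ 2 * p - r ^ 2 - p * e / 4) = (1 - p) * (k ^ 2 * p - r ^ 2) - (1 - p) * (p * e / 4) := by ring
      rw [e4, e1]
      linarith)] with T g1 g2 g3 g4 g5 hT g6 g7
  have hL0 : 0 < Real.log T := Real.log_pos (by linarith)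
  have hd1 : lam / Real.log T ≤ δ T := by rw [div_le_iff₀ hL0]; exact g6
  have hT0 : 0 < T := by linarith
  have hZc := Zn_cont' (δ := δ T) hk0 (by linarith)
  obtain ⟨G, hG1, hG2, hG3⟩ := hcov (δ T) g2 g3
  have h4 := g1 (δ T) hd1 g5 G hG1
  set U : Set ℝ := ⋃ j ∈ G, Ij (δ T) j with hU
  set F : ℝ → ℝ≥0∞ := fun t => ∫⁻ x in U, ENNReal.ofReal (Zn k (δ T) (t + x)) ∂μ with hF
  obtain ⟨η, hη⟩ : ∃ η : ℝ, η = δ T ^ ((k - r) ^ 2 - e / 2) := ⟨_, rfl⟩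
  have hη0 : 0 < η := by rw [hη]; positivity
  have hFW : ∀ t, ENNReal.ofReal (WI μ (fun _ => 1) (Zn k (δ T)) t) = F t := by
    intro t
    rw [WI_lint hμs hZc (fun x => Zn_nonneg hk0 g2.le x)]
    have h5 : U =ᵐ[μ] (Set.univ : Set ℝ) := by
      rw [ae_eq_univ]
      exact measure_mono_null (Set.compl_subset_compl.mpr hG3) hμE
    rw [hF]
    show _ = ∫⁻ x in U, ENNReal.ofReal (Zn k (δ T) (t + x)) ∂μ
    rw [setLIntegral_congr h5, setLIntegral_univ]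
  have e1 : {t ∈ Set.Icc 1 T | ¬ (SS μ k (δ T) t ≤ δ T ^ (-(2 * k * r - r ^ 2) - e))} ⊆
      {t | ENNReal.ofReal η ^ p ≤ F t ^ p} ∩ Set.Icc 1 T := by
    rintro t ⟨ht1, ht2⟩
    refine ⟨ENNReal.rpow_le_rpow ?_ hp0.le, ht1⟩
    rw [← hFW]
    refine ENNReal.ofReal_le_ofReal ?_
    by_contra hcon
    push Not at hcon
    refine ht2 (le_trans ?_ g4)
    rw [SS_WI hk0 g2]
    calc aF k * 2 ^ (-k ^ 2) * δ T ^ (-k ^ 2) * WI μ (fun _ => 1) (Zn k (δ T)) t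
        ≤ aF k * 2 ^ (-k ^ 2) * δ T ^ (-k ^ 2) * η := mul_le_mul_of_nonneg_left hcon.le (by positivity)
      _ = aF k * 2 ^ (-k ^ 2) * δ T ^ (-(2 * k * r - r ^ 2) - e / 2) := by
          rw [hη, mul_assoc, ← Real.rpow_add g2]
          congr 2
          ring
  have e2 := mul_meas_ge_le_lintegral (μ := volume.restrict (Set.Icc 1 T)) ((U_meas μ hZc U).pow_const p) (ENNReal.ofReal η ^ p)
  have h6 : ENNReal.ofReal η ^ p * volume {t ∈ Set.Icc 1 T | ¬ (SS μ k (δ T) t ≤ δ T ^ (-(2 * k * r - r ^ 2) - e))} ≤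
      ENNReal.ofReal η ^ p * ENNReal.ofReal (ε * T) := by
    calc ENNReal.ofReal η ^ p * volume {t ∈ Set.Icc 1 T | ¬ (SS μ k (δ T) t ≤ δ T ^ (-(2 * k * r - r ^ 2) - e))}
        ≤ ∫⁻ t in Set.Icc 1 T, F t ^ p := by
          refine le_trans ?_ e2
          rw [Measure.restrict_apply' measurableSet_Icc]
          exact mul_le_mul_right (measure_mono e1) _
      _ ≤ (#G : ℝ≥0∞) ^ (1 - p) * ENNReal.ofReal (K * δ T ^ (k ^ 2 * p * (1 - p)) * T) := h4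
      _ ≤ ENNReal.ofReal (δ T ^ (-r ^ 2 - p * e / 4)) ^ (1 - p) * ENNReal.ofReal (K * δ T ^ (k ^ 2 * p * (1 - p)) * T) := by
          gcongr
          rw [← ENNReal.ofReal_natCast]
          exact ENNReal.ofReal_le_ofReal hG2
      _ = ENNReal.ofReal (K * δ T ^ ((1 - p) * (k ^ 2 * p - r ^ 2 - p * e / 4)) * T) := by
          rw [ENNReal.ofReal_rpow_of_nonneg (by positivity) (by linarith), ← ENNReal.ofReal_mul (by positivity),
            ← Real.rpow_mul g2.le]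
          congr 1
          rw [show (1 - p) * (k ^ 2 * p - r ^ 2 - p * e / 4) = (-r ^ 2 - p * e / 4) * (1 - p) + k ^ 2 * p * (1 - p) by ring,
            Real.rpow_add g2]
          ring
      _ ≤ ENNReal.ofReal η ^ p * ENNReal.ofReal (ε * T) := by
          rw [ENNReal.ofReal_rpow_of_nonneg hη0.le hp0.le, ← ENNReal.ofReal_mul (by positivity)]
          refine ENNReal.ofReal_le_ofReal ?_
          rw [hη, ← Real.rpow_mul g2.le, mul_comm ((k - r) ^ 2 - e / 2) p]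
          rw [div_mul_eq_mul_div, div_le_iff₀ hε] at g7
          calc K * δ T ^ ((1 - p) * (k ^ 2 * p - r ^ 2 - p * e / 4)) * T ≤ (δ T ^ (p * ((k - r) ^ 2 - e / 2)) * ε) * T :=
                mul_le_mul_of_nonneg_right g7 hT0.le
            _ = _ := by ring
  have e0 : ENNReal.ofReal η ^ p ≠ 0 := by
    rw [ENNReal.ofReal_rpow_of_nonneg hη0.le hp0.le]
    simpa using Real.rpow_pos_of_pos hη0 p
  have et : ENNReal.ofReal η ^ p ≠ ⊤ := by
    rw [ENNReal.ofReal_rpow_of_nonneg hη0.le hp0.le]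
    exact ENNReal.ofReal_ne_top
  exact (ENNReal.mul_le_mul_iff_right e0 et).mp h6

end Run7.h772.KH
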