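import Pool.Agent.Run7.h772.KH.Typ2

set_option autoImplicit false

/-!
# Typical size of all local moments and of the maximum over a set
-/

namespace Run7.h772.KH

open Finset Filter MeasureTheory Topology Pool.Agent.N748.GC
open scoped ENNReal
open Pool.Agent.Y755 Pool.Agent.W184.NZ
open Pool.Agent.W184 (zn zn_nonneg zn_cont zn_le')
open Pool.Agent.H306R2 (aF aF_pos)

variable {μ : Measure ℝ} {α : ℝ} {δ : ℝ → ℝ}

lemma znx_cont {k d t : ℝ} (hk : 0 < k) (hd : d < 1 / 2) : Continuous fun x : ℝ => zn (1 / 2 + d) (t + x) ^ (2 * k) :=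
  (znp_cont (by linarith) (by linarith)).comp (by fun_prop : Continuous fun x : ℝ => t + x)

lemma SS_lint [IsFiniteMeasure μ] (hμs : ∀ᵐ x ∂μ, x ∈ Set.Icc (0:ℝ) 1) {k d t : ℝ} (hk : 0 < k) (hd : d < 1 / 2) :
    ENNReal.ofReal (SS μ k d t) = ∫⁻ x, ENNReal.ofReal (zn (1 / 2 + d) (t + x) ^ (2 * k)) ∂μ :=
  ofReal_integral_eq_lintegral_ofReal (cint hμs (znx_cont hk hd))
    (Eventually.of_forall fun _ => Real.rpow_nonneg (zn_nonneg _ _) _)

lemma hold [IsFiniteMeasure μ] (hμs : ∀ᵐ x ∂μ, x ∈ Set.Icc (0:ℝ) 1) {κ1 κ2 k d t lam : ℝ} (h1 : 0 < κ1) (h2 : κ1 < κ2)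
    (h3 : κ2 < k) (hd : d < 1 / 2) (hlam : lam = (κ2 - κ1) / (k - κ1)) :
    SS μ κ2 d t ≤ SS μ κ1 d t ^ (1 - lam) * SS μ k d t ^ lam := by
  have hl0 : 0 < lam := by rw [hlam]; exact div_pos (by linarith) (by linarith)
  have hl1 : lam < 1 := by rw [hlam, div_lt_one (by linarith)]; linarith
  have hex : 2 * κ2 = 2 * κ1 * (1 - lam) + 2 * k * lam := by
    have : lam * (k - κ1) = κ2 - κ1 := by rw [hlam]; field_simp [(by linarith : k - κ1 ≠ 0)]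
    nlinarith
  have hc1 := znx_cont (t := t) h1 hd
  have hc2 := znx_cont (t := t) (h1.trans (h2.trans h3)) hd
  have h := ENNReal.lintegral_mul_norm_pow_le (μ := μ) hc1.measurable.ennreal_ofReal.aemeasurable
    hc2.measurable.ennreal_ofReal.aemeasurable (p := 1 - lam) (q := lam) (by linarith) hl0.le (by ring)
  have e1 : ∀ x : ℝ, ENNReal.ofReal (zn (1 / 2 + d) (t + x) ^ (2 * κ1)) ^ (1 - lam) *
      ENNReal.ofReal (zn (1 / 2 + d) (t + x) ^ (2 * k)) ^ lam = ENNReal.ofReal (zn (1 / 2 + d) (t + x) ^ (2 * κ2)) := by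
    intro x
    have hz := zn_nonneg (1 / 2 + d) (t + x)
    rw [ENNReal.ofReal_rpow_of_nonneg (Real.rpow_nonneg hz _) (by linarith),
      ENNReal.ofReal_rpow_of_nonneg (Real.rpow_nonneg hz _) hl0.le, ← ENNReal.ofReal_mul (by positivity),
      ← Real.rpow_mul hz, ← Real.rpow_mul hz, ← Real.rpow_add_of_nonneg hz, hex]
    · exact mul_nonneg (by linarith) (by linarith)
    · exact mul_nonneg (by linarith) hl0.le
  simp only [e1] at h
  rw [← SS_lint hμs (h1.trans h2) hd, ← SS_lint hμs h1 hd, ← SS_lint hμs (h1.trans (h2.trans h3)) hd,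
    ENNReal.ofReal_rpow_of_nonneg (SS_nonneg _ _ _ _) (by linarith), ENNReal.ofReal_rpow_of_nonneg (SS_nonneg _ _ _ _) hl0.le,
    ← ENNReal.ofReal_mul (Real.rpow_nonneg (SS_nonneg _ _ _ _) _)] at h
  exact (ENNReal.ofReal_le_ofReal_iff (mul_nonneg (Real.rpow_nonneg (SS_nonneg _ _ _ _) _)
    (Real.rpow_nonneg (SS_nonneg _ _ _ _) _))).mp h

theorem AA_lowk [IsFiniteMeasure μ] (hμs : ∀ᵐ x ∂μ, x ∈ Set.Icc (0:ℝ) 1) {r k : ℝ} (hr0 : 0 < r) (hr1 : r ≤ 1)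
    (hL : ∀ s : ℝ, s < r ^ 2 → μ (above μ s) ≠ 0) (hk : r ≤ k) (hδ : Pd δ) {e : ℝ} (he : 0 < e) :
    AA fun T t => δ T ^ (-(2 * k * r - r ^ 2) + e) ≤ SS μ k (δ T) t := by
  obtain ⟨h, hh⟩ : ∃ h : ℝ, h = min (r / 4) (e / (2 * (3 * (k - r) + 2))) := ⟨_, rfl⟩
  have h0 : 0 < h := by
    rw [hh]
    exact lt_min (by linarith) (div_pos he (by linarith))
  have hr4 : h ≤ r / 4 := by rw [hh]; exact min_le_left _ _
  have he2 : h * (2 * (3 * (k - r) + 2)) ≤ e := by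
    rw [← le_div_iff₀ (by linarith), hh]; exact min_le_right _ _
  obtain ⟨κ1, hκ1⟩ : ∃ κ1 : ℝ, κ1 = r - 2 * h := ⟨_, rfl⟩
  obtain ⟨κ2, hκ2⟩ : ∃ κ2 : ℝ, κ2 = r - h := ⟨_, rfl⟩
  obtain ⟨lam, hlam⟩ : ∃ lam : ℝ, lam = (κ2 - κ1) / (k - κ1) := ⟨_, rfl⟩
  have p1 : 0 < κ1 := by rw [hκ1]; linarith
  have p2 : κ1 < κ2 := by rw [hκ1, hκ2]; linarith
  have p3 : κ2 < k := by rw [hκ2]; linarith
  have hl0 : 0 < lam := by rw [hlam]; exact div_pos (by linarith) (by linarith)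
  have hl1 : lam < 1 := by rw [hlam, div_lt_one (by linarith)]; linarith
  have hlk : lam * (k - κ1) = κ2 - κ1 := by rw [hlam]; field_simp [(by linarith : k - κ1 ≠ 0)]
  obtain ⟨e1, he1⟩ : ∃ e1 : ℝ, e1 = lam * e / 4 := ⟨_, rfl⟩
  have he10 : 0 < e1 := by rw [he1]; positivity
  have g1 := AA_low hμs (p1.trans p2) (by linarith) (hL (κ2 ^ 2) (by nlinarith)) hδ he10
  have g2 := AA_up hμs p1 (by linarith) hδ he10
  refine (g1.and g2).mono ?_
  filter_upwards [Pd.pos hδ, hδ.t0.eventually_le_const (show (0:ℝ) < 1 / 4 by norm_num)] with T d1 d2 t ⟨g3, g4⟩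
  have hS := SS_nonneg μ k (δ T) t
  have hS1 := SS_nonneg μ κ1 (δ T) t
  have g5 := hold hμs p1 p2 p3 (d := δ T) (t := t) (by linarith) hlam
  have g6 : SS μ κ1 (δ T) t ^ (1 - lam) ≤ δ T ^ ((-κ1 ^ 2 - e1) * (1 - lam)) := by
    rw [Real.rpow_mul d1.le]
    exact Real.rpow_le_rpow hS1 g4 (by linarith)
  have g7 : δ T ^ (-κ2 ^ 2 + e1) ≤ δ T ^ ((-κ1 ^ 2 - e1) * (1 - lam)) * SS μ k (δ T) t ^ lam :=
    g3.trans (g5.trans (mul_le_mul_of_nonneg_right g6 (Real.rpow_nonneg hS _)))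
  have g8 : δ T ^ (-κ2 ^ 2 + e1 - (-κ1 ^ 2 - e1) * (1 - lam)) ≤ SS μ k (δ T) t ^ lam := by
    rw [Real.rpow_sub d1, div_le_iff₀ (Real.rpow_pos_of_pos d1 _), mul_comm (SS μ k (δ T) t ^ lam)]
    exact g7
  have g9 := Real.rpow_le_rpow (Real.rpow_nonneg d1.le _) g8 (show 0 ≤ lam⁻¹ by positivity)
  rw [← Real.rpow_mul d1.le, ← Real.rpow_mul hS, mul_inv_cancel₀ hl0.ne', Real.rpow_one] at g9
  refine le_trans ?_ g9
  refine Real.rpow_le_rpow_of_exponent_ge d1 (by linarith) ?_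
  rw [← div_eq_mul_inv, div_le_iff₀ hl0]
  have q1 : -κ2 ^ 2 + κ1 ^ 2 = -(lam * (k - κ1) * (κ1 + κ2)) := by rw [hlk]; ring
  have q2 : (k - κ1) * (κ1 + κ2) + κ1 ^ 2 ≥ 2 * k * r - r ^ 2 - e / 2 := by
    rw [hκ1, hκ2]
    have : h ≤ 1 := by linarith
    nlinarith [mul_nonneg h0.le h0.le, mul_nonneg h0.le (show 0 ≤ 1 - h by linarith)]
  have q3 : -κ2 ^ 2 + e1 - (-κ1 ^ 2 - e1) * (1 - lam) = -(lam * ((k - κ1) * (κ1 + κ2) + κ1 ^ 2)) + 2 * e1 - lam * e1 := by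
    have : -κ2 ^ 2 + e1 - (-κ1 ^ 2 - e1) * (1 - lam) = (-κ2 ^ 2 + κ1 ^ 2) - lam * κ1 ^ 2 + 2 * e1 - lam * e1 := by ring
    rw [this, q1]; ring
  rw [q3]
  have q4 : lam * (2 * k * r - r ^ 2 - e / 2) ≤ lam * ((k - κ1) * (κ1 + κ2) + κ1 ^ 2) := mul_le_mul_of_nonneg_left q2 hl0.le
  have q5 : 0 ≤ lam * e1 := by positivity
  rw [he1] at *
  nlinarith

/-- the maximum from below -/
theorem AA_max_low [IsFiniteMeasure μ] (hμs : ∀ᵐ x ∂μ, x ∈ Set.Icc (0:ℝ) 1) {E : Set ℝ} (hμE : μ Eᶜ = 0) {r : ℝ}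
    (hr0 : 0 < r) (hr1 : r ≤ 1) (hL : ∀ s : ℝ, s < r ^ 2 → μ (above μ s) ≠ 0) (hδ : Pd δ) {e : ℝ} (he : 0 < e) :
    AA fun T t => ∃ x ∈ E, δ T ^ (-r + e) ≤ zn (1 / 2 + δ T) (t + x) := by
  obtain ⟨h, hh⟩ : ∃ h : ℝ, h = min (r / 4) (e / 3) := ⟨_, rfl⟩
  have h0 : 0 < h := by
    rw [hh]
    exact lt_min (by linarith) (by linarith)
  have hr4 : h ≤ r / 4 := by rw [hh]; exact min_le_left _ _
  have he2 : h ≤ e / 3 := by rw [hh]; exact min_le_right _ _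
  obtain ⟨κ1, hκ1⟩ : ∃ κ1 : ℝ, κ1 = r - 2 * h := ⟨_, rfl⟩
  obtain ⟨κ2, hκ2⟩ : ∃ κ2 : ℝ, κ2 = r - h := ⟨_, rfl⟩
  have p1 : 0 < κ1 := by rw [hκ1]; linarith
  have p2 : κ1 < κ2 := by rw [hκ1, hκ2]; linarith
  obtain ⟨e1, he1⟩ : ∃ e1 : ℝ, e1 = h * e / 4 := ⟨_, rfl⟩
  have he10 : 0 < e1 := by rw [he1]; positivity
  have g1 := AA_low hμs (p1.trans p2) (by linarith) (hL (κ2 ^ 2) (by nlinarith)) hδ he10
  have g2 := AA_up hμs p1 (by linarith) hδ he10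
  refine (g1.and g2).mono ?_
  filter_upwards [Pd.pos hδ, hδ.t0.eventually_le_const (show (0:ℝ) < 1 / 4 by norm_num)] with T d1 d2 t ⟨g3, g4⟩
  by_contra hcon
  push Not at hcon
  have hV0 : 0 < δ T ^ (-r + e) := Real.rpow_pos_of_pos d1 _
  have hE : ∀ᵐ x ∂μ, x ∈ E := by rw [ae_iff]; exact hμE
  have g5 : SS μ κ2 (δ T) t ≤ (δ T ^ (-r + e)) ^ (2 * h) * SS μ κ1 (δ T) t := by
    unfold SS
    rw [← integral_const_mul]
    refine integral_mono_ae (cint hμs (znx_cont (p1.trans p2) (by linarith)))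
      ((cint hμs (znx_cont p1 (by linarith))).const_mul _) ?_
    filter_upwards [hE] with x hx
    have hz := zn_nonneg (1 / 2 + δ T) (t + x)
    have e2 : 2 * κ2 = 2 * h + 2 * κ1 := by rw [hκ1, hκ2]; ring
    show zn (1 / 2 + δ T) (t + x) ^ (2 * κ2) ≤ (δ T ^ (-r + e)) ^ (2 * h) * zn (1 / 2 + δ T) (t + x) ^ (2 * κ1)
    rw [e2, Real.rpow_add_of_nonneg hz (by positivity) (by positivity)]
    exact mul_le_mul_of_nonneg_right (Real.rpow_le_rpow hz (hcon x hx).le (by positivity)) (Real.rpow_nonneg hz _)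
  have g6 : δ T ^ (-κ2 ^ 2 + e1) ≤ δ T ^ ((-r + e) * (2 * h) + (-κ1 ^ 2 - e1)) := by
    rw [Real.rpow_add d1 ((-r + e) * (2 * h)), Real.rpow_mul d1.le (-r + e)]
    exact g3.trans (g5.trans (mul_le_mul_of_nonneg_left g4 (by positivity)))
  have g7 : δ T ^ ((-r + e) * (2 * h) + (-κ1 ^ 2 - e1)) < δ T ^ (-κ2 ^ 2 + e1) := by
    refine Real.rpow_lt_rpow_of_exponent_gt d1 (by linarith) ?_
    have e2 : -κ2 ^ 2 + κ1 ^ 2 = -(h * (2 * r - 3 * h)) := by rw [hκ1, hκ2]; ring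
    have e3 : h * h ≤ h * (e / 3) := mul_le_mul_of_nonneg_left he2 h0.le
    have e4 : 0 < h * e := mul_pos h0 he
    nlinarith
  linarith

/-- the maximum from above -/
theorem AA_max_up {E : Set ℝ} {r : ℝ} (hr0 : 0 < r) (hr1 : r ≤ 1) (hE : Cov E (r ^ 2)) (hδ : Pd δ) {e : ℝ} (he : 0 < e) :
    AA fun T t => ∀ x ∈ E, zn (1 / 2 + δ T) (t + x) ≤ δ T ^ (-r - e) := by
  have ha := aF_pos hr0
  have hpi := Real.pi_pos
  obtain ⟨lam, δ0, h1, h2, h3, hev⟩ := bx_time hr0 (by linarith)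
  obtain ⟨d0, hd0, hcov⟩ := hE (r * e) (by positivity)
  refine AA.of_one fun ε hε => ?_
  filter_upwards [hev, Pd.pos hδ, hδ.t0.eventually_le_const hd0,
    hδ.t0.eventually_le_const h2, eventually_ge_atTop 256, hδ.tL.eventually_ge_atTop lam,
    Pd.small hδ (160 * aF r * 4 / (Real.pi * ε)) (show (0:ℝ) < r * e by positivity)] with T g1 g2 g3 g5 hT g6 g7
  have hL0 : 0 < Real.log T := Real.log_pos (by linarith)
  have hd1 : lam / Real.log T ≤ δ T := by rw [div_le_iff₀ hL0]; exact g6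
  have hT0 : 0 < T := by linarith
  obtain ⟨G, hG1, hG2, hG3⟩ := hcov (δ T) g2 g3
  obtain ⟨V, hV⟩ : ∃ V : ℝ, V = δ T ^ (-r - e) := ⟨_, rfl⟩
  have hV0 : 0 < V := by rw [hV]; exact Real.rpow_pos_of_pos g2 _
  obtain ⟨c, hc⟩ : ∃ c : ℝ, c = V ^ (2 * r) * (Real.pi * (δ T / 2) ^ 2) := ⟨_, rfl⟩
  have hc0 : 0 < c := by rw [hc]; positivity
  set F : ℝ → ℝ≥0∞ := fun t => ∑ j ∈ G, bx (2 * r) (δ T) (j * δ T) t with hF
  have hFm : Measurable F := Finset.measurable_fun_sum _ fun j _ => bx_meas _ _ _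
  have e1 : {t ∈ Set.Icc 1 T | ¬ ∀ x ∈ E, zn (1 / 2 + δ T) (t + x) ≤ δ T ^ (-r - e)} ⊆
      {t | ENNReal.ofReal c ≤ F t} ∩ Set.Icc 1 T := by
    rintro t ⟨ht1, ht2⟩
    refine ⟨?_, ht1⟩
    push Not at ht2
    obtain ⟨x, hx, hxz⟩ := ht2
    rw [← hV] at hxz
    obtain ⟨j, hj, hxj⟩ := Set.mem_iUnion₂.mp (hG3 hx)
    have h4 := sm (q := 2 * r) (by positivity) g2 (g5.trans h3) t x (j * δ T) hxj.1 (by have := hxj.2; linarith)
    show ENNReal.ofReal c ≤ F t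
    calc ENNReal.ofReal c ≤ ENNReal.ofReal (zn (1 / 2 + δ T) (t + x) ^ (2 * r) * (Real.pi * (δ T / 2) ^ 2)) := by
          refine ENNReal.ofReal_le_ofReal ?_
          rw [hc]
          exact mul_le_mul_of_nonneg_right (Real.rpow_le_rpow hV0.le hxz.le (by positivity)) (by positivity)
      _ ≤ bx (2 * r) (δ T) (j * δ T) t := h4
      _ ≤ F t := Finset.single_le_sum (f := fun j : ℤ => bx (2 * r) (δ T) (j * δ T) t) (fun i _ => zero_le) hj
  have e2 := mul_meas_ge_le_lintegral (μ := volume.restrict (Set.Icc 1 T)) hFm (ENNReal.ofReal c)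
  have h6 : ENNReal.ofReal c * volume {t ∈ Set.Icc 1 T | ¬ ∀ x ∈ E, zn (1 / 2 + δ T) (t + x) ≤ δ T ^ (-r - e)} ≤
      ENNReal.ofReal c * ENNReal.ofReal (ε * T) := by
    calc ENNReal.ofReal c * volume {t ∈ Set.Icc 1 T | ¬ ∀ x ∈ E, zn (1 / 2 + δ T) (t + x) ≤ δ T ^ (-r - e)}
        ≤ ∫⁻ t in Set.Icc 1 T, F t := by
          refine le_trans ?_ e2
          rw [Measure.restrict_apply' measurableSet_Icc]
          exact mul_le_mul_right (measure_mono e1) _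
      _ = ∑ j ∈ G, ∫⁻ t in Set.Icc 1 T, bx (2 * r) (δ T) (j * δ T) t :=
          lintegral_finsetSum _ fun j _ => bx_meas _ _ _
      _ ≤ ∑ j ∈ G, ENNReal.ofReal (160 * aF r * δ T ^ (2 - r ^ 2) * T) := by
          refine Finset.sum_le_sum fun j hj => g1 (δ T) hd1 g5 _ ⟨?_, (hG1 j hj).2⟩
          have : (0:ℝ) ≤ j := by exact_mod_cast (hG1 j hj).1
          positivity
      _ = ENNReal.ofReal (#G * (160 * aF r * δ T ^ (2 - r ^ 2) * T)) := by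
          rw [Finset.sum_const, nsmul_eq_mul, ← ENNReal.ofReal_natCast, ← ENNReal.ofReal_mul (Nat.cast_nonneg _)]
      _ ≤ ENNReal.ofReal c * ENNReal.ofReal (ε * T) := by
          rw [← ENNReal.ofReal_mul hc0.le]
          refine ENNReal.ofReal_le_ofReal ?_
          have q1 : c = Real.pi / 4 * δ T ^ (2 - 2 * r ^ 2 - 2 * r * e) := by
            rw [hc, hV, ← Real.rpow_mul g2.le, show 2 - 2 * r ^ 2 - 2 * r * e = (-r - e) * (2 * r) + 2 by ring,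
              Real.rpow_add g2, Real.rpow_two]
            ring
          have q2 : δ T ^ (-r ^ 2 - r * e) * δ T ^ (2 - r ^ 2) = δ T ^ (2 - 2 * r ^ 2 - 2 * r * e) * δ T ^ (r * e) := by
            rw [← Real.rpow_add g2, ← Real.rpow_add g2]
            congr 1
            ring
          rw [Real.rpow_zero] at g7
          have q3 : 160 * aF r * δ T ^ (r * e) ≤ Real.pi / 4 * ε := by
            rw [div_mul_eq_mul_div, div_le_iff₀ (by positivity)] at g7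
            linarith
          calc (#G : ℝ) * (160 * aF r * δ T ^ (2 - r ^ 2) * T)
              ≤ δ T ^ (-r ^ 2 - r * e) * (160 * aF r * δ T ^ (2 - r ^ 2) * T) := by gcongr
            _ = (δ T ^ (-r ^ 2 - r * e) * δ T ^ (2 - r ^ 2)) * (160 * aF r * T) := by ring
            _ = δ T ^ (2 - 2 * r ^ 2 - 2 * r * e) * (160 * aF r * δ T ^ (r * e)) * T := by rw [q2]; ring
            _ ≤ δ T ^ (2 - 2 * r ^ 2 - 2 * r * e) * (Real.pi / 4 * ε) * T := by gcongr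
            _ = c * (ε * T) := by rw [q1]; ring
  exact (ENNReal.mul_le_mul_iff_right (by simpa using hc0) ENNReal.ofReal_ne_top).mp h6

end Run7.h772.KH
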