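import Pool.Agent.Run7.h772.KH.Ball

set_option autoImplicit false

/-!
# A zero-one law, and positivity of the limiting masses
-/

namespace Run7.h772.KH

open Finset Filter MeasureTheory Topology Pool.Agent.N748.GC
open scoped ENNReal

/-- keep the coordinates below `N` -/
def tr (N : ℕ) (θ : Om) : Om := fun i => if i < N then θ i else 0

lemma shift_mp (θ : Om) : MeasurePreserving (fun w : Om => w + θ) PO PO := by
  have hm : Measurable (fun w : Om => w + θ) := measurable_pi_iff.mpr fun i => (measurable_pi_apply i).add_const _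
  refine ⟨hm, ?_⟩
  refine Measure.eq_infinitePi _ fun s t ht => ?_
  rw [Measure.map_apply hm (MeasurableSet.pi s.countable_toSet fun i _ => ht i)]
  have e1 : (fun w : Om => w + θ) ⁻¹' (Set.pi s t) = Set.pi s (fun i => (fun y => y + θ i) ⁻¹' (t i)) := by
    ext w
    simp [Set.mem_pi]
  have h2 : PO (Set.pi s (fun i => (fun y => y + θ i) ⁻¹' (t i))) =
      ∏ i ∈ s, (AddCircle.haarAddCircle (T := (1:ℝ))) ((fun y => y + θ i) ⁻¹' (t i)) := by
    unfold PO
    exact Measure.infinitePi_pi _ fun i _ => (measurable_add_const _) (ht i)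
  rw [e1, h2]
  exact Finset.prod_congr rfl fun i _ => measure_preimage_add_right _ _ _

lemma tr_cont (N : ℕ) : Continuous (tr N) := by
  refine continuous_pi fun i => ?_
  unfold tr
  by_cases h : i < N
  · simp only [h, if_true]; exact continuous_apply i
  · simp only [h, if_false]; exact continuous_const

lemma avg_box {N : ℕ} {s : Finset ℕ} (hs : ∀ i ∈ s, i < N) {t : ℕ → Set UnitAddCircle} (ht : ∀ i, MeasurableSet (t i))
    (w : Om) : PO {θ : Om | w + tr N θ ∈ Set.pi s t} = PO (Set.pi s t) := by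
  have hB : MeasurableSet (Set.pi (↑s) t : Set Om) := MeasurableSet.pi s.countable_toSet fun i _ => ht i
  rw [← (shift_mp w).measure_preimage hB.nullMeasurableSet]
  congr 1
  ext θ
  simp only [Set.mem_ofPred_eq, Set.mem_preimage, Set.mem_pi, Pi.add_apply, Finset.mem_coe]
  refine forall_congr' fun i => forall_congr' fun hi => ?_
  rw [tr, if_pos (hs i hi), add_comm]

theorem zero_one {A : Set Om} (hA : MeasurableSet A)
    (hinv : ∀ N : ℕ, ∀ θ : Om, ∀ᵐ w ∂PO, (w + tr N θ ∈ A ↔ w ∈ A)) (h0 : PO A ≠ 0) : PO Aᶜ = 0 := by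
  have key : ∀ s : Finset ℕ, ∀ t : ℕ → Set UnitAddCircle, (∀ i, MeasurableSet (t i)) →
      PO (Set.pi s t ∩ A) = PO A * PO (Set.pi s t) := by
    intro s t ht
    obtain ⟨N, hN⟩ : ∃ N : ℕ, ∀ i ∈ s, i < N := ⟨s.sup id + 1, fun i hi => Nat.lt_succ_of_le (Finset.le_sup (f := id) hi)⟩
    have hB : MeasurableSet (Set.pi (↑s) t : Set Om) := MeasurableSet.pi s.countable_toSet fun i _ => ht i
    set B : Set Om := Set.pi s t with hBd
    have h1 : ∀ θ : Om, PO (B ∩ A) = ∫⁻ w, A.indicator (fun _ => 1) w * B.indicator (fun _ => 1) (w + tr N θ) ∂PO := by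
      intro θ
      have h2 := (shift_mp (tr N θ)).measure_preimage (hB.inter hA).nullMeasurableSet
      rw [← h2, ← lintegral_indicator_one ((shift_mp (tr N θ)).measurable (hB.inter hA))]
      refine lintegral_congr_ae ?_
      filter_upwards [hinv N θ] with w hw
      by_cases hwA : w ∈ A
      · by_cases hwB : w + tr N θ ∈ B
        · simp [Set.indicator, hwA, hwB, hw.mpr hwA]
        · simp [Set.indicator, hwA, hwB]
      · have : w + tr N θ ∉ A := fun h => hwA (hw.mp h)
        simp [Set.indicator, hwA, this]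
    have hm : Measurable fun r : Om × Om => A.indicator (fun _ => (1:ℝ≥0∞)) r.2 * B.indicator (fun _ => (1:ℝ≥0∞)) (r.2 + tr N r.1) := by
      refine Measurable.mul ?_ ?_
      · exact (measurable_const.indicator hA).comp measurable_snd
      · refine (measurable_const.indicator hB).comp ?_
        have hc : Continuous fun r : Om × Om => r.2 + tr N r.1 := continuous_snd.add ((tr_cont N).comp continuous_fst)
        exact hc.measurable
    calc PO (B ∩ A) = ∫⁻ _ : Om, PO (B ∩ A) ∂PO := by simp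
      _ = ∫⁻ θ : Om, (∫⁻ w, A.indicator (fun _ => 1) w * B.indicator (fun _ => 1) (w + tr N θ) ∂PO) ∂PO :=
          lintegral_congr fun θ => h1 θ
      _ = ∫⁻ w : Om, (∫⁻ θ, A.indicator (fun _ => 1) w * B.indicator (fun _ => 1) (w + tr N θ) ∂PO) ∂PO :=
          lintegral_lintegral_swap hm.aemeasurable
      _ = ∫⁻ w : Om, A.indicator (fun _ => 1) w * PO B ∂PO := by
          refine lintegral_congr fun w => ?_
          have hm2 : Measurable fun θ : Om => w + tr N θ := (continuous_const.add (tr_cont N)).measurable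
          have hm3 : Measurable fun θ : Om => B.indicator (fun _ => (1:ℝ≥0∞)) (w + tr N θ) :=
            (measurable_const.indicator hB).comp hm2
          rw [lintegral_const_mul _ hm3]
          congr 1
          have e1 : ∀ θ : Om, B.indicator (fun _ => (1:ℝ≥0∞)) (w + tr N θ) = {θ : Om | w + tr N θ ∈ B}.indicator 1 θ := by
            intro θ
            simp [Set.indicator]
          simp only [e1]
          have hB2 : MeasurableSet {θ : Om | w + tr N θ ∈ B} := hm2 hB
          rw [lintegral_indicator_one hB2]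
          exact avg_box hN ht w
      _ = PO A * PO B := by
          rw [lintegral_mul_const _ (measurable_const.indicator hA)]
          congr 1
          exact lintegral_indicator_one hA
  have hne : PO A ≠ ⊤ := measure_ne_top _ _
  have hν : (PO A)⁻¹ • PO.restrict A = PO := by
    refine Measure.eq_infinitePi _ fun s t ht => ?_
    rw [Measure.smul_apply, Measure.restrict_apply (MeasurableSet.pi s.countable_toSet fun i _ => ht i), key s t ht,
      smul_eq_mul, ← mul_assoc, ENNReal.inv_mul_cancel h0 hne, one_mul]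
    unfold PO
    exact Measure.infinitePi_pi _ fun i _ => ht i
  have h5 : ((PO A)⁻¹ • PO.restrict A) Aᶜ = PO Aᶜ := by rw [hν]
  rw [← h5, Measure.smul_apply, Measure.restrict_apply hA.compl]
  simp

/-! ### changing finitely many phases -/

lemma lw_bd (α : ℝ) : ∃ c : ℕ → ℝ, (∀ p, 0 ≤ c p) ∧ ∀ p : ℕ, p.Prime → ∀ y, |lw α p y| ≤ c p := by
  have h : ∀ p : ℕ, ∃ c : ℝ, 0 ≤ c ∧ (p.Prime → ∀ y, |lw α p y| ≤ c) := by
    intro p
    by_cases hp : p.Prime
    · obtain ⟨c, hc⟩ := (isCompact_univ (X := UnitAddCircle)).exists_bound_of_continuousOn (RZ.lw_cont α hp).continuousOn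
      exact ⟨|c|, abs_nonneg _, fun _ y => (hc y (Set.mem_univ _)).trans (le_abs_self _)⟩
    · exact ⟨0, le_rfl, fun h => absurd h hp⟩
  choose c h1 h2 using h
  exact ⟨c, h1, h2⟩

lemma rz_cmp {α : ℝ} (hα : 0 < α) (N : ℕ) : ∃ C : ℝ, 0 < C ∧ ∀ z : ℕ, ∀ w w' : Om, (∀ i, N ≤ i → w' i = w i) →
    ∀ x, rz α z w' x ≤ C * rz α z w x := by
  obtain ⟨c, hc0, hc⟩ := lw_bd α
  refine ⟨Real.exp (∑ i ∈ range N, 2 * c i), Real.exp_pos _, fun z w w' hw x => ?_⟩
  rw [RZ.main α hα z w' x, RZ.main α hα z w x]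
  unfold M0
  have hE := RZ.E0_pos α (Sm z) (QC.Sm_prime z)
  rw [← mul_div_assoc, ← Real.exp_add]
  refine div_le_div_of_nonneg_right (Real.exp_le_exp.mpr ?_) hE.le
  have h1 : ∀ p : Sm z, lw α p (((fun p : Sm z => w' p) + pt (Sm z) x) p) ≤
      (if (p:ℕ) < N then 2 * c p else 0) + lw α p (((fun p : Sm z => w p) + pt (Sm z) x) p) := by
    intro p
    by_cases hp : (p:ℕ) < N
    · rw [if_pos hp]
      have h2 := (abs_le.mp (hc p (QC.Sm_prime z p p.2) (((fun p : Sm z => w' p) + pt (Sm z) x) p))).2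
      have h3 := (abs_le.mp (hc p (QC.Sm_prime z p p.2) (((fun p : Sm z => w p) + pt (Sm z) x) p))).1
      linarith
    · rw [if_neg hp, zero_add]
      have h4 : ((fun p : Sm z => w' p) + pt (Sm z) x) p = ((fun p : Sm z => w p) + pt (Sm z) x) p := by
        simp only [Pi.add_apply, hw p (not_lt.mp hp)]
      rw [h4]
  refine (Finset.sum_le_sum fun p _ => h1 p).trans ?_
  rw [Finset.sum_add_distrib]
  refine add_le_add ?_ le_rfl
  rw [Finset.sum_coe_sort (Sm z) (fun p => if p < N then 2 * c p else 0), ← Finset.sum_filter]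
  refine Finset.sum_le_sum_of_subset_of_nonneg ?_ fun i _ _ => by have := hc0 i; positivity
  intro i hi
  rw [Finset.mem_filter] at hi
  exact Finset.mem_range.mpr hi.2

/-- the limit is changed by a bounded factor only -/
lemma lim_cmp {μ : Measure ℝ} [IsFiniteMeasure μ] {α : ℝ} (hα : 0 < α) {L : Om → ℝ} (hL : Integrable L PO)
    (hlim : Tendsto (fun z : ℕ => ∫ w, |(∫ x, rz α z w x ∂μ) - L w| ∂PO) atTop (𝓝 0))
    (hint : ∀ z : ℕ, Integrable (fun w => ∫ x, rz α z w x ∂μ) PO)
    (hintx : ∀ z : ℕ, ∀ w, Integrable (fun x => rz α z w x) μ)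
    (g g' : Om → Om) (hg : MeasurePreserving g PO PO) (hg' : MeasurePreserving g' PO PO)
    {N : ℕ} (hgg : ∀ w i, N ≤ i → g' w i = g w i) : ∃ C : ℝ, 0 < C ∧ ∀ᵐ w ∂PO, L (g' w) ≤ C * L (g w) := by
  obtain ⟨C, hC, hcmp⟩ := rz_cmp hα N
  refine ⟨C, hC, ?_⟩
  set Y : ℕ → Om → ℝ := fun z w => ∫ x, rz α z w x ∂μ with hY
  have h1 : ∀ z w, Y z (g' w) ≤ C * Y z (g w) := by
    intro z w
    rw [hY]
    show ∫ x, rz α z (g' w) x ∂μ ≤ C * ∫ x, rz α z (g w) x ∂μ
    rw [← integral_const_mul]
    exact integral_mono (hintx z _) ((hintx z _).const_mul C) fun x => hcmp z (g w) (g' w) (hgg w) x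
  have hi1 : ∀ z, Integrable (fun w => |Y z w - L w|) PO := fun z => ((hint z).sub hL).abs
  have hcomp : ∀ (q : Om → Om), MeasurePreserving q PO PO → ∀ F : Om → ℝ, Integrable F PO →
      Integrable (fun w => F (q w)) PO ∧ ∫ w, F (q w) ∂PO = ∫ w, F w ∂PO := by
    intro q hq F hF
    refine ⟨hq.integrable_comp_of_integrable hF, ?_⟩
    have h := integral_map (μ := PO) hq.measurable.aemeasurable (f := F) (by rw [hq.map_eq]; exact hF.aestronglyMeasurable)
    rw [hq.map_eq] at h
    exact h.symm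
  have hi2 : Integrable (fun w => max (L (g' w) - C * L (g w)) 0) PO :=
    (((hcomp g' hg' L hL).1).sub (((hcomp g hg L hL).1).const_mul C)).sup (integrable_zero _ _ _)
  have h2 : ∀ z, ∫ w, max (L (g' w) - C * L (g w)) 0 ∂PO ≤ (1 + C) * ∫ w, |Y z w - L w| ∂PO := by
    intro z
    obtain ⟨i1, e1⟩ := hcomp g' hg' _ (hi1 z)
    obtain ⟨i2, e2⟩ := hcomp g hg _ (hi1 z)
    calc ∫ w, max (L (g' w) - C * L (g w)) 0 ∂PO
        ≤ ∫ w, (|Y z (g' w) - L (g' w)| + C * |Y z (g w) - L (g w)|) ∂PO := by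
          refine integral_mono hi2 (i1.add (i2.const_mul C)) fun w => ?_
          show max (L (g' w) - C * L (g w)) 0 ≤ |Y z (g' w) - L (g' w)| + C * |Y z (g w) - L (g w)|
          have a1 := (abs_le.mp (le_refl |Y z (g' w) - L (g' w)|)).1
          have a2 := le_abs_self (Y z (g w) - L (g w))
          have a3 := h1 z w
          have a4 := mul_le_mul_of_nonneg_left a2 hC.le
          refine max_le ?_ (by positivity)
          linarith
      _ = ∫ w, |Y z (g' w) - L (g' w)| ∂PO + C * ∫ w, |Y z (g w) - L (g w)| ∂PO := by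
          rw [integral_add i1 (i2.const_mul C), integral_const_mul]
      _ = (1 + C) * ∫ w, |Y z w - L w| ∂PO := by
          rw [e1, e2]
          ring
  have h3 : ∫ w, max (L (g' w) - C * L (g w)) 0 ∂PO ≤ 0 := by
    refine ge_of_tendsto' (x := atTop) (f := fun z : ℕ => (1 + C) * ∫ w, |Y z w - L w| ∂PO) ?_ h2
    simpa using hlim.const_mul (1 + C)
  have h4 : 0 ≤ᵐ[PO] fun w => max (L (g' w) - C * L (g w)) 0 := Eventually.of_forall fun w => le_max_right _ _
  have h5 : ∫ w, max (L (g' w) - C * L (g w)) 0 ∂PO = 0 := le_antisymm h3 (integral_nonneg_of_ae h4)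
  rw [integral_eq_zero_iff_of_nonneg_ae h4 hi2] at h5
  filter_upwards [h5] with w hw
  have h6 : max (L (g' w) - C * L (g w)) 0 = 0 := hw
  have h7 := le_max_left (L (g' w) - C * L (g w)) 0
  linarith

/-- the limiting masses are positive -/
theorem lim_pos {μ : Measure ℝ} [IsFiniteMeasure μ] {α : ℝ} (hα : 0 < α) {L : Om → ℝ} (hLm : Measurable L)
    (hL : Integrable L PO) (hlim : Tendsto (fun z : ℕ => ∫ w, |(∫ x, rz α z w x ∂μ) - L w| ∂PO) atTop (𝓝 0))
    (hint : ∀ z : ℕ, Integrable (fun w => ∫ x, rz α z w x ∂μ) PO)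
    (hintx : ∀ z : ℕ, ∀ w, Integrable (fun x => rz α z w x) μ) (hpos : 0 < ∫ w, L w ∂PO) : ∀ᵐ w ∂PO, 0 < L w := by
  have hA : MeasurableSet {w | 0 < L w} := measurableSet_lt measurable_const hLm
  have h0 : PO {w | 0 < L w} ≠ 0 := by
    intro h
    have h1 : ∀ᵐ w ∂PO, L w ≤ 0 := by
      rw [ae_iff]
      simpa using h
    have h2 : ∫ w, L w ∂PO ≤ 0 := integral_nonpos_of_ae h1
    linarith
  have h1 := zero_one hA (fun N θ => ?_) h0
  · rw [ae_iff]
    exact h1
  · have hid : MeasurePreserving (fun w : Om => w) PO PO := MeasurePreserving.id _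
    have hag : ∀ (w : Om) (i : ℕ), N ≤ i → (w + tr N θ) i = w i := by
      intro w i hi
      simp [tr, not_lt.mpr hi]
    obtain ⟨C1, hC1, h2⟩ := lim_cmp hα hL hlim hint hintx (fun w => w) (fun w => w + tr N θ) hid (shift_mp _) (N := N) hag
    obtain ⟨C2, hC2, h3⟩ := lim_cmp hα hL hlim hint hintx (fun w => w + tr N θ) (fun w => w) (shift_mp _) hid (N := N)
      (fun w i hi => (hag w i hi).symm)
    filter_upwards [h2, h3] with w h4 h5
    show 0 < L (w + tr N θ) ↔ 0 < L w
    constructor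
    · intro h6
      by_contra h7
      push Not at h7
      nlinarith
    · intro h6
      by_contra h7
      push Not at h7
      nlinarith

end Run7.h772.KH
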